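import Pool.Agent.J6H86.BranchPack.Defs

set_option autoImplicit false

/-!
# Sums of angles around a vertex
-/

namespace Pool.Agent.J6H86.BranchPack

open Real

/-- Chains of complex numbers whose arguments add up. -/
theorem chain_arg {V : Type} (S : Set V) (Q : V → V → ℂ)
    (hne : ∀ a ∈ S, ∀ b ∈ S, Q a b ≠ 0)
    (hmul : ∀ a ∈ S, ∀ b ∈ S, ∀ c ∈ S, ∃ r : ℝ, 0 < r ∧ Q a b * Q b c = (r : ℂ) * Q a c) :
    ∀ (l : List V) (x y : V), x ∈ S → y ∈ S → (∀ v ∈ l, v ∈ S) →
      ((((x :: l).zip (l ++ [y])).map fun p => (Q p.1 p.2).arg).sum : Real.Angle) =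
        ((Q x y).arg : Real.Angle) := by
  intro l
  induction l with
  | nil => intro x y _ _ _; simp
  | cons z l ih =>
    intro x y hx hy hl
    have hz : z ∈ S := hl z (by simp)
    have := ih z y hz hy (fun v hv => hl v (by simp [hv]))
    have e : (x :: z :: l).zip (z :: l ++ [y]) = (x, z) :: (z :: l).zip (l ++ [y]) := rfl
    rw [e, List.map_cons, List.sum_cons, Real.Angle.coe_add, this,
      ← Complex.arg_mul_coe_angle (hne x hx z hz) (hne z hz y hy)]
    obtain ⟨r, hr, hmr⟩ := hmul x hx z hz y hy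
    rw [hmr, Complex.arg_real_mul _ hr]

/-- The arguments around a cycle sum to a multiple of `2π`. -/
theorem cycle_sum {V : Type} [Fintype V] [DecidableEq V] (S : Set V) (Q : V → V → ℂ)
    (hne : ∀ a ∈ S, ∀ b ∈ S, Q a b ≠ 0)
    (hmul : ∀ a ∈ S, ∀ b ∈ S, ∀ c ∈ S, ∃ r : ℝ, 0 < r ∧ Q a b * Q b c = (r : ℂ) * Q a c)
    (hdiag : ∀ a ∈ S, (Q a a).arg = 0) (L : List V) (hL : L.Nodup) (hS : ∀ v ∈ L, v ∈ S) :
    ∃ k : ℤ, ∑ p ∈ cyclePairs L, (Q p.1 p.2).arg = 2 * π * k := by
  cases L with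
  | nil => exact ⟨0, by simp [cyclePairs]⟩
  | cons x l =>
    have hnd : ((x :: l).zip (l ++ [x])).Nodup := by
      refine List.Nodup.of_map Prod.fst ?_
      rw [List.map_fst_zip (by simp)]
      exact hL
    have e : cyclePairs (x :: l) = ((x :: l).zip (l ++ [x])).toFinset := by
      unfold cyclePairs
      simp
    rw [e, List.sum_toFinset _ hnd]
    have h := chain_arg S Q hne hmul l x x (hS x (by simp)) (hS x (by simp))
      (fun v hv => hS v (by simp [hv]))
    rw [hdiag x (hS x (by simp)), Real.Angle.coe_zero, Real.Angle.coe_eq_zero_iff] at h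
    obtain ⟨n, hn⟩ := h
    exact ⟨n, by rw [← hn]; simp; ring⟩

/-- The arguments along a path sum to the argument of the ends modulo `2π`. -/
theorem path_sum {V : Type} [Fintype V] [DecidableEq V] (S : Set V) (Q : V → V → ℂ)
    (hne : ∀ a ∈ S, ∀ b ∈ S, Q a b ≠ 0)
    (hmul : ∀ a ∈ S, ∀ b ∈ S, ∀ c ∈ S, ∃ r : ℝ, 0 < r ∧ Q a b * Q b c = (r : ℂ) * Q a c)
    (x y : V) (l : List V) (hL : (x :: l).Nodup) (hx : x ∈ S) (hy : y ∈ S)
    (hS : ∀ v ∈ l, v ∈ S) (hxy : (Q x y).arg = π) :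
    ∃ k : ℤ, ∑ p ∈ pathPairs (x :: (l ++ [y])), (Q p.1 p.2).arg = π + 2 * π * k := by
  have e0 : (x :: (l ++ [y])).zip (x :: (l ++ [y])).tail = (x :: l).zip (l ++ [y]) := by
    rw [List.tail_cons]
    have : x :: (l ++ [y]) = (x :: l) ++ [y] := rfl
    rw [this]
    have h2 := List.zip_append (l₁ := x :: l) (r₁ := [y]) (l₂ := l ++ [y]) (r₂ := []) (by simp)
    rw [List.append_nil] at h2
    rw [h2]
    simp
  have hnd : ((x :: l).zip (l ++ [y])).Nodup := by
    refine List.Nodup.of_map Prod.fst ?_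
    rw [List.map_fst_zip (by simp)]
    exact hL
  unfold pathPairs
  rw [e0, List.sum_toFinset _ hnd]
  have h := chain_arg S Q hne hmul l x y hx hy hS
  rw [hxy] at h
  rw [Real.Angle.angle_eq_iff_two_pi_dvd_sub] at h
  obtain ⟨k, hk⟩ := h
  exact ⟨k, by linarith⟩

/-- The angle of two nonzero vectors as the argument of a complex number. -/
theorem angle_eq_arg {E : Type*} [NormedAddCommGroup E] [InnerProductSpace ℝ E] (x y : E) (z : ℂ)
    (hre : z.re = inner ℝ x y) (hn : ‖z‖ = ‖x‖ * ‖y‖) (him : 0 < z.im) :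
    InnerProductGeometry.angle x y = z.arg := by
  have hz : z ≠ 0 := by
    intro h
    rw [h] at him
    simp at him
  rw [Complex.arg_of_im_nonneg_of_ne_zero him.le hz, InnerProductGeometry.angle, hre, hn]

theorem arg_pos_of {z : ℂ} (him : 0 < z.im) : 0 < z.arg ∧ z.arg < π := by
  constructor
  · rcases (Complex.arg_nonneg_iff.2 him.le).lt_or_eq with h | h
    · exact h
    · exfalso
      have := Complex.arg_eq_zero_iff.1 h.symm
      linarith [this.2]
  · rcases (Complex.arg_le_pi z).lt_or_eq with h | h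
    · exact h
    · exfalso
      have := Complex.arg_eq_pi_iff.1 h
      linarith [this.2]

end Pool.Agent.J6H86.BranchPack
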