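import Pool.Agent.J6H86.BranchPack.Defs

set_option autoImplicit false

/-!
# The disc with thirteen vertices

Vertex `0` is the centre, `1, 2, 3` are the branch vertices, `4, 5, 6` the corners, and
`7, 8, 9` and `10, 11, 12` the remaining boundary vertices.
-/

namespace Pool.Agent.J6H86.BranchPack

theorem mem_link {V : Type} [Fintype V] [DecidableEq V] {F : Faces V} {v : V} {q : V × V} :
    q ∈ link F v ↔ (v, q.1, q.2) ∈ F := by
  unfold link
  simp only [Finset.mem_image, Finset.mem_filter]
  constructor
  · rintro ⟨⟨a, b, c⟩, ⟨h1, h2⟩, h3⟩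
    simp only at h2 h3
    subst h2 h3
    exact h1
  · intro h
    exact ⟨(v, q.1, q.2), ⟨h, rfl⟩, rfl⟩

/-- The faces, one rotation each. -/
def base : List (Fin 13 × Fin 13 × Fin 13) :=
  [(0,1,2), (2,1,4), (1,6,7), (1,7,10), (1,10,4),
   (0,2,3), (3,2,5), (2,4,8), (2,8,11), (2,11,5),
   (0,3,1), (1,3,6), (3,5,9), (3,9,12), (3,12,6)]

/-- The faces with all rotations. -/
def allFaces : List (Fin 13 × Fin 13 × Fin 13) :=
  base ++ base.map (fun f => (f.2.1, f.2.2, f.1)) ++ base.map (fun f => (f.2.2, f.1, f.2.1))

/-- The disc. -/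
def K : Faces (Fin 13) := ⟨(allFaces : Multiset (Fin 13 × Fin 13 × Fin 13)), by
  show allFaces.Nodup
  decide +kernel⟩

theorem mem_K_iff {f : Fin 13 × Fin 13 × Fin 13} : f ∈ K ↔ f ∈ allFaces := Iff.rfl

/-- A bit table of the faces. -/
def table : ℕ := (allFaces.map fun f => 2 ^ (169 * f.1.val + 13 * f.2.1.val + f.2.2.val)).sum

attribute [irreducible] table

/-- Look-up in the table. -/
def isFace (a b c : Fin 13) : Bool := table.testBit (169 * a.val + 13 * b.val + c.val)

theorem isFace_of_mem : ∀ f ∈ allFaces, isFace f.1 f.2.1 f.2.2 = true := by decide +kernel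

theorem card_isFace :
    (Finset.univ.filter fun f : Fin 13 × Fin 13 × Fin 13 => isFace f.1 f.2.1 f.2.2 = true).card
      = 45 := by decide +kernel

theorem mem_K {a b c : Fin 13} : (a, b, c) ∈ K ↔ isFace a b c = true := by
  have h : K = Finset.univ.filter fun f : Fin 13 × Fin 13 × Fin 13 =>
      isFace f.1 f.2.1 f.2.2 = true := by
    refine Finset.eq_of_subset_of_card_le ?_ ?_
    · intro f hf
      simp only [Finset.mem_filter, Finset.mem_univ, true_and]
      exact isFace_of_mem f hf
    · rw [card_isFace]; decide +kernel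
  constructor
  · intro hm
    exact isFace_of_mem _ hm
  · intro hm
    rw [h]
    exact Finset.mem_filter.2 ⟨Finset.mem_univ _, hm⟩

/-- The branch set. -/
def B : Multiset (Fin 13) := {1, 2, 3}

theorem rot_isFace : ∀ a b c : Fin 13, isFace a b c = true → isFace b c a = true := by
  decide +kernel

theorem ne_isFace : ∀ a b c : Fin 13, isFace a b c = true → a ≠ b := by decide +kernel

theorem simp_isFace : ∀ a b c : Fin 13, isFace a b c = true → isFace b a c ≠ true := by
  decide +kernel

theorem K_complex : IsOrientedComplex K where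
  rotate a b c := by rw [mem_K, mem_K]; exact rot_isFace a b c
  ne a b c := by rw [mem_K]; exact ne_isFace a b c
  simplicial a b c := by rw [mem_K, mem_K]; exact simp_isFace a b c

/-- Petals of the vertices. -/
def petals : Fin 13 → List (Fin 13) :=
  ![[1,2,3], [0,3,6,7,10,4,2], [0,1,4,8,11,5,3], [0,2,5,9,12,6,1],
    [8,2,1,10], [9,3,2,11], [7,1,3,12], [10,1,6], [11,2,4], [12,3,5], [4,1,7], [5,2,8], [6,3,9]]

theorem int_isFace : ∀ v : Fin 13, (∀ a b, isFace v a b = true → ∃ c, isFace v b c = true) ↔
    v.val < 4 := by decide +kernel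

theorem interior_iff {v : Fin 13} : IsInterior K v ↔ v.val < 4 := by
  rw [← int_isFace]
  unfold IsInterior
  simp only [mem_link, mem_K, Prod.forall]

theorem link_int_aux : ∀ v : Fin 13, v.val < 4 → ∀ a b, isFace v a b = true ↔
    (a, b) ∈ (petals v).zip ((petals v).rotate 1) := by decide +kernel

theorem link_bd_aux : ∀ v : Fin 13, ¬ v.val < 4 → ∀ a b, isFace v a b = true ↔
    (a, b) ∈ (petals v).zip (petals v).tail := by decide +kernel

theorem link_int {v : Fin 13} (hv : v.val < 4) : link K v = cyclePairs (petals v) := by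
  ext q
  rw [mem_link, mem_K, link_int_aux v hv, cyclePairs, List.mem_toFinset]

theorem link_bd {v : Fin 13} (hv : ¬ v.val < 4) : link K v = pathPairs (petals v) := by
  ext q
  rw [mem_link, mem_K, link_bd_aux v hv, pathPairs, List.mem_toFinset]

theorem petals_nodup : ∀ v : Fin 13, (petals v).Nodup := by decide +kernel

theorem petals_len : ∀ v : Fin 13, 3 ≤ (petals v).length := by decide +kernel

theorem adj_K {a b : Fin 13} : Adj K a b ↔ ∃ c, isFace a b c = true ∨ isFace b a c = true := by
  unfold Adj
  simp only [mem_K]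

theorem card_adj : (Finset.univ.filter fun p : Fin 13 × Fin 13 =>
    ∃ c, isFace p.1 p.2 c = true ∨ isFace p.2 p.1 c = true).card = 54 := by decide +kernel

theorem euler_K : euler K = 1 := by
  unfold euler
  have h1 : (Finset.univ.filter fun p : Fin 13 × Fin 13 => Adj K p.1 p.2).card = 54 := by
    rw [← card_adj]
    exact congrArg Finset.card (Finset.filter_congr fun p _ => adj_K)
  rw [h1]
  have h2 : K.card = 45 := by decide +kernel
  rw [h2]
  simp

theorem toHub : ∀ v : Fin 13, ∃ w, (v = w ∨ ∃ c, isFace v w c = true ∨ isFace w v c = true) ∧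
    (w = 0 ∨ ∃ c, isFace w 0 c = true ∨ isFace 0 w c = true) := by decide +kernel

theorem adj_symm {V : Type} [Fintype V] [DecidableEq V] {F : Faces V} {a b : V}
    (h : Adj F a b) : Adj F b a := by
  obtain ⟨c, h | h⟩ := h
  · exact ⟨c, Or.inr h⟩
  · exact ⟨c, Or.inl h⟩

theorem reach0 (v : Fin 13) : Relation.ReflTransGen (Adj K) v 0 := by
  obtain ⟨w, h1, h2⟩ := toHub v
  have a1 : Relation.ReflTransGen (Adj K) v w := by
    rcases h1 with h | h
    · rw [h]
    · exact Relation.ReflTransGen.single (adj_K.2 h)
  have a2 : Relation.ReflTransGen (Adj K) w 0 := by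
    rcases h2 with h | h
    · rw [h]
    · exact Relation.ReflTransGen.single (adj_K.2 h)
  exact a1.trans a2

theorem reach_symm {V : Type} {r : V → V → Prop} (hr : ∀ a b, r a b → r b a) {a b : V}
    (h : Relation.ReflTransGen r a b) : Relation.ReflTransGen r b a := by
  induction h with
  | refl => exact Relation.ReflTransGen.refl
  | tail _ h2 ih => exact (Relation.ReflTransGen.single (hr _ _ h2)).trans ih

theorem K_disc : IsClosedDisc K where
  complex := K_complex
  links v := by
    by_cases hv : v.val < 4
    · left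
      refine ⟨petals v, petals_nodup v, ?_, link_int hv⟩
      have := petals_len v
      intro h
      rw [h] at this
      simp at this
    · right
      exact ⟨petals v, petals_nodup v, by have := petals_len v; omega, link_bd hv⟩
  boundary := ⟨4, petals 4, petals_nodup 4, by decide, link_bd (by decide)⟩
  connected a b := by
    exact (reach0 a).trans (reach_symm (fun _ _ h => adj_symm h) (reach0 b))
  euler := euler_K

end Pool.Agent.J6H86.BranchPack
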