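import Mathlib

set_option autoImplicit false

/-!
# Branched circle packings of the disc and of the sphere

Finite triangulated surfaces are given by their positively oriented faces.
-/

namespace Pool.Agent.J6H86.BranchPack

open Real

/-- A finite oriented two-dimensional simplicial complex, given by its faces: `(a, b, c)` is listed
when `a, b, c` are, in positive order, the three vertices of a face. -/
abbrev Faces (V : Type) := Finset (V × V × V)

section Combinatorics

variable {V : Type} [Fintype V] [DecidableEq V]

/-- The oriented link of `v`: all pairs `(a, b)` such that `(v, a, b)` is a face. -/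
def link (F : Faces V) (v : V) : Finset (V × V) :=
  (F.filter fun f => f.1 = v).image fun f => f.2

/-- `a` and `b` are joined by an edge. -/
def Adj (F : Faces V) (a b : V) : Prop := ∃ c, (a, b, c) ∈ F ∨ (b, a, c) ∈ F

instance (F : Faces V) (a b : V) : Decidable (Adj F a b) := by unfold Adj; infer_instance

/-- The pairs of cyclically consecutive members of a list. -/
def cyclePairs (L : List V) : Finset (V × V) := (L.zip (L.rotate 1)).toFinset

/-- The pairs of consecutive members of a list. -/
def pathPairs (L : List V) : Finset (V × V) := (L.zip L.tail).toFinset

/-- The faces around `v` form a closed fan: their neighbours of `v` can be listed without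
repetition so that the faces at `v` are the `(v, a, b)` with `a, b` cyclically consecutive. -/
def LinkIsCycle (F : Faces V) (v : V) : Prop :=
  ∃ L : List V, L.Nodup ∧ L ≠ [] ∧ link F v = cyclePairs L

/-- The faces around `v` form an open fan. -/
def LinkIsPath (F : Faces V) (v : V) : Prop :=
  ∃ L : List V, L.Nodup ∧ 2 ≤ L.length ∧ link F v = pathPairs L

/-- Faces have three distinct vertices, are given with all their rotations, and no three vertices
carry two faces. -/
structure IsOrientedComplex (F : Faces V) : Prop where
  rotate : ∀ a b c, (a, b, c) ∈ F → (b, c, a) ∈ F
  ne : ∀ a b c, (a, b, c) ∈ F → a ≠ b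
  simplicial : ∀ a b c, (a, b, c) ∈ F → (b, a, c) ∉ F

/-- The Euler characteristic: vertices minus edges plus faces. -/
def euler (F : Faces V) : ℤ :=
  (Fintype.card V : ℤ) - ((Finset.univ.filter fun p : V × V => Adj F p.1 p.2).card / 2 : ℕ)
    + (F.card / 3 : ℕ)

/-- `F` triangulates a closed disc: a compact connected oriented surface with non-empty boundary
and Euler characteristic `1`. All elements of `V` are vertices. -/
structure IsClosedDisc (F : Faces V) : Prop where
  complex : IsOrientedComplex F
  links : ∀ v, LinkIsCycle F v ∨ LinkIsPath F v
  boundary : ∃ v, LinkIsPath F v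
  connected : ∀ a b, Relation.ReflTransGen (Adj F) a b
  euler : euler F = 1

/-- `F` triangulates the sphere: a compact connected oriented surface without boundary, of Euler
characteristic `2`. -/
structure IsSphere (F : Faces V) : Prop where
  complex : IsOrientedComplex F
  links : ∀ v, LinkIsCycle F v
  connected : ∀ a b, Relation.ReflTransGen (Adj F) a b
  euler : euler F = 2

/-- `v` is an interior vertex: no edge at `v` is a boundary edge, that is, each face `(v, a, b)`
has a neighbour `(v, b, c)`. -/
def IsInterior (F : Faces V) (v : V) : Prop := ∀ q ∈ link F v, ∃ c, (q.2, c) ∈ link F v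

instance (F : Faces V) (v : V) : Decidable (IsInterior F v) := by
  unfold IsInterior; infer_instance

/-- The vertices of the double: `(v, false)` for all vertices `v`, and a second copy `(v, true)` for
the interior vertices. -/
abbrev DVert (F : Faces V) : Type := {p : V × Bool // p.2 = true → IsInterior F p.1}

/-- The vertex `v` in the first (`false`) or the second (`true`) copy of the disc; boundary vertices
are the same in both copies. -/
def copy (F : Faces V) (e : Bool) (v : V) : DVert F :=
  ⟨(v, e && decide (IsInterior F v)), fun h => by
    simp only [Bool.and_eq_true, decide_eq_true_eq] at h; exact h.2⟩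

/-- The double: two copies of `F` glued along the boundary, the second one with reversed
orientation. -/
def double (F : Faces V) : Faces (DVert F) :=
  F.image (fun f => (copy F false f.1, copy F false f.2.1, copy F false f.2.2)) ∪
  F.image (fun f => (copy F true f.1, copy F true f.2.2, copy F true f.2.1))

/-- The branch set `β` together with its mirror image. -/
def doubleBranch (F : Faces V) (β : Multiset V) : Multiset (DVert F) :=
  β.map (copy F false) + β.map (copy F true)

/-- The combinatorial (edge path) condition on a branch set: a simple closed edge path `γ` that
encloses `k` points of `β` (with multiplicity) has at least `2 k + 3` edges. Here `T` is the set of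
faces enclosed by the positively oriented path `γ`: the edges with a face of `T` on the left and no
face of `T` on the right are the edges of `γ`. -/
def EdgePathCondition (F : Faces V) (β : Multiset V) : Prop :=
  ∀ (γ : List V) (T : Faces V), γ.Nodup → 3 ≤ γ.length → T ⊆ F →
    (∀ a b c, (a, b, c) ∈ T → (b, c, a) ∈ T) →
    (∀ a b, (a, b) ∈ cyclePairs γ ↔ (∃ c, (a, b, c) ∈ T) ∧ ¬ ∃ c, (b, a, c) ∈ T) →
    2 * (β.filter fun v => v ∉ γ ∧ ∃ a b, (v, a, b) ∈ T).card + 3 ≤ γ.length

end Combinatorics

section DiscPacking

variable {V : Type} [Fintype V] [DecidableEq V]

/-- A circle packing for `F` in the unit disc: circles in the closed unit disc, those of interior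
vertices in the open disc, tangent for neighbouring vertices, each face giving a positively
oriented triple. -/
structure DiscPacking (F : Faces V) where
  center : V → ℂ
  radius : V → ℝ
  radius_pos : ∀ v, 0 < radius v
  inside : ∀ v, ‖center v‖ + radius v ≤ 1
  interior_inside : ∀ v, IsInterior F v → ‖center v‖ + radius v < 1
  tangent : ∀ a b c, (a, b, c) ∈ F → dist (center a) (center b) = radius a + radius b
  oriented : ∀ a b c, (a, b, c) ∈ F →
    0 < ((starRingEnd ℂ) (center b - center a) * (center c - center a)).im

/-- The sum of the face angles at `v`. -/
noncomputable def DiscPacking.angleSum {F : Faces V} (P : DiscPacking F) (v : V) : ℝ :=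
  ∑ q ∈ link F v, InnerProductGeometry.angle (P.center q.1 - P.center v) (P.center q.2 - P.center v)

/-- `β` is a branch structure for `F`: a multiset of interior vertices that is the branch set of a
packing in the unit disc all of whose boundary circles are horocycles (touch the unit circle). -/
def IsBranchStructure (F : Faces V) (β : Multiset V) : Prop :=
  (∀ v ∈ β, IsInterior F v) ∧
  ∃ P : DiscPacking F, (∀ v, ¬ IsInterior F v → ‖P.center v‖ + P.radius v = 1) ∧
    ∀ v, IsInterior F v → P.angleSum v = 2 * π * (1 + β.count v)

end DiscPacking

section SpherePacking

variable {V : Type} [Fintype V] [DecidableEq V]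

/-- Euclidean three-space. -/
abbrev E3 := EuclideanSpace ℝ (Fin 3)

/-- The determinant of three vectors. -/
def det3 (a b c : E3) : ℝ :=
  a 0 * (b 1 * c 2 - b 2 * c 1) - a 1 * (b 0 * c 2 - b 2 * c 0) + a 2 * (b 0 * c 1 - b 1 * c 0)

/-- The direction at `u` of the great circle arc from `u` to `x`, for points of the unit sphere. -/
noncomputable def toward (u x : E3) : E3 := x - inner ℝ u x • u

/-- A circle packing for `F` on the unit sphere: spherical discs with centres `center v` and
spherical radii `radius v`, externally tangent for neighbouring vertices (the spherical distance of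
the centres is the sum of the radii), each face giving a positively oriented triple. -/
structure SpherePacking (F : Faces V) where
  center : V → E3
  radius : V → ℝ
  unit : ∀ v, ‖center v‖ = 1
  radius_pos : ∀ v, 0 < radius v
  radius_lt : ∀ v, radius v < π
  tangent : ∀ a b c, (a, b, c) ∈ F →
    InnerProductGeometry.angle (center a) (center b) = radius a + radius b
  oriented : ∀ a b c, (a, b, c) ∈ F → 0 < det3 (center a) (center b) (center c)

/-- The sum of the angles at `v` of the spherical triangles spanned by the centres of the faces. -/
noncomputable def SpherePacking.angleSum {F : Faces V} (P : SpherePacking F) (v : V) : ℝ :=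
  ∑ q ∈ link F v, InnerProductGeometry.angle (toward (P.center v) (P.center q.1))
    (toward (P.center v) (P.center q.2))

/-- `P` has branch set `β`: at each vertex `v` the face angles sum to `2π (1 + k)`, where `k` is the
multiplicity of `v` in `β`. -/
def SpherePacking.HasBranchSet {F : Faces V} (P : SpherePacking F) (β : Multiset V) : Prop :=
  ∀ v, P.angleSum v = 2 * π * (1 + β.count v)

/-- The closed disc of the packing that belongs to `v`. -/
def SpherePacking.disc {F : Faces V} (P : SpherePacking F) (v : V) : Set (Metric.sphere (0 : E3) 1) :=
  {x | InnerProductGeometry.angle (P.center v) (x : E3) ≤ P.radius v}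

/-- A bijection of the sphere that preserves all absolute cross-ratios of four points. These maps
are the Möbius maps and the Möbius maps composed with a reflection. -/
def PreservesCrossRatios (φ : Metric.sphere (0 : E3) 1 → Metric.sphere (0 : E3) 1) : Prop :=
  Function.Bijective φ ∧ ∀ a b c d,
    dist (φ a) (φ b) * dist (φ c) (φ d) * (dist a c * dist b d) =
      dist a b * dist c d * (dist (φ a) (φ c) * dist (φ b) (φ d))

/-- Some Möbius map, possibly composed with a reflection, maps the discs of `P` to those of `Q`. -/
def MoebiusEquivalent {F : Faces V} (P Q : SpherePacking F) : Prop :=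
  ∃ φ : Metric.sphere (0 : E3) 1 → Metric.sphere (0 : E3) 1, PreservesCrossRatios φ ∧
    ∀ v, φ '' P.disc v = Q.disc v

end SpherePacking

end Pool.Agent.J6H86.BranchPack
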