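import Pool.Agent.J6H86.BranchPack.Pack3

set_option autoImplicit false

/-!
# The two packings, numerical bounds
-/

namespace Pool.Agent.J6H86.BranchPack

open Real InnerProductGeometry

theorem sqrt5_bounds : (2.236 : ℝ) < √5 ∧ √5 < 2.2361 := by
  constructor
  · apply Real.lt_sqrt_of_sq_lt; norm_num
  · rw [Real.sqrt_lt' (by norm_num)]; norm_num

theorem sqrt3_pos : (0 : ℝ) < √3 := Real.sqrt_pos.2 (by norm_num)

/-- First packing. -/
noncomputable def p1 : Par where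
  a := √3
  b := √5
  e := -1
  Z := √(20 + 8 * √5)
  ha := Real.sq_sqrt (by norm_num)
  hb := Real.sq_sqrt (by norm_num)
  he := by norm_num
  hZ := by rw [Real.sq_sqrt (by positivity)]; ring
  a_pos := sqrt3_pos
  b_pos := by positivity
  P_pos := by
    have : 0 < √(20 + 8 * √5) := by positivity
    linarith
  g_pos := by have : 0 ≤ √5 := Real.sqrt_nonneg 5; linarith
  s_pos := by linarith [sqrt5_bounds.1]
  z_pos := by
    have : 0 < √(20 + 8 * √5) := by positivity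
    linarith [sqrt5_bounds.1]
  c_pos := by linarith [sqrt5_bounds.2]

theorem Z2_bounds : (1.4529 : ℝ) < √(20 - 8 * √5) ∧ √(20 - 8 * √5) < 1.4542 := by
  obtain ⟨h1, h2⟩ := sqrt5_bounds
  constructor
  · apply Real.lt_sqrt_of_sq_lt; nlinarith
  · rw [Real.sqrt_lt' (by norm_num)]; nlinarith

/-- Second packing. -/
noncomputable def p2 : Par where
  a := √3
  b := √5
  e := 1
  Z := -√(20 - 8 * √5)
  ha := Real.sq_sqrt (by norm_num)
  hb := Real.sq_sqrt (by norm_num)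
  he := by norm_num
  hZ := by rw [neg_sq, Real.sq_sqrt (by linarith [sqrt5_bounds.2])]; ring
  a_pos := sqrt3_pos
  b_pos := by positivity
  P_pos := by linarith [Z2_bounds.1]
  g_pos := by linarith [sqrt5_bounds.1]
  s_pos := by linarith [sqrt5_bounds.1]
  z_pos := by linarith [sqrt5_bounds.1, Z2_bounds.2]
  c_pos := by linarith [sqrt5_bounds.1]

/-- Cosine bounds turned into angle bounds. -/
theorem arccos_third : arccos (-1 / 2) = 2 * π / 3 := by
  have h : cos (2 * π / 3) = -1 / 2 := by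
    have e : 2 * π / 3 = π - π / 3 := by ring
    rw [e, Real.cos_pi_sub, Real.cos_pi_div_three]; norm_num
  rw [← h, Real.arccos_cos (by positivity) (by linarith [Real.pi_pos])]

theorem obtuse3 {x : ℝ} (h : x ≤ -1 / 2) : 2 * π / 3 ≤ arccos x := by
  rw [← arccos_third]
  exact Real.arccos_le_arccos h

theorem acute {x : ℝ} (h : 0 < x) : arccos x < π / 2 := by
  rw [Real.arccos_lt_pi_div_two]; exact h

theorem obtuse {x : ℝ} (h : x < 0) : π / 2 < arccos x := by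
  have h1 : ¬ arccos x ≤ π / 2 := by
    rw [Real.arccos_le_pi_div_two]
    exact not_le.2 h
  exact not_le.1 h1

theorem frac_lt {N x y : ℝ} (hx : 0 < x) (hy : 0 < y) (h : 2 * N < x * y) :
    0 < 1 - 2 * N / (x * y) := by
  rw [sub_pos, div_lt_one (by positivity)]; exact h

theorem frac_gt {N x y : ℝ} (hx : 0 < x) (hy : 0 < y) (h : x * y < 2 * N) :
    1 - 2 * N / (x * y) < 0 := by
  rw [sub_neg, one_lt_div (by positivity)]; exact h

theorem frac_le {N x y : ℝ} (hx : 0 < x) (hy : 0 < y) (h : 3 * (x * y) ≤ 4 * N) :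
    1 - 2 * N / (x * y) ≤ -1 / 2 := by
  have : 3 / 2 ≤ 2 * N / (x * y) := by
    rw [le_div_iff₀ (by positivity)]; linarith
  linarith

/-- weights -/
noncomputable def Par.wb (p : Par) : ℝ := (3 * p.b - 4 * p.e) * p.a / 3
noncomputable def Par.w0 (p : Par) : ℝ := p.a * ((3 * p.b - 4 * p.e) + 2 * p.Z)
noncomputable def Par.wc (p : Par) : ℝ := p.a * p.b / 15
noncomputable def Par.ws (p : Par) : ℝ := (p.b + 2 * p.e) * p.a / 3

theorem Par.wb_sq (p : Par) : p.wb ^ 2 = (3 * p.b - 4 * p.e) ^ 2 / 3 := by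
  have := p.ha
  unfold Par.wb
  grind

theorem Par.prodA (p : Par) : (p.wb + p.w0) * (p.wb + p.wb) =
    2 * (3 * p.b - 4 * p.e) * (4 * (3 * p.b - 4 * p.e) / 3 + 2 * p.Z) := by
  have := p.ha
  unfold Par.wb Par.w0
  grind

theorem Par.prodB (p : Par) : (p.wb + p.wb) * (p.wb + p.wc) =
    2 * ((3 * p.b - 4 * p.e) ^ 2 / 3 + (3 * p.b - 4 * p.e) * p.b / 15) := by
  have := p.ha
  unfold Par.wb Par.wc
  grind

theorem Par.prodC (p : Par) : (p.wb + p.wc) * (p.wb + p.ws) =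
    (5 * (3 * p.b - 4 * p.e) + p.b) * ((3 * p.b - 4 * p.e) + p.b + 2 * p.e) / 15 := by
  have := p.ha
  unfold Par.wb Par.wc Par.ws
  grind

theorem Par.prodD (p : Par) : (p.wb + p.ws) * (p.wb + p.ws) =
    ((3 * p.b - 4 * p.e) + p.b + 2 * p.e) ^ 2 / 3 := by
  have := p.ha
  unfold Par.wb Par.ws
  grind

theorem Par.wb_pos (p : Par) : 0 < p.wb := by
  have h1 := p.g_pos
  have h2 := p.a_pos
  unfold Par.wb
  positivity

theorem Par.wc_pos (p : Par) : 0 < p.wc := by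
  have h1 := p.b_pos
  have h2 := p.a_pos
  unfold Par.wc
  positivity

theorem Par.ws_pos (p : Par) : 0 < p.ws := by
  have h1 := p.s_pos
  have h2 := p.a_pos
  unfold Par.ws
  positivity

theorem Par.w0_pos (p : Par) : 0 < p.wb + p.w0 := by
  have h : p.wb + p.w0 = 2 * p.a / 3 * (3 * p.Z + 2 * (3 * p.b - 4 * p.e)) := by
    unfold Par.wb Par.w0; ring
  have h1 := p.z_pos
  have h2 := p.a_pos
  rw [h]
  positivity

/-- The angle at a branch vertex. -/
theorem branch_angles (p : Par) {v p1 p2 p3 p4 p5 p6 : Fin 13} (hv : v.val < 4)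
    (e : petals v = [0, p1, p2, p3, p4, p5, p6])
    (hw : Pw p v = p.wb ∧ Pw p p1 = p.wb ∧ Pw p p2 = p.wc ∧ Pw p p3 = p.ws ∧ Pw p p4 = p.ws ∧
      Pw p p5 = p.wc ∧ Pw p p6 = p.wb)
    (hf : isFace v 0 p1 = true ∧ isFace v p1 p2 = true ∧ isFace v p2 p3 = true ∧
      isFace v p3 p4 = true ∧ isFace v p4 p5 = true ∧ isFace v p5 p6 = true ∧
      isFace v p6 0 = true)
    (H : (1 / 2 * ((p.wb + p.w0) * (p.wb + p.wb)) > 1 + p.wb ^ 2 ∧
        3 * ((p.wb + p.wc) * (p.wb + p.ws)) ≤ 4 * (1 + p.wb ^ 2) ∧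
        3 * ((p.wb + p.ws) * (p.wb + p.ws)) ≤ 4 * (1 + p.wb ^ 2)) ∨
      (1 / 2 * ((p.wb + p.w0) * (p.wb + p.wb)) < 1 + p.wb ^ 2 ∧
        1 / 2 * ((p.wb + p.wb) * (p.wb + p.wc)) < 1 + p.wb ^ 2 ∧
        1 / 2 * ((p.wb + p.wc) * (p.wb + p.ws)) > 1 + p.wb ^ 2)) :
    ∑ q ∈ link K v, p.D.half.ang v q.1 q.2 = 4 * π := by
  obtain ⟨w, w1, w2, w3, w4, w5, w6⟩ := hw
  obtain ⟨f0, f1, f2, f3, f4, f5, f6⟩ := hf
  have e0 : Pw p 0 = p.w0 := rfl
  have c0 : p.D.half.ang v 0 p1 = arccos (1 - 2 * (1 + p.wb ^ 2) / ((p.wb + p.w0) * (p.wb + p.wb))) := by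
    rw [ang_arccos p.D f0]
    simp only [LData.cs, Par.D, w, w1, e0]
  have c1 : p.D.half.ang v p1 p2 =
      arccos (1 - 2 * (1 + p.wb ^ 2) / ((p.wb + p.wb) * (p.wb + p.wc))) := by
    rw [ang_arccos p.D f1]
    simp only [LData.cs, Par.D, w, w1, w2]
  have c2 : p.D.half.ang v p2 p3 =
      arccos (1 - 2 * (1 + p.wb ^ 2) / ((p.wb + p.wc) * (p.wb + p.ws))) := by
    rw [ang_arccos p.D f2]
    simp only [LData.cs, Par.D, w, w2, w3]
  have c3 : p.D.half.ang v p3 p4 =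
      arccos (1 - 2 * (1 + p.wb ^ 2) / ((p.wb + p.ws) * (p.wb + p.ws))) := by
    rw [ang_arccos p.D f3]
    simp only [LData.cs, Par.D, w, w3, w4]
  have c4 : p.D.half.ang v p4 p5 =
      arccos (1 - 2 * (1 + p.wb ^ 2) / ((p.wb + p.wc) * (p.wb + p.ws))) := by
    rw [ang_arccos p.D f4]
    simp only [LData.cs, Par.D, w, w4, w5]
    rw [mul_comm (p.wb + p.ws)]
  have c5 : p.D.half.ang v p5 p6 =
      arccos (1 - 2 * (1 + p.wb ^ 2) / ((p.wb + p.wb) * (p.wb + p.wc))) := by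
    rw [ang_arccos p.D f5]
    simp only [LData.cs, Par.D, w, w5, w6]
    rw [mul_comm (p.wb + p.wc)]
  have c6 : p.D.half.ang v p6 0 =
      arccos (1 - 2 * (1 + p.wb ^ 2) / ((p.wb + p.w0) * (p.wb + p.wb))) := by
    rw [ang_arccos p.D f6]
    simp only [LData.cs, Par.D, w, w6, e0]
    rw [mul_comm (p.wb + p.wb)]
  have r0 := ang_range p.D f0
  have r1 := ang_range p.D f1
  have r2 := ang_range p.D f2
  have r3 := ang_range p.D f3
  have r4 := ang_range p.D f4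
  have r5 := ang_range p.D f5
  have r6 := ang_range p.D f6
  have hb := p.wb_pos
  have hc := p.wc_pos
  have hs := p.ws_pos
  have h0 := p.w0_pos
  have hbb : 0 < p.wb + p.wb := by linarith
  have hbc : 0 < p.wb + p.wc := by linarith
  have hbs : 0 < p.wb + p.ws := by linarith
  rcases H with ⟨H1, H2, H3⟩ | ⟨H1, H2, H3⟩
  · have b0 := acute (frac_lt h0 hbb (N := 1 + p.wb ^ 2) (by linarith))
    have b2 := obtuse3 (frac_le hbc hbs (N := 1 + p.wb ^ 2) (by linarith))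
    have b3 := obtuse3 (frac_le hbs hbs (N := 1 + p.wb ^ 2) (by linarith))
    rw [← c0] at b0
    rw [← c3] at b3
    have b4 := b2
    rw [← c2] at b2
    rw [← c4] at b4
    have b6 : p.D.half.ang v p6 0 < π / 2 := by rw [c6, ← c0]; exact b0
    exact sum_branch p.D hv e (by linarith) (by linarith)
  · have b0 := obtuse (frac_gt h0 hbb (N := 1 + p.wb ^ 2) (by linarith))
    have b1 := obtuse (frac_gt hbb hbc (N := 1 + p.wb ^ 2) (by linarith))
    have b2 := acute (frac_lt hbc hbs (N := 1 + p.wb ^ 2) (by linarith))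
    rw [← c0] at b0
    rw [← c1] at b1
    rw [← c2] at b2
    have b6 : π / 2 < p.D.half.ang v p6 0 := by rw [c6, ← c0]; exact b0
    have b5 : π / 2 < p.D.half.ang v p5 p6 := by rw [c5, ← c1]; exact b1
    have b4 : p.D.half.ang v p4 p5 < π / 2 := by rw [c4, ← c2]; exact b2
    exact sum_branch p.D hv e (by linarith) (by linarith)

theorem all_branch (p : Par)
    (H : (1 / 2 * ((p.wb + p.w0) * (p.wb + p.wb)) > 1 + p.wb ^ 2 ∧
        3 * ((p.wb + p.wc) * (p.wb + p.ws)) ≤ 4 * (1 + p.wb ^ 2) ∧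
        3 * ((p.wb + p.ws) * (p.wb + p.ws)) ≤ 4 * (1 + p.wb ^ 2)) ∨
      (1 / 2 * ((p.wb + p.w0) * (p.wb + p.wb)) < 1 + p.wb ^ 2 ∧
        1 / 2 * ((p.wb + p.wb) * (p.wb + p.wc)) < 1 + p.wb ^ 2 ∧
        1 / 2 * ((p.wb + p.wc) * (p.wb + p.ws)) > 1 + p.wb ^ 2)) :
    (p.D.half.toDouble K_complex).HasBranchSet (doubleBranch K B) := by
  refine hasBranchSet p ?_
  rintro v (rfl | rfl | rfl)
  · exact branch_angles p (v := 1) (p1 := 3) (p2 := 6) (p3 := 7) (p4 := 10) (p5 := 4) (p6 := 2)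
      (by decide) rfl ⟨rfl, rfl, rfl, rfl, rfl, rfl, rfl⟩ (by decide +kernel) H
  · exact branch_angles p (v := 2) (p1 := 1) (p2 := 4) (p3 := 8) (p4 := 11) (p5 := 5) (p6 := 3)
      (by decide) rfl ⟨rfl, rfl, rfl, rfl, rfl, rfl, rfl⟩ (by decide +kernel) H
  · exact branch_angles p (v := 3) (p1 := 2) (p2 := 5) (p3 := 9) (p4 := 12) (p5 := 6) (p6 := 1)
      (by decide) rfl ⟨rfl, rfl, rfl, rfl, rfl, rfl, rfl⟩ (by decide +kernel) H

theorem p1_branch : (p1.D.half.toDouble K_complex).HasBranchSet (doubleBranch K B) := by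
  refine all_branch p1 (Or.inl ?_)
  obtain ⟨h1, h2⟩ := sqrt5_bounds
  have hZ : 6 < √(20 + 8 * √5) := by
    apply Real.lt_sqrt_of_sq_lt; linarith
  rw [Par.wb_sq, Par.prodA, Par.prodC, Par.prodD]
  simp only [p1]
  set s := √5
  set Z := √(20 + 8 * s)
  have hs : s ^ 2 = 5 := Real.sq_sqrt (by norm_num)
  refine ⟨?_, ?_, ?_⟩
  · nlinarith
  · nlinarith
  · nlinarith

theorem p2_branch : (p2.D.half.toDouble K_complex).HasBranchSet (doubleBranch K B) := by
  refine all_branch p2 (Or.inr ?_)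
  obtain ⟨h1, h2⟩ := sqrt5_bounds
  obtain ⟨h3, h4⟩ := Z2_bounds
  rw [Par.wb_sq, Par.prodA, Par.prodB, Par.prodC]
  simp only [p2]
  set s := √5
  set Z := √(20 - 8 * s)
  have hs : s ^ 2 = 5 := Real.sq_sqrt (by norm_num)
  refine ⟨?_, ?_, ?_⟩
  · nlinarith
  · nlinarith
  · nlinarith

end Pool.Agent.J6H86.BranchPack
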