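import Pool.Agent.J6H86.BranchPack.KSum
import Pool.Agent.J6H86.BranchPack.Pack4

set_option autoImplicit false

/-!
# Packings in the disc: angle sums
-/

namespace Pool.Agent.J6H86.BranchPack

open Real InnerProductGeometry

theorem inner_C (x y : ℂ) : inner ℝ x y = ((starRingEnd ℂ) x * y).re := by
  rw [Complex.inner, mul_comm]

variable {V : Type} [Fintype V] [DecidableEq V]

namespace DiscPacking

variable {F : Faces V} (P : DiscPacking F)

/-- The face angle at `v`. -/
noncomputable def ang (v a b : V) : ℝ := angle (P.center a - P.center v) (P.center b - P.center v)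

/-- The complex number of a face angle. -/
noncomputable def Q (v a b : V) : ℂ :=
  (starRingEnd ℂ) (P.center a - P.center v) * (P.center b - P.center v)

theorem ang_eq_arg {v a b : V} (h : (v, a, b) ∈ F) : P.ang v a b = (P.Q v a b).arg := by
  refine angle_eq_arg _ _ _ ?_ ?_ (P.oriented v a b h)
  · rw [inner_C]; rfl
  · unfold Q
    rw [norm_mul, Complex.norm_conj]

theorem ang_range {v a b : V} (h : (v, a, b) ∈ F) : 0 < P.ang v a b ∧ P.ang v a b < π := by
  rw [P.ang_eq_arg h]
  exact arg_pos_of (P.oriented v a b h)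

theorem ang_arccos (hF : IsOrientedComplex F) {v a b : V} (h : (v, a, b) ∈ F) :
    P.ang v a b = arccos (1 - 2 * (P.radius a * P.radius b) /
      ((P.radius v + P.radius a) * (P.radius v + P.radius b))) := by
  have h' := hF.rotate _ _ _ h
  have h'' := hF.rotate _ _ _ h'
  have e1 := P.tangent _ _ _ h
  have e2 := P.tangent _ _ _ h'
  have e3 := P.tangent _ _ _ h''
  have pv := P.radius_pos v
  have pa := P.radius_pos a
  have pb := P.radius_pos b
  have n1 : ‖P.center a - P.center v‖ = P.radius v + P.radius a := by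
    rw [← dist_eq_norm, dist_comm]; exact e1
  have n2 : ‖P.center b - P.center v‖ = P.radius v + P.radius b := by
    rw [← dist_eq_norm, add_comm]; exact e3
  have n3 : ‖(P.center a - P.center v) - (P.center b - P.center v)‖ = P.radius a + P.radius b := by
    rw [sub_sub_sub_cancel_right, ← dist_eq_norm]; exact e2
  have hin : inner ℝ (P.center a - P.center v) (P.center b - P.center v) =
      (P.radius v + P.radius a) * (P.radius v + P.radius b) - 2 * (P.radius a * P.radius b) := by
    have := norm_sub_sq_real (P.center a - P.center v) (P.center b - P.center v)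
    rw [n1, n2, n3] at this
    nlinarith
  unfold ang InnerProductGeometry.angle
  rw [n1, n2, hin]
  congr 1
  have : (P.radius v + P.radius a) * (P.radius v + P.radius b) ≠ 0 := by positivity
  field_simp

theorem cycle (v : V) (L : List V) (hL : L.Nodup)
    (hlink : link F v = cyclePairs L) (hS : ∀ a ∈ L, P.center a ≠ P.center v) :
    ∃ k : ℤ, P.angleSum v = 2 * π * k := by
  have hS' : ∀ a ∈ {a | a ∈ L}, P.center a - P.center v ≠ 0 := fun a ha => sub_ne_zero.2 (hS a ha)
  obtain ⟨k, hk⟩ := cycle_sum {a | a ∈ L} (fun a b => P.Q v a b)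
    (fun a ha b hb => mul_ne_zero ((map_ne_zero _).2 (hS' a ha)) (hS' b hb))
    (fun a _ b hb c _ => by
      refine ⟨Complex.normSq (P.center b - P.center v), Complex.normSq_pos.2 (hS' b hb), ?_⟩
      unfold Q
      rw [← Complex.mul_conj (P.center b - P.center v)]
      ring)
    (fun a _ => by
      unfold Q
      rw [mul_comm, Complex.mul_conj]
      exact Complex.arg_ofReal_of_nonneg (Complex.normSq_nonneg _)) L hL (fun a ha => ha)
  refine ⟨k, ?_⟩
  rw [← hk]
  unfold angleSum
  rw [hlink]
  refine Finset.sum_congr rfl fun q hq => ?_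
  rw [← hlink, mem_link] at hq
  exact P.ang_eq_arg hq

end DiscPacking

section

variable (P : DiscPacking K)

theorem center_ne {v a : Fin 13} (ha : a ∈ petals v) : P.center a ≠ P.center v := by
  obtain ⟨b, hb⟩ := petal_adj v a ha
  have pv := P.radius_pos v
  have pa := P.radius_pos a
  intro h
  rcases hb with hb | hb
  · have := P.tangent v a b (mem_K.2 hb)
    rw [h, dist_self] at this
    linarith
  · have h' := K_complex.rotate _ _ _ (K_complex.rotate _ _ _ (mem_K.2 hb))
    have := P.tangent a v b h'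
    rw [h, dist_self] at this
    linarith

theorem disc_mult {v : Fin 13} (hv : v.val < 4) : ∃ k : ℤ, P.angleSum v = 2 * π * k :=
  P.cycle v (petals v) (petals_nodup v) (link_int hv) (fun _ ha => center_ne P ha)

theorem disc_sum0 : P.angleSum 0 = 2 * π := by
  obtain ⟨k, hk⟩ := disc_mult P (v := 0) (by decide)
  have hs := sum_link_int (v := 0) (by decide) (fun q => P.ang 0 q.1 q.2)
  have e : (petals 0).zip ((petals 0).rotate 1) = [(1, 2), (2, 3), (3, 1)] := by decide +kernel
  rw [e] at hs
  simp only [List.map_cons, List.map_nil, List.sum_cons, List.sum_nil, add_zero] at hs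
  have hs' : P.angleSum 0 = P.ang 0 1 2 + (P.ang 0 2 3 + P.ang 0 3 1) := hs
  have r1 := P.ang_range (v := 0) (a := 1) (b := 2) (mem_K.2 (by decide +kernel))
  have r2 := P.ang_range (v := 0) (a := 2) (b := 3) (mem_K.2 (by decide +kernel))
  have r3 := P.ang_range (v := 0) (a := 3) (b := 1) (mem_K.2 (by decide +kernel))
  have := eq_of_range hk 1 (by rw [hs']; push_cast; linarith) (by rw [hs']; push_cast; linarith)
  rw [this]
  push_cast
  ring

/-- The sum at a branch vertex. -/
theorem disc_branch {v p1 p2 p3 p4 p5 p6 : Fin 13} (hv : v.val < 4)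
    (e : petals v = [0, p1, p2, p3, p4, p5, p6])
    (hf : isFace v 0 p1 = true ∧ isFace v p1 p2 = true ∧ isFace v p2 p3 = true ∧
      isFace v p3 p4 = true ∧ isFace v p4 p5 = true ∧ isFace v p5 p6 = true ∧
      isFace v p6 0 = true)
    (rb rc rs r0 : ℝ)
    (hr : P.radius v = rb ∧ P.radius p1 = rb ∧ P.radius p2 = rc ∧ P.radius p3 = rs ∧
      P.radius p4 = rs ∧ P.radius p5 = rc ∧ P.radius p6 = rb ∧ P.radius 0 = r0)
    (h1 : 2 * (r0 * rb) < (rb + r0) * (rb + rb))
    (h2 : 3 * ((rb + rc) * (rb + rs)) ≤ 4 * (rc * rs))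
    (h3 : 3 * ((rb + rs) * (rb + rs)) ≤ 4 * (rs * rs)) :
    P.angleSum v = 4 * π := by
  obtain ⟨w, w1, w2, w3, w4, w5, w6, w0⟩ := hr
  obtain ⟨f0, f1, f2, f3, f4, f5, f6⟩ := hf
  have q0 : 0 < r0 := by rw [← w0]; exact P.radius_pos _
  have qb : 0 < rb := by rw [← w]; exact P.radius_pos _
  have qc : 0 < rc := by rw [← w2]; exact P.radius_pos _
  have qs : 0 < rs := by rw [← w3]; exact P.radius_pos _
  have hb0 : 0 < rb + r0 := by linarith
  have hbb : 0 < rb + rb := by linarith
  have hbc : 0 < rb + rc := by linarith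
  have hbs : 0 < rb + rs := by linarith
  have b0 : P.ang v 0 p1 < π / 2 := by
    rw [P.ang_arccos K_complex (mem_K.2 f0), w, w0, w1]
    exact acute (frac_lt hb0 hbb h1)
  have b6 : P.ang v p6 0 < π / 2 := by
    rw [P.ang_arccos K_complex (mem_K.2 f6), w, w0, w6]
    exact acute (frac_lt hbb hb0 (by linarith))
  have b2 : 2 * π / 3 ≤ P.ang v p2 p3 := by
    rw [P.ang_arccos K_complex (mem_K.2 f2), w, w2, w3]
    exact obtuse3 (frac_le hbc hbs h2)
  have b3 : 2 * π / 3 ≤ P.ang v p3 p4 := by
    rw [P.ang_arccos K_complex (mem_K.2 f3), w, w3, w4]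
    exact obtuse3 (frac_le hbs hbs h3)
  have b4 : 2 * π / 3 ≤ P.ang v p4 p5 := by
    rw [P.ang_arccos K_complex (mem_K.2 f4), w, w4, w5]
    exact obtuse3 (frac_le hbs hbc (by linarith))
  have r0 := P.ang_range (mem_K.2 f0)
  have r1 := P.ang_range (mem_K.2 f1)
  have r2 := P.ang_range (mem_K.2 f2)
  have r3 := P.ang_range (mem_K.2 f3)
  have r4 := P.ang_range (mem_K.2 f4)
  have r5 := P.ang_range (mem_K.2 f5)
  have r6 := P.ang_range (mem_K.2 f6)
  obtain ⟨k, hk⟩ := disc_mult P hv
  have hs := sum_link_int hv (fun q => P.ang v q.1 q.2)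
  rw [e] at hs
  simp only [List.rotate_cons_succ, List.rotate_zero, List.zip_cons_cons, List.cons_append,
    List.nil_append, List.zip_nil_right, List.map_cons, List.map_nil, List.sum_cons, List.sum_nil,
    add_zero] at hs
  change P.angleSum v = _ at hs
  have := eq_of_range hk 2 (by rw [hs]; push_cast; linarith) (by rw [hs]; push_cast; linarith)
  rw [this]
  push_cast
  ring

end

end Pool.Agent.J6H86.BranchPack
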