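import Pool.Agent.J6H86.BranchPack.Angle
import Pool.Agent.J6H86.BranchPack.Comb

set_option autoImplicit false

/-!
# Packings of the double from mirror symmetric data
-/

namespace Pool.Agent.J6H86.BranchPack

open Real

section Comb

variable {V : Type} [Fintype V] [DecidableEq V] {F : Faces V}

theorem copy_val (e : Bool) (v : V) : (copy F e v).1 = (v, e && decide (IsInterior F v)) := rfl

theorem copy_inj (e : Bool) : Function.Injective (copy F e) := by
  intro a b h
  have := congrArg (fun p => p.1.1) h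
  exact this

theorem copy_bd {v : V} (h : ¬ IsInterior F v) (e e' : Bool) : copy F e v = copy F e' v := by
  apply Subtype.ext
  rw [copy_val, copy_val]
  simp [h]

theorem copy_eq {e e' : Bool} {a b : V} (h : copy F e a = copy F e' b) :
    a = b ∧ (e = e' ∨ ¬ IsInterior F a) := by
  have h1 := congrArg (fun p => p.1.1) h
  have h2 := congrArg (fun p => p.1.2) h
  simp only [copy_val] at h1 h2
  subst h1
  refine ⟨rfl, ?_⟩
  by_cases hi : IsInterior F a
  · left
    simpa [hi] using h2
  · right; exact hi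

theorem exists_copy (p : DVert F) : p = copy F p.1.2 p.1.1 := by
  apply Subtype.ext
  rw [copy_val]
  obtain ⟨⟨v, e⟩, h⟩ := p
  cases e
  · simp
  · have := h rfl
    simp only at this
    simp [this]

theorem mem_double {f : DVert F × DVert F × DVert F} : f ∈ double F ↔
    (∃ a b c, (a, b, c) ∈ F ∧ f = (copy F false a, copy F false b, copy F false c)) ∨
    (∃ a b c, (a, b, c) ∈ F ∧ f = (copy F true a, copy F true c, copy F true b)) := by
  unfold double
  simp only [Finset.mem_union, Finset.mem_image, Prod.exists]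
  constructor
  · rintro (⟨a, b, c, h, rfl⟩ | ⟨a, b, c, h, rfl⟩)
    · exact Or.inl ⟨a, b, c, h, rfl⟩
    · exact Or.inr ⟨a, b, c, h, rfl⟩
  · rintro (⟨a, b, c, h, rfl⟩ | ⟨a, b, c, h, rfl⟩)
    · exact Or.inl ⟨a, b, c, h, rfl⟩
    · exact Or.inr ⟨a, b, c, h, rfl⟩

theorem mem_double' (e : Bool) {a b c : V} (h : (a, b, c) ∈ F) :
    (copy F e a, (if e then copy F e c else copy F e b), (if e then copy F e b else copy F e c)) ∈
      double F := by
  cases e
  · exact mem_double.2 (Or.inl ⟨a, b, c, h, rfl⟩)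
  · exact mem_double.2 (Or.inr ⟨a, b, c, h, rfl⟩)

theorem link_double_false {v : V} (hv : IsInterior F v) :
    link (double F) (copy F false v) =
      (link F v).image (fun q => (copy F false q.1, copy F false q.2)) := by
  ext q
  rw [mem_link, mem_double, Finset.mem_image]
  constructor
  · rintro (⟨a, b, c, h, e⟩ | ⟨a, b, c, h, e⟩)
    · have e1 := copy_inj _ (congrArg Prod.fst e)
      refine ⟨(b, c), mem_link.2 (by rw [e1]; exact h), ?_⟩
      exact (congrArg Prod.snd e).symm
    · obtain ⟨e1, e2⟩ := copy_eq (congrArg Prod.fst e)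
      rcases e2 with e2 | e2
      · exact absurd e2 (by simp)
      · exact absurd hv e2
  · rintro ⟨⟨b, c⟩, h, rfl⟩
    exact Or.inl ⟨v, b, c, mem_link.1 h, rfl⟩

theorem link_double_true {v : V} (hv : IsInterior F v) :
    link (double F) (copy F true v) =
      (link F v).image (fun q => (copy F true q.2, copy F true q.1)) := by
  ext q
  rw [mem_link, mem_double, Finset.mem_image]
  constructor
  · rintro (⟨a, b, c, h, e⟩ | ⟨a, b, c, h, e⟩)
    · obtain ⟨e1, e2⟩ := copy_eq (congrArg Prod.fst e)
      rcases e2 with e2 | e2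
      · exact absurd e2 (by simp)
      · exact absurd hv e2
    · have e1 := copy_inj _ (congrArg Prod.fst e)
      refine ⟨(b, c), mem_link.2 (by rw [e1]; exact h), ?_⟩
      exact (congrArg Prod.snd e).symm
  · rintro ⟨⟨b, c⟩, h, rfl⟩
    exact Or.inr ⟨v, b, c, mem_link.1 h, rfl⟩

theorem link_double_bd {v : V} (hv : ¬ IsInterior F v) (e : Bool) :
    link (double F) (copy F e v) =
      (link F v).image (fun q => (copy F false q.1, copy F false q.2)) ∪
      (link F v).image (fun q => (copy F true q.2, copy F true q.1)) := by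
  ext q
  rw [mem_link, mem_double, Finset.mem_union, Finset.mem_image, Finset.mem_image]
  constructor
  · rintro (⟨a, b, c, h, e⟩ | ⟨a, b, c, h, e⟩)
    · have e1 := (copy_eq (congrArg Prod.fst e)).1
      exact Or.inl ⟨(b, c), mem_link.2 (by rw [e1]; exact h), (congrArg Prod.snd e).symm⟩
    · have e1 := (copy_eq (congrArg Prod.fst e)).1
      exact Or.inr ⟨(b, c), mem_link.2 (by rw [e1]; exact h), (congrArg Prod.snd e).symm⟩
  · rintro (⟨⟨b, c⟩, h, rfl⟩ | ⟨⟨b, c⟩, h, rfl⟩)
    · exact Or.inl ⟨v, b, c, mem_link.1 h, by rw [copy_bd hv e false]⟩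
    · exact Or.inr ⟨v, b, c, mem_link.1 h, by rw [copy_bd hv e true]⟩

theorem sum_int {v : V} (hv : IsInterior F v) (e : Bool) (Θ : DVert F × DVert F → ℝ)
    (θ : V → V → ℝ) (h : ∀ a b, Θ (copy F e a, copy F e b) = θ a b)
    (hs : ∀ a b, θ a b = θ b a) :
    ∑ q ∈ link (double F) (copy F e v), Θ q = ∑ q ∈ link F v, θ q.1 q.2 := by
  cases e
  · rw [link_double_false hv, Finset.sum_image]
    · exact Finset.sum_congr rfl fun q _ => h _ _
    · intro p _ q _ hpq
      exact Prod.ext (copy_inj _ (congrArg Prod.fst hpq)) (copy_inj _ (congrArg Prod.snd hpq))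
  · rw [link_double_true hv, Finset.sum_image]
    · exact Finset.sum_congr rfl fun q _ => by rw [h, hs]
    · intro p _ q _ hpq
      exact Prod.ext (copy_inj _ (congrArg Prod.snd hpq)) (copy_inj _ (congrArg Prod.fst hpq))

theorem sum_bd (hF : IsOrientedComplex F) {v : V} (hv : ¬ IsInterior F v) (e : Bool)
    (Θ : DVert F × DVert F → ℝ)
    (θ : V → V → ℝ) (h : ∀ e' a b, Θ (copy F e' a, copy F e' b) = θ a b)
    (hs : ∀ a b, θ a b = θ b a) :
    ∑ q ∈ link (double F) (copy F e v), Θ q = 2 * ∑ q ∈ link F v, θ q.1 q.2 := by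
  rw [link_double_bd hv, Finset.sum_union, Finset.sum_image, Finset.sum_image, two_mul]
  · congr 1
    · exact Finset.sum_congr rfl fun q _ => h _ _ _
    · exact Finset.sum_congr rfl fun q _ => by rw [h, hs]
  · intro p _ q _ hpq
    exact Prod.ext (copy_inj _ (congrArg Prod.snd hpq)) (copy_inj _ (congrArg Prod.fst hpq))
  · intro p _ q _ hpq
    exact Prod.ext (copy_inj _ (congrArg Prod.fst hpq)) (copy_inj _ (congrArg Prod.snd hpq))
  · rw [Finset.disjoint_left]
    intro q h1 h2
    rw [Finset.mem_image] at h1 h2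
    obtain ⟨⟨a, b⟩, hab, rfl⟩ := h1
    obtain ⟨⟨c, d⟩, hcd, e2⟩ := h2
    simp only [Prod.mk.injEq] at e2
    have e3 := (copy_eq e2.1).1
    have e4 := (copy_eq e2.2).1
    rw [mem_link] at hab hcd
    simp only at hab hcd
    rw [e3, e4] at hcd
    have h5 := hF.rotate _ _ _ hcd
    have h6 := hF.rotate _ _ _ h5
    -- (v, b, a) and (v, a, b)
    exact hF.simplicial _ _ _ (hF.rotate _ _ _ hab) h5 |>.elim

end Comb

end Pool.Agent.J6H86.BranchPack
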