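import Pool.Agent.J6H86.BranchPack.Double

set_option autoImplicit false

/-!
# The double of the disc with thirteen vertices is a triangulated sphere
-/

namespace Pool.Agent.J6H86.BranchPack

/-- The pairs that are vertices of the double. -/
def valid (x : Fin 13 × Bool) : Bool := !x.2 || decide (x.1.val < 4)

/-- The vertex of the double for a pair. -/
def up (x : Fin 13 × Bool) : DVert K := copy K x.2 x.1

theorem dec_int (v : Fin 13) : decide (IsInterior K v) = decide (v.val < 4) :=
  decide_eq_decide.2 interior_iff

theorem up_val {x : Fin 13 × Bool} (h : valid x = true) : (up x).1 = x := by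
  unfold up
  rw [copy_val, dec_int]
  obtain ⟨v, e⟩ := x
  unfold valid at h
  cases e
  · simp
  · simp only [Bool.not_true, Bool.false_or] at h
    simp only [h, Bool.and_self]

theorem val_valid (w : DVert K) : valid w.1 = true := by
  obtain ⟨⟨v, e⟩, h⟩ := w
  unfold valid
  cases e
  · simp
  · have := interior_iff.1 (h rfl)
    simpa using this

theorem up_surj (w : DVert K) : up w.1 = w := (exists_copy w).symm

/-- Faces of the double. -/
def isFaceD (x y z : Fin 13 × Bool) : Bool :=
  (isFace x.1 y.1 z.1 && (!x.2 && (!y.2 && !z.2))) ||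
  (isFace x.1 z.1 y.1 && ((x.2 == decide (x.1.val < 4)) && ((y.2 == decide (y.1.val < 4)) &&
    (z.2 == decide (z.1.val < 4)))))

theorem eq_copy_false {x : DVert K} (h : x.1.2 = false) : x = copy K false x.1.1 := by
  conv_lhs => rw [exists_copy x, h]

theorem eq_copy_true {x : DVert K} (h : x.1.2 = decide (x.1.1.val < 4)) :
    x = copy K true x.1.1 := by
  apply Subtype.ext
  rw [copy_val, dec_int, Bool.true_and, ← h]

theorem mem_doubleK {x y z : DVert K} :
    (x, y, z) ∈ double K ↔ isFaceD x.1 y.1 z.1 = true := by
  rw [mem_double]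
  unfold isFaceD
  simp only [Bool.or_eq_true, Bool.and_eq_true, Bool.not_eq_true', beq_iff_eq]
  constructor
  · rintro (⟨a, b, c, h, e⟩ | ⟨a, b, c, h, e⟩)
    · left
      simp only [Prod.mk.injEq] at e
      obtain ⟨rfl, rfl, rfl⟩ := e
      refine ⟨mem_K.1 h, ?_, ?_, ?_⟩ <;> rw [copy_val, Bool.false_and]
    · right
      simp only [Prod.mk.injEq] at e
      obtain ⟨rfl, rfl, rfl⟩ := e
      refine ⟨mem_K.1 h, ?_, ?_, ?_⟩ <;> rw [copy_val, Bool.true_and, dec_int]
  · rintro (⟨h, h1, h2, h3⟩ | ⟨h, h1, h2, h3⟩)
    · left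
      refine ⟨x.1.1, y.1.1, z.1.1, mem_K.2 h, ?_⟩
      rw [← eq_copy_false h1, ← eq_copy_false h2, ← eq_copy_false h3]
    · right
      refine ⟨x.1.1, z.1.1, y.1.1, mem_K.2 h, ?_⟩
      rw [← eq_copy_true h1, ← eq_copy_true h2, ← eq_copy_true h3]

/-- Neighbours of a vertex of the double in cyclic order. -/
def LD (x : Fin 13 × Bool) : List (Fin 13 × Bool) :=
  if x.1.val < 4 then
    if x.2 then (petals x.1).reverse.map (fun a => (a, decide (a.val < 4)))
    else (petals x.1).map (fun a => (a, false))
  else (petals x.1).map (fun a => (a, false)) ++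
    ((petals x.1).filter (fun a => decide (a.val < 4))).reverse.map (fun a => (a, true))

theorem LD_nodup : ∀ x : Fin 13 × Bool, (LD x).Nodup := by decide +kernel

theorem LD_ne : ∀ x : Fin 13 × Bool, LD x ≠ [] := by decide +kernel

theorem LD_valid : ∀ x : Fin 13 × Bool, ∀ y ∈ LD x, valid y = true := by decide +kernel

/-- The check for the links. -/
def linkOK (x y z : Fin 13 × Bool) : Bool :=
  !(valid x && (valid y && valid z)) ||
    (isFaceD x y z == decide ((y, z) ∈ (LD x).zip ((LD x).rotate 1)))

theorem linkOK_all : ∀ x y z : Fin 13 × Bool, linkOK x y z = true := by decide +kernel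

theorem LD_link {x y z : Fin 13 × Bool} (hx : valid x = true) (hy : valid y = true)
    (hz : valid z = true) :
    isFaceD x y z = true ↔ (y, z) ∈ (LD x).zip ((LD x).rotate 1) := by
  have h := linkOK_all x y z
  unfold linkOK at h
  rw [hx, hy, hz] at h
  simp only [Bool.and_self, Bool.not_true, Bool.false_or, beq_iff_eq] at h
  rw [h, decide_eq_true_iff]

theorem simpD : ∀ x y z : Fin 13 × Bool, isFaceD x y z = true → isFaceD y x z ≠ true := by
  decide +kernel

theorem rotD : ∀ x y z : Fin 13 × Bool, isFaceD x y z = true → isFaceD y z x = true := by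
  decide +kernel

theorem neD : ∀ x y z : Fin 13 × Bool, isFaceD x y z = true → x ≠ y := by
  decide +kernel

theorem adj_double {a b : Fin 13} (e : Bool) (h : Adj K a b) :
    Adj (double K) (copy K e a) (copy K e b) := by
  obtain ⟨c, h | h⟩ := h
  · cases e
    · exact ⟨copy K false c, Or.inl (mem_double.2 (Or.inl ⟨a, b, c, h, rfl⟩))⟩
    · exact ⟨copy K true c, Or.inr (mem_double.2 (Or.inr ⟨b, c, a, K_complex.rotate _ _ _ h, rfl⟩))⟩
  · cases e
    · exact ⟨copy K false c, Or.inr (mem_double.2 (Or.inl ⟨b, a, c, h, rfl⟩))⟩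
    · exact ⟨copy K true c, Or.inl (mem_double.2 (Or.inr ⟨a, c, b, K_complex.rotate _ _ _ h, rfl⟩))⟩

theorem reach4 (w : DVert K) : Relation.ReflTransGen (Adj (double K)) w (copy K false 4) := by
  have h : ∀ a b : Fin 13, Relation.ReflTransGen (Adj K) a b →
      Relation.ReflTransGen (Adj (double K)) (copy K w.1.2 a) (copy K w.1.2 b) := by
    intro a b hab
    induction hab with
    | refl => exact Relation.ReflTransGen.refl
    | tail _ h2 ih => exact ih.tail (adj_double _ h2)
  have h4 := h w.1.1 4 (K_disc.connected _ _)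
  rw [← exists_copy w] at h4
  rw [copy_bd (v := 4) (by rw [interior_iff]; decide) false w.1.2]
  exact h4

theorem card_DVert : Fintype.card (DVert K) = 17 := by
  have e : DVert K ≃ {x : Fin 13 × Bool // valid x = true} :=
    { toFun := fun w => ⟨w.1, val_valid w⟩
      invFun := fun x => up x.1
      left_inv := fun w => up_surj w
      right_inv := fun x => Subtype.ext (up_val x.2) }
  rw [Fintype.card_congr e, Fintype.card_subtype]
  decide +kernel

/-- Edges of the double. -/
def adjD (x y : Fin 13 × Bool) : Bool :=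
  (valid x && valid y) && (LD x).contains y

theorem adjD_iff {x y : DVert K} : Adj (double K) x y ↔ adjD x.1 y.1 = true := by
  unfold adjD Adj
  rw [val_valid, val_valid, Bool.and_self, Bool.true_and, List.contains_iff_mem]
  constructor
  · rintro ⟨c, h | h⟩
    · rw [mem_doubleK, LD_link (val_valid _) (val_valid _) (val_valid _)] at h
      exact (List.of_mem_zip h).1
    · rw [mem_doubleK] at h
      have h' := rotD _ _ _ h
      rw [LD_link (val_valid _) (val_valid _) (val_valid _)] at h'
      have := (List.of_mem_zip h').2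
      exact List.mem_rotate.1 this
  · intro h
    have h1 : ∃ z, (y.1, z) ∈ (LD x.1).zip ((LD x.1).rotate 1) := by
      rw [List.mem_iff_getElem] at h
      obtain ⟨i, hi, e⟩ := h
      refine ⟨((LD x.1).rotate 1)[i]'(by rw [List.length_rotate]; exact hi), ?_⟩
      rw [List.mem_iff_getElem]
      refine ⟨i, by rw [List.length_zip, List.length_rotate]; simpa using hi, ?_⟩
      rw [List.getElem_zip, e]
    obtain ⟨z, hz⟩ := h1
    have hv : valid z = true := LD_valid x.1 z (List.mem_rotate.1 (List.of_mem_zip hz).2)
    refine ⟨up z, Or.inl ?_⟩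
    rw [mem_doubleK, up_val hv]
    exact (LD_link (val_valid _) (val_valid _) hv).2 hz

theorem card_adjD : (Finset.univ.filter fun p : (Fin 13 × Bool) × (Fin 13 × Bool) =>
    adjD p.1 p.2 = true).card = 90 := by decide +kernel

theorem card_transfer {α β : Type} [Fintype α] [Fintype β] (f : α → β)
    (hf : Function.Injective f) (P : α → Prop) (Q : β → Prop) [DecidablePred P] [DecidablePred Q]
    (h : ∀ a, P a ↔ Q (f a)) (hs : ∀ b, Q b → ∃ a, f a = b) :
    (Finset.univ.filter P).card = (Finset.univ.filter Q).card := by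
  classical
  rw [← Finset.card_image_of_injective _ hf]
  congr 1
  ext b
  simp only [Finset.mem_image, Finset.mem_filter, Finset.mem_univ, true_and]
  constructor
  · rintro ⟨a, ha, rfl⟩
    exact (h a).1 ha
  · intro hb
    obtain ⟨a, rfl⟩ := hs b hb
    exact ⟨a, (h a).2 hb, rfl⟩

theorem card_adj_double : (Finset.univ.filter fun p : DVert K × DVert K =>
    Adj (double K) p.1 p.2).card = 90 := by
  refine Eq.trans (card_transfer (fun w : DVert K × DVert K => (w.1.1, w.2.1)) ?_
    (fun p : DVert K × DVert K => Adj (double K) p.1 p.2)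
    (fun p : (Fin 13 × Bool) × (Fin 13 × Bool) => adjD p.1 p.2 = true) ?_ ?_) card_adjD
  · intro w w' h
    simp only [Prod.mk.injEq] at h
    exact Prod.ext (Subtype.ext h.1) (Subtype.ext h.2)
  · intro w
    exact adjD_iff
  · intro q h2
    simp only [adjD, Bool.and_eq_true] at h2
    obtain ⟨⟨v1, v2⟩, _⟩ := h2
    exact ⟨(up q.1, up q.2), by simp only [up_val v1, up_val v2]⟩

theorem card_K : K.card = 45 := by decide +kernel

theorem card_double : (double K).card = 90 := by
  unfold double
  rw [Finset.card_union_of_disjoint, Finset.card_image_of_injective, Finset.card_image_of_injective,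
    card_K]
  · intro f g h
    simp only [Prod.mk.injEq] at h
    exact Prod.ext (copy_inj _ h.1) (Prod.ext (copy_inj _ h.2.2) (copy_inj _ h.2.1))
  · intro f g h
    simp only [Prod.mk.injEq] at h
    exact Prod.ext (copy_inj _ h.1) (Prod.ext (copy_inj _ h.2.1) (copy_inj _ h.2.2))
  · rw [Finset.disjoint_left]
    intro q h1 h2
    rw [Finset.mem_image] at h1 h2
    obtain ⟨⟨a, b, c⟩, h1, rfl⟩ := h1
    obtain ⟨⟨a', b', c'⟩, h2, e⟩ := h2
    simp only [Prod.mk.injEq] at e
    obtain ⟨e1, e2, e3⟩ := e
    have e1 := (copy_eq e1).1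
    have e2 := (copy_eq e2).1
    have e3 := (copy_eq e3).1
    subst e1 e2 e3
    exact K_complex.simplicial _ _ _ (K_complex.rotate _ _ _ (K_complex.rotate _ _ _ h1)) h2

theorem double_complex : IsOrientedComplex (double K) where
  rotate a b c h := by
    rw [mem_doubleK] at h ⊢
    exact rotD _ _ _ h
  ne a b c h := by
    rw [mem_doubleK] at h
    exact fun e => neD _ _ _ h (congrArg Subtype.val e)
  simplicial a b c h := by
    rw [mem_doubleK] at h ⊢
    exact simpD _ _ _ h

theorem double_link (w : DVert K) : LinkIsCycle (double K) w := by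
  have hmap : ((LD w.1).map up).map Subtype.val = LD w.1 := by
    rw [List.map_map]
    conv_rhs => rw [← List.map_id (LD w.1)]
    exact List.map_congr_left fun y hy => up_val (LD_valid _ _ hy)
  refine ⟨(LD w.1).map up, ?_, ?_, ?_⟩
  · refine List.Nodup.of_map Subtype.val ?_
    rw [hmap]
    exact LD_nodup _
  · intro h
    rw [List.map_eq_nil_iff] at h
    exact LD_ne _ h
  · ext ⟨y, z⟩
    rw [mem_link, mem_doubleK, LD_link (val_valid _) (val_valid _) (val_valid _), cyclePairs,
      List.mem_toFinset]
    have e : ((LD w.1).map up).zip (((LD w.1).map up).rotate 1) =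
        ((LD w.1).zip ((LD w.1).rotate 1)).map (Prod.map up up) := by
      rw [← List.map_rotate, List.zip_map]
    rw [e, List.mem_map]
    constructor
    · intro h
      exact ⟨(y.1, z.1), h, by rw [Prod.map_apply, up_surj, up_surj]⟩
    · rintro ⟨⟨y', z'⟩, h, e⟩
      rw [Prod.map_apply, Prod.mk.injEq] at e
      have hy := LD_valid w.1 y' (List.of_mem_zip h).1
      have hz := LD_valid w.1 z' (List.mem_rotate.1 (List.of_mem_zip h).2)
      rw [← e.1, ← e.2, up_val hy, up_val hz]
      exact h

theorem double_sphere : IsSphere (double K) where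
  complex := double_complex
  links := double_link
  connected a b := (reach4 a).trans (reach_symm (fun _ _ h => adj_symm h) (reach4 b))
  euler := by
    unfold euler
    rw [card_DVert, card_adj_double, card_double]
    norm_num

end Pool.Agent.J6H86.BranchPack
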