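import Pool.Agent.J6H86.BranchPack.Comb

set_option autoImplicit false

/-!
# The edge path condition
-/

namespace Pool.Agent.J6H86.BranchPack

/-- Index of the face on the left of the directed edge `(a, b)`; `15` if there is none. -/
def leftIdx (a b : Fin 13) : ℕ :=
  base.findIdx fun f => decide ((a, b) = (f.1, f.2.1) ∨ (a, b) = (f.2.1, f.2.2) ∨ (a, b) = (f.2.2, f.1))

/-- The directed edges with a face on the left. -/
def dE : List (Fin 13 × Fin 13) :=
  [(0, 1), (0, 2), (0, 3), (1, 0), (1, 2), (1, 3), (1, 4), (1, 6), (1, 7), (1, 10), (2, 0), (2, 1),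
   (2, 3), (2, 4), (2, 5), (2, 8), (2, 11), (3, 0), (3, 1), (3, 2), (3, 5), (3, 6), (3, 9), (3, 12),
   (4, 1), (4, 2), (4, 8), (5, 2), (5, 3), (5, 9), (6, 1), (6, 3), (6, 7), (7, 1), (7, 10), (8, 2),
   (8, 11), (9, 3), (9, 12), (10, 1), (10, 4), (11, 2), (11, 5), (12, 3), (12, 6)]

/-- The indices of the faces on both sides of the directed edges. -/
def E : List (ℕ × ℕ) :=
  [(0, 10), (5, 0), (10, 5), (10, 0), (0, 1), (11, 10), (1, 4), (2, 11), (3, 2), (4, 3), (0, 5),
   (1, 0), (5, 6), (7, 1), (6, 9), (8, 7), (9, 8), (5, 10), (10, 11), (6, 5), (12, 6), (11, 14),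
   (13, 12), (14, 13), (4, 1), (1, 7), (7, 15), (9, 6), (6, 12), (12, 15), (11, 2), (14, 11),
   (2, 15), (2, 3), (3, 15), (7, 8), (8, 15), (12, 13), (13, 15), (3, 4), (4, 15), (8, 9), (9, 15),
   (13, 14), (14, 15)]

theorem E_eq : E = dE.map fun p => (leftIdx p.1 p.2, leftIdx p.2 p.1) := by decide +kernel

theorem dE_nodup : dE.Nodup := by decide +kernel

theorem mem_dE : ∀ a b : Fin 13, leftIdx a b < 15 → (a, b) ∈ dE := by decide +kernel

/-- `1` if `p` holds and `q` does not. -/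
def tm (p q : Bool) : ℕ := (p && !q).toNat

theorem tm_ge (p q : Bool) : p.toNat ≤ tm p q + q.toNat := by cases p <;> cases q <;> decide

/-- Number of boundary edges of the set of faces with indicator `y`. -/
def bdCount (y : ℕ → Bool) : ℕ := (E.map fun p => tm (y p.1) (y p.2)).sum

theorem bdCount_eq (y : ℕ → Bool) : bdCount y =
    tm (y 0) (y 10) + tm (y 5) (y 0) + tm (y 10) (y 5) + tm (y 10) (y 0) + tm (y 0) (y 1) +
    tm (y 11) (y 10) + tm (y 1) (y 4) + tm (y 2) (y 11) + tm (y 3) (y 2) + tm (y 4) (y 3) +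
    tm (y 0) (y 5) + tm (y 1) (y 0) + tm (y 5) (y 6) + tm (y 7) (y 1) + tm (y 6) (y 9) +
    tm (y 8) (y 7) + tm (y 9) (y 8) + tm (y 5) (y 10) + tm (y 10) (y 11) + tm (y 6) (y 5) +
    tm (y 12) (y 6) + tm (y 11) (y 14) + tm (y 13) (y 12) + tm (y 14) (y 13) + tm (y 4) (y 1) +
    tm (y 1) (y 7) + tm (y 7) (y 15) + tm (y 9) (y 6) + tm (y 6) (y 12) + tm (y 12) (y 15) +
    tm (y 11) (y 2) + tm (y 14) (y 11) + tm (y 2) (y 15) + tm (y 2) (y 3) + tm (y 3) (y 15) +
    tm (y 7) (y 8) + tm (y 8) (y 15) + tm (y 12) (y 13) + tm (y 13) (y 15) + tm (y 3) (y 4) +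
    tm (y 4) (y 15) + tm (y 8) (y 9) + tm (y 9) (y 15) + tm (y 13) (y 14) + tm (y 14) (y 15) := by
  simp only [bdCount, E, List.map_cons, List.map_nil, List.sum_cons, List.sum_nil, add_assoc,
    add_zero]

/-- A chain of three faces leading out of the disc. -/
theorem path2 (y : ℕ → Bool) (a b : ℕ) (ha : y a = true) (h15 : y 15 = false) :
    1 ≤ tm (y a) (y b) + tm (y b) (y 15) := by
  have h1 := tm_ge (y a) (y b)
  have h2 := tm_ge (y b) (y 15)
  rw [ha, h15] at *
  simp only [Bool.toNat_true, Bool.toNat_false] at h1 h2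
  omega

theorem path3 (y : ℕ → Bool) (a b c : ℕ) (ha : y a = true) (h15 : y 15 = false) :
    1 ≤ tm (y a) (y b) + tm (y b) (y c) + tm (y c) (y 15) := by
  have h1 := tm_ge (y a) (y b)
  have h2 := tm_ge (y b) (y c)
  have h3 := tm_ge (y c) (y 15)
  rw [ha, h15] at *
  simp only [Bool.toNat_true, Bool.toNat_false] at h1 h3
  omega

theorem path4 (y : ℕ → Bool) (a b c d : ℕ) (ha : y a = true) (h15 : y 15 = false) :
    1 ≤ tm (y a) (y b) + tm (y b) (y c) + tm (y c) (y d) + tm (y d) (y 15) := by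
  have h1 := tm_ge (y a) (y b)
  have h2 := tm_ge (y b) (y c)
  have h3 := tm_ge (y c) (y d)
  have h4 := tm_ge (y d) (y 15)
  rw [ha, h15] at *
  simp only [Bool.toNat_true, Bool.toNat_false] at h1 h4
  omega

theorem path5 (y : ℕ → Bool) (a b c d e : ℕ) (ha : y a = true) (h15 : y 15 = false) :
    1 ≤ tm (y a) (y b) + tm (y b) (y c) + tm (y c) (y d) + tm (y d) (y e) + tm (y e) (y 15) := by
  have h1 := tm_ge (y a) (y b)
  have h2 := tm_ge (y b) (y c)
  have h3 := tm_ge (y c) (y d)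
  have h4 := tm_ge (y d) (y e)
  have h5 := tm_ge (y e) (y 15)
  rw [ha, h15] at *
  simp only [Bool.toNat_true, Bool.toNat_false] at h1 h5
  omega

theorem out1 (y : ℕ → Bool) (a : ℕ) (ha : y a = true) (h15 : y 15 = false) :
    1 ≤ tm (y a) (y 15) := by
  rw [ha, h15]; decide

/-- Three edge-disjoint ways out of every face. -/
theorem three_le (y : ℕ → Bool) (h15 : y 15 = false) (j : ℕ) (hj : j < 15) (hy : y j = true) :
    3 ≤ bdCount y := by
  rw [bdCount_eq]
  interval_cases j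
  · have := path3 y 0 1 4 hy h15
    have := path4 y 0 5 6 9 hy h15
    have := path4 y 0 10 11 14 hy h15
    omega
  · have := path2 y 1 4 hy h15
    have := path2 y 1 7 hy h15
    have := path5 y 1 0 5 6 9 hy h15
    omega
  · have := out1 y 2 hy h15
    have := path2 y 2 3 hy h15
    have := path3 y 2 11 14 hy h15
    omega
  · have := out1 y 3 hy h15
    have := path2 y 3 2 hy h15
    have := path2 y 3 4 hy h15
    omega
  · have := out1 y 4 hy h15
    have := path2 y 4 3 hy h15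
    have := path3 y 4 1 7 hy h15
    omega
  · have := path3 y 5 6 9 hy h15
    have := path4 y 5 10 11 14 hy h15
    have := path4 y 5 0 1 4 hy h15
    omega
  · have := path2 y 6 9 hy h15
    have := path2 y 6 12 hy h15
    have := path5 y 6 5 10 11 14 hy h15
    omega
  · have := out1 y 7 hy h15
    have := path2 y 7 8 hy h15
    have := path3 y 7 1 4 hy h15
    omega
  · have := out1 y 8 hy h15
    have := path2 y 8 7 hy h15
    have := path2 y 8 9 hy h15
    omega
  · have := out1 y 9 hy h15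
    have := path2 y 9 8 hy h15
    have := path3 y 9 6 12 hy h15
    omega
  · have := path3 y 10 11 14 hy h15
    have := path4 y 10 0 1 4 hy h15
    have := path4 y 10 5 6 9 hy h15
    omega
  · have := path2 y 11 14 hy h15
    have := path2 y 11 2 hy h15
    have := path5 y 11 10 0 1 4 hy h15
    omega
  · have := out1 y 12 hy h15
    have := path2 y 12 13 hy h15
    have := path3 y 12 6 9 hy h15
    omega
  · have := out1 y 13 hy h15
    have := path2 y 13 12 hy h15
    have := path2 y 13 14 hy h15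
    omega
  · have := out1 y 14 hy h15
    have := path2 y 14 13 hy h15
    have := path3 y 14 11 2 hy h15
    omega

/-- The faces around the vertices `1`, `2`, `3`. -/
def starOf : ℕ → List ℕ
  | 0 => [10, 11, 2, 3, 4, 1, 0]
  | 1 => [0, 1, 7, 8, 9, 6, 5]
  | _ => [5, 6, 12, 13, 14, 11, 10]

/-- `1` if all faces in the list are in the set. -/
def allBits (y : ℕ → Bool) (l : List ℕ) : ℕ := if l.all y then 1 else 0

theorem one_enclosed0 (y : ℕ → Bool) (h15 : y 15 = false) (h : (starOf 0).all y = true) :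
    y 2 = true ∧ y 3 = true ∧ y 4 = true ∧ y 11 = true ∧ y 1 = true ∧ y 10 = true ∧ y 0 = true ∧
    3 ≤ tm (y 2) (y 15) + tm (y 3) (y 15) + tm (y 4) (y 15) ∧
    1 ≤ tm (y 1) (y 7) + tm (y 7) (y 15) ∧ 1 ≤ tm (y 11) (y 14) + tm (y 14) (y 15) := by
  simp only [starOf, List.all_cons, List.all_nil, Bool.and_true, Bool.and_eq_true] at h
  obtain ⟨h10, h11, h2, h3, h4, h1, h0⟩ := h
  refine ⟨h2, h3, h4, h11, h1, h10, h0, ?_, path2 y 1 7 h1 h15, path2 y 11 14 h11 h15⟩
  have := out1 y 2 h2 h15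
  have := out1 y 3 h3 h15
  have := out1 y 4 h4 h15
  omega

theorem one_enclosed1 (y : ℕ → Bool) (h15 : y 15 = false) (h : (starOf 1).all y = true) :
    y 7 = true ∧ y 8 = true ∧ y 9 = true ∧ y 1 = true ∧ y 6 = true ∧ y 0 = true ∧ y 5 = true ∧
    3 ≤ tm (y 7) (y 15) + tm (y 8) (y 15) + tm (y 9) (y 15) ∧
    1 ≤ tm (y 6) (y 12) + tm (y 12) (y 15) ∧ 1 ≤ tm (y 1) (y 4) + tm (y 4) (y 15) := by
  simp only [starOf, List.all_cons, List.all_nil, Bool.and_true, Bool.and_eq_true] at h
  obtain ⟨h0, h1, h7, h8, h9, h6, h5⟩ := h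
  refine ⟨h7, h8, h9, h1, h6, h0, h5, ?_, path2 y 6 12 h6 h15, path2 y 1 4 h1 h15⟩
  have := out1 y 7 h7 h15
  have := out1 y 8 h8 h15
  have := out1 y 9 h9 h15
  omega

theorem one_enclosed2 (y : ℕ → Bool) (h15 : y 15 = false) (h : (starOf 2).all y = true) :
    y 12 = true ∧ y 13 = true ∧ y 14 = true ∧ y 6 = true ∧ y 11 = true ∧ y 5 = true ∧ y 10 = true ∧
    3 ≤ tm (y 12) (y 15) + tm (y 13) (y 15) + tm (y 14) (y 15) ∧
    1 ≤ tm (y 11) (y 2) + tm (y 2) (y 15) ∧ 1 ≤ tm (y 6) (y 9) + tm (y 9) (y 15) := by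
  simp only [starOf, List.all_cons, List.all_nil, Bool.and_true, Bool.and_eq_true] at h
  obtain ⟨h5, h6, h12, h13, h14, h11, h10⟩ := h
  refine ⟨h12, h13, h14, h6, h11, h5, h10, ?_, path2 y 11 2 h11 h15, path2 y 6 9 h6 h15⟩
  have := out1 y 12 h12 h15
  have := out1 y 13 h13 h15
  have := out1 y 14 h14 h15
  omega

theorem count_bound (y : ℕ → Bool) (h15 : y 15 = false) (hne : ∃ j < 15, y j = true) :
    2 * (allBits y (starOf 0) + allBits y (starOf 1) + allBits y (starOf 2)) + 3 ≤ bdCount y := by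
  obtain ⟨j, hj, hy⟩ := hne
  have h3 := three_le y h15 j hj hy
  unfold allBits
  by_cases a0 : (starOf 0).all y = true <;> by_cases a1 : (starOf 1).all y = true <;>
    by_cases a2 : (starOf 2).all y = true
  · have e0 := one_enclosed0 y h15 a0
    have e1 := one_enclosed1 y h15 a1
    have e2 := one_enclosed2 y h15 a2
    rw [if_pos a0, if_pos a1, if_pos a2, bdCount_eq]
    omega
  · have e0 := one_enclosed0 y h15 a0
    have e1 := one_enclosed1 y h15 a1
    rw [if_pos a0, if_pos a1, if_neg a2, bdCount_eq]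
    omega
  · have e0 := one_enclosed0 y h15 a0
    have e2 := one_enclosed2 y h15 a2
    rw [if_pos a0, if_neg a1, if_pos a2, bdCount_eq]
    omega
  · have e0 := one_enclosed0 y h15 a0
    rw [if_pos a0, if_neg a1, if_neg a2, bdCount_eq]
    omega
  · have e1 := one_enclosed1 y h15 a1
    have e2 := one_enclosed2 y h15 a2
    rw [if_neg a0, if_pos a1, if_pos a2, bdCount_eq]
    omega
  · have e1 := one_enclosed1 y h15 a1
    rw [if_neg a0, if_pos a1, if_neg a2, bdCount_eq]
    omega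
  · have e2 := one_enclosed2 y h15 a2
    rw [if_neg a0, if_neg a1, if_pos a2, bdCount_eq]
    omega
  · rw [if_neg a0, if_neg a1, if_neg a2]
    omega

end Pool.Agent.J6H86.BranchPack
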