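import Pool.Agent.J6H86.BranchPack.Edge

set_option autoImplicit false

/-!
# The edge path condition, conclusion
-/

namespace Pool.Agent.J6H86.BranchPack

theorem left_spec : ∀ a b c : Fin 13, isFace a b c = true → ∃ h : leftIdx a b < base.length,
    (base[leftIdx a b] = (a, b, c) ∨ base[leftIdx a b] = (b, c, a) ∨
      base[leftIdx a b] = (c, a, b)) := by decide +kernel

theorem left_spec' : ∀ a b : Fin 13, ∀ h : leftIdx a b < base.length, ∃ c,
    (base[leftIdx a b] = (a, b, c) ∨ base[leftIdx a b] = (b, c, a) ∨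
      base[leftIdx a b] = (c, a, b)) := by decide +kernel

theorem base_len : base.length = 15 := rfl

/-- The mask of a set of faces. -/
def maskOf (T : Faces (Fin 13)) : ℕ :=
  Nat.ofBits (n := 15) fun j => decide (base[j.val]'(by rw [base_len]; exact j.2) ∈ T)

theorem maskOf_lt (T : Faces (Fin 13)) : maskOf T < 2 ^ 15 := Nat.ofBits_lt_two_pow _

theorem testBit_maskOf (T : Faces (Fin 13)) (j : ℕ) (hj : j < base.length) :
    (maskOf T).testBit j = decide (base[j] ∈ T) := by
  unfold maskOf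
  rw [Nat.testBit_ofBits_lt _ _ (by rw [base_len] at hj; exact hj)]

theorem testBit_maskOf_ge (T : Faces (Fin 13)) (j : ℕ) (hj : ¬ j < base.length) :
    (maskOf T).testBit j = false := by
  unfold maskOf
  rw [Nat.testBit_ofBits_ge _ _ (by rw [base_len] at hj; omega)]

theorem left_mem {T : Faces (Fin 13)} (hT : T ⊆ K)
    (hr : ∀ a b c, (a, b, c) ∈ T → (b, c, a) ∈ T) (a b : Fin 13) :
    (∃ c, (a, b, c) ∈ T) ↔ (maskOf T).testBit (leftIdx a b) = true := by
  constructor
  · rintro ⟨c, hc⟩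
    obtain ⟨h, h'⟩ := left_spec a b c (mem_K.1 (hT hc))
    rw [testBit_maskOf T _ h, decide_eq_true_eq]
    rcases h' with h' | h' | h' <;> rw [h']
    · exact hc
    · exact hr _ _ _ hc
    · exact hr _ _ _ (hr _ _ _ hc)
  · intro h
    by_cases hlt : leftIdx a b < base.length
    · obtain ⟨c, hc⟩ := left_spec' a b hlt
      rw [testBit_maskOf T _ hlt, decide_eq_true_eq] at h
      refine ⟨c, ?_⟩
      rcases hc with h' | h' | h' <;> rw [h'] at h
      · exact h
      · exact hr _ _ _ (hr _ _ _ h)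
      · exact hr _ _ _ h
    · rw [testBit_maskOf_ge T _ hlt] at h
      exact absurd h (by simp)

theorem length_filter_eq {α : Type} (p : α → Bool) (l : List α) :
    (l.filter p).length = (l.map fun a => (p a).toNat).sum := by
  induction l with
  | nil => rfl
  | cons a l ih =>
    rw [List.filter_cons, List.map_cons, List.sum_cons, ← ih]
    cases p a <;> simp [Nat.add_comm]

theorem bd_card {T : Faces (Fin 13)} (hT : T ⊆ K)
    (hr : ∀ a b c, (a, b, c) ∈ T → (b, c, a) ∈ T) (S : Finset (Fin 13 × Fin 13))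
    (hS : ∀ a b, (a, b) ∈ S ↔ (∃ c, (a, b, c) ∈ T) ∧ ¬ ∃ c, (b, a, c) ∈ T) :
    S.card = bdCount (fun j => (maskOf T).testBit j) := by
  have h1 : S = (dE.filter fun p => (maskOf T).testBit (leftIdx p.1 p.2) &&
      !(maskOf T).testBit (leftIdx p.2 p.1)).toFinset := by
    ext ⟨a, b⟩
    rw [hS, left_mem hT hr, left_mem hT hr, List.mem_toFinset, List.mem_filter]
    simp only [Bool.and_eq_true, Bool.not_eq_true', Bool.not_eq_true]
    constructor
    · rintro ⟨h, h'⟩
      refine ⟨mem_dE a b ?_, h, h'⟩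
      by_contra hc
      rw [testBit_maskOf_ge T _ (by rw [base_len]; exact hc)] at h
      exact absurd h (by simp)
    · rintro ⟨_, h, h'⟩
      exact ⟨h, h'⟩
  rw [h1, List.toFinset_card_of_nodup (dE_nodup.filter _), bdCount, E_eq, List.map_map,
    length_filter_eq]
  rfl

theorem cyclePairs_card {V : Type} [Fintype V] [DecidableEq V] {γ : List V} (h : γ.Nodup) :
    (cyclePairs γ).card = γ.length := by
  unfold cyclePairs
  rw [List.toFinset_card_of_nodup]
  · simp
  · refine List.Nodup.of_map Prod.fst ?_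
    rw [List.map_fst_zip (by simp)]
    exact h

theorem mem_of_mem_cyclePairs {V : Type} [Fintype V] [DecidableEq V] {γ : List V} {a b : V}
    (h : (a, b) ∈ cyclePairs γ) : a ∈ γ ∧ b ∈ γ := by
  unfold cyclePairs at h
  rw [List.mem_toFinset] at h
  have := List.of_mem_zip h
  exact ⟨this.1, List.mem_rotate.1 this.2⟩

/-- If `v` is enclosed, going around `v` all the faces are in `T`. -/
theorem star_step : ∀ v a b : Fin 13, isFace v a b = true → leftIdx b v = leftIdx v a := by
  decide +kernel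

theorem star_idx1 : (petals 1).map (leftIdx 1) = starOf 0 := by decide +kernel

theorem star_idx2 : (petals 2).map (leftIdx 2) = starOf 1 := by decide +kernel

theorem star_idx3 : (petals 3).map (leftIdx 3) = starOf 2 := by decide +kernel

theorem petal_face : ∀ v : Fin 13, v = 1 ∨ v = 2 ∨ v = 3 → ∃ p0 p1 p2 p3 p4 p5 p6,
    petals v = [p0, p1, p2, p3, p4, p5, p6] ∧ isFace v p0 p1 = true ∧ isFace v p1 p2 = true ∧
      isFace v p2 p3 = true ∧ isFace v p3 p4 = true ∧ isFace v p4 p5 = true ∧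
      isFace v p5 p6 = true ∧ isFace v p6 p0 = true := by
  intro v hv
  rcases hv with rfl | rfl | rfl
  · exact ⟨0,3,6,7,10,4,2, by decide +kernel⟩
  · exact ⟨0,1,4,8,11,5,3, by decide +kernel⟩
  · exact ⟨0,2,5,9,12,6,1, by decide +kernel⟩

theorem cyc7 {P0 P1 P2 P3 P4 P5 P6 : Prop} (h0 : P0 → P1) (h1 : P1 → P2) (h2 : P2 → P3)
    (h3 : P3 → P4) (h4 : P4 → P5) (h5 : P5 → P6) (h6 : P6 → P0)
    (h : P0 ∨ P1 ∨ P2 ∨ P3 ∨ P4 ∨ P5 ∨ P6) : P0 ∧ P1 ∧ P2 ∧ P3 ∧ P4 ∧ P5 ∧ P6 := by
  have : P0 := by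
    rcases h with h | h | h | h | h | h | h
    · exact h
    · exact h6 (h5 (h4 (h3 (h2 (h1 h)))))
    · exact h6 (h5 (h4 (h3 (h2 h))))
    · exact h6 (h5 (h4 (h3 h)))
    · exact h6 (h5 (h4 h))
    · exact h6 (h5 h)
    · exact h6 h
  exact ⟨this, h0 this, h1 (h0 this), h2 (h1 (h0 this)), h3 (h2 (h1 (h0 this))),
    h4 (h3 (h2 (h1 (h0 this)))), h5 (h4 (h3 (h2 (h1 (h0 this)))))⟩

theorem enclosed_all {T : Faces (Fin 13)} (hT : T ⊆ K)
    (hr : ∀ a b c, (a, b, c) ∈ T → (b, c, a) ∈ T) {v : Fin 13} (hv : v = 1 ∨ v = 2 ∨ v = 3)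
    (hne : ∃ a b, (v, a, b) ∈ T)
    (hbd : ∀ a, ¬ ((∃ c, (a, v, c) ∈ T) ∧ ¬ ∃ c, (v, a, c) ∈ T)) :
    ∀ j ∈ (petals v).map (leftIdx v), (maskOf T).testBit j = true := by
  have step : ∀ a b, isFace v a b = true → (maskOf T).testBit (leftIdx v a) = true →
      (maskOf T).testBit (leftIdx v b) = true := by
    intro a b hf h
    have h1 := hbd b
    rw [left_mem hT hr, left_mem hT hr, star_step v a b hf] at h1
    by_contra hc
    exact h1 ⟨h, hc⟩
  obtain ⟨a, b, hab⟩ := hne
  have hfab := mem_K.1 (hT hab)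
  have hstart : (maskOf T).testBit (leftIdx v a) = true := (left_mem hT hr v a).1 ⟨b, hab⟩
  have hmem : a ∈ petals v := by
    have hv4 : v.val < 4 := by rcases hv with rfl | rfl | rfl <;> decide
    have := (link_int_aux v hv4 a b).1 hfab
    exact (List.of_mem_zip this).1
  obtain ⟨p0, p1, p2, p3, p4, p5, p6, hp, h0, h1, h2, h3, h4, h5, h6⟩ := petal_face v hv
  rw [hp] at hmem ⊢
  simp only [List.map_cons, List.map_nil, List.mem_cons, List.not_mem_nil, or_false] at hmem ⊢
  have key := cyc7 (step _ _ h0) (step _ _ h1) (step _ _ h2) (step _ _ h3) (step _ _ h4)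
    (step _ _ h5) (step _ _ h6) (by
      rcases hmem with h | h | h | h | h | h | h <;> rw [h] at hstart
      · exact Or.inl hstart
      · exact Or.inr (Or.inl hstart)
      · exact Or.inr (Or.inr (Or.inl hstart))
      · exact Or.inr (Or.inr (Or.inr (Or.inl hstart)))
      · exact Or.inr (Or.inr (Or.inr (Or.inr (Or.inl hstart))))
      · exact Or.inr (Or.inr (Or.inr (Or.inr (Or.inr (Or.inl hstart)))))
      · exact Or.inr (Or.inr (Or.inr (Or.inr (Or.inr (Or.inr hstart))))))
  obtain ⟨k0, k1, k2, k3, k4, k5, k6⟩ := key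
  rintro j (h | h | h | h | h | h | h) <;> rw [h]
  · exact k0
  · exact k1
  · exact k2
  · exact k3
  · exact k4
  · exact k5
  · exact k6

theorem ite_le {q : Prop} {_ : Decidable q} {n : ℕ} (h : q → n = 1) : (if q then 1 else 0) ≤ n := by
  split_ifs with hq
  · rw [h hq]
  · exact Nat.zero_le _

theorem K_edgePath : EdgePathCondition K B := by
  intro γ T hnd hlen hT hr hbd
  set y : ℕ → Bool := fun j => (maskOf T).testBit j with hy
  have h15 : y 15 = false := testBit_maskOf_ge T 15 (by rw [base_len]; omega)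
  have hcard : γ.length = bdCount y := by
    rw [← cyclePairs_card hnd]
    exact bd_card hT hr _ hbd
  have hne : ∃ j < 15, y j = true := by
    have hpos : 0 < (cyclePairs γ).card := by rw [cyclePairs_card hnd]; omega
    obtain ⟨⟨a, b⟩, hab⟩ := Finset.card_pos.1 hpos
    have h1 := ((hbd a b).1 hab).1
    rw [left_mem hT hr] at h1
    refine ⟨leftIdx a b, ?_, h1⟩
    by_contra hc
    rw [testBit_maskOf_ge T _ (by rw [base_len]; exact hc)] at h1
    exact absurd h1 (by simp)
  have hmain := count_bound y h15 hne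
  rw [← hcard] at hmain
  refine le_trans ?_ hmain
  have hind : ∀ v : Fin 13, (v = 1 ∨ v = 2 ∨ v = 3) → (v ∉ γ ∧ ∃ a b, (v, a, b) ∈ T) →
      allBits y ((petals v).map (leftIdx v)) = 1 := by
    rintro v hv ⟨hγ, hex⟩
    unfold allBits
    rw [if_pos]
    rw [List.all_eq_true]
    refine enclosed_all hT hr hv hex ?_
    intro a h
    exact hγ (mem_of_mem_cyclePairs ((hbd a v).2 h)).2
  have h1 := hind 1 (by decide)
  have h2 := hind 2 (by decide)
  have h3 := hind 3 (by decide)
  rw [star_idx1] at h1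
  rw [star_idx2] at h2
  rw [star_idx3] at h3
  have hB : B = 1 ::ₘ 2 ::ₘ 3 ::ₘ 0 := rfl
  have e : ∀ (p : Fin 13 → Prop) [DecidablePred p], (B.filter p).card =
      (if p 1 then 1 else 0) + (if p 2 then 1 else 0) + (if p 3 then 1 else 0) := by
    intro p _
    rw [hB]
    simp only [Multiset.filter_cons, Multiset.filter_zero, Multiset.card_add, add_zero]
    split_ifs <;> simp
  rw [e]
  refine Nat.add_le_add_right (Nat.mul_le_mul_left 2 ?_) 3
  exact add_le_add (add_le_add (ite_le h1) (ite_le h2)) (ite_le h3)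

end Pool.Agent.J6H86.BranchPack
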