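import Pool.Agent.J6H86.BranchPack.Disc

set_option autoImplicit false

/-!
# The packing in the disc with horocycles at the boundary
-/

namespace Pool.Agent.J6H86.BranchPack

open Real InnerProductGeometry

/-- Radius parameters of the packing in the disc. -/
structure HPar where
  s : ℝ
  r : ℝ
  k : ℝ
  h : ℝ
  hs : s ^ 2 = 3
  e1 : k ^ 2 + 4 * k * r + r ^ 2 = s * r * (1 - k ^ 2)
  e3 : 2 * h * (1 + (s - 1) * r) = (1 - r) ^ 2
  e2 : 1 - 2 * h + k ^ 2 + (1 - h) * k + s / 2 * (1 - h) * (1 - k ^ 2) - h * (1 - k ^ 2) = 0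
  s_lo : 1.732 < s
  s_hi : s < 1.7321
  r_lo : 0.004 ≤ r
  r_hi : r ≤ 0.0045
  k_lo : 0 < k
  k_hi : k < 0.081
  h_lo : 0.49 < h
  h_hi : h < 0.5

theorem sqrt3_bounds : (1.732 : ℝ) < √3 ∧ √3 < 1.7321 := by
  constructor
  · apply Real.lt_sqrt_of_sq_lt; norm_num
  · rw [Real.sqrt_lt' (by norm_num)]; norm_num

/-- The radius function for the corners. -/
noncomputable def hf (s r : ℝ) : ℝ := (1 - r) ^ 2 / (2 * (1 + (s - 1) * r))

/-- The radicand. -/
noncomputable def rad (s r : ℝ) : ℝ := 4 * r ^ 2 + (1 + s * r) * (s * r - r ^ 2)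

/-- The position parameter of the side circles. -/
noncomputable def kf (s r : ℝ) : ℝ := (√(rad s r) - 2 * r) / (1 + s * r)

/-- The closing condition. -/
noncomputable def Gf (s r : ℝ) : ℝ :=
  1 - 2 * hf s r + kf s r ^ 2 + (1 - hf s r) * kf s r +
    s / 2 * (1 - hf s r) * (1 - kf s r ^ 2) - hf s r * (1 - kf s r ^ 2)

theorem Gf_cont {s : ℝ} (hs : 1 < s) : ContinuousOn (Gf s) (Set.Icc 0.004 0.0045) := by
  have h1 : ContinuousOn (hf s) (Set.Icc 0.004 0.0045) := by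
    unfold hf
    refine ContinuousOn.div (by fun_prop) (by fun_prop) ?_
    intro x hx
    have : 0 ≤ x := by linarith [hx.1]
    have : 0 ≤ (s - 1) * x := mul_nonneg (by linarith) this
    linarith
  have h2 : ContinuousOn (kf s) (Set.Icc 0.004 0.0045) := by
    unfold kf rad
    refine ContinuousOn.div (by fun_prop) (by fun_prop) ?_
    intro x hx
    have : 0 ≤ x := by linarith [hx.1]
    have : 0 ≤ s * x := mul_nonneg (by linarith) this
    linarith
  unfold Gf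
  fun_prop

theorem bounds_lo {s : ℝ} (h1 : 1.732 < s) (h2 : s < 1.7321) : Gf s 0.004 < 0 := by
  have hh : 0.49455 < hf s 0.004 ∧ hf s 0.004 < 0.49457 := by
    unfold hf
    constructor
    · rw [lt_div_iff₀ (by nlinarith)]; nlinarith
    · rw [div_lt_iff₀ (by nlinarith)]; nlinarith
  have hr : 0.0837 < √(rad s 0.004) ∧ √(rad s 0.004) < 0.08382 := by
    unfold rad
    constructor
    · apply Real.lt_sqrt_of_sq_lt; nlinarith
    · rw [Real.sqrt_lt' (by norm_num)]; nlinarith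
  have hk : 0.075 < kf s 0.004 ∧ kf s 0.004 < 0.0753 := by
    unfold kf
    constructor
    · rw [lt_div_iff₀ (by nlinarith)]; nlinarith [hr.1]
    · rw [div_lt_iff₀ (by nlinarith)]; nlinarith [hr.2]
  unfold Gf
  set h := hf s 0.004
  set k := kf s 0.004
  obtain ⟨a1, a2⟩ := hh
  obtain ⟨b1, b2⟩ := hk
  have m : s / 2 * (1 - h) - h < -0.0567 := by nlinarith
  have k2 : k ^ 2 < 0.00568 := by nlinarith
  have e : 1 - 2 * h + k ^ 2 + (1 - h) * k + s / 2 * (1 - h) * (1 - k ^ 2) - h * (1 - k ^ 2) =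
      1 - 2 * h + k ^ 2 + (1 - h) * k + (1 - k ^ 2) * (s / 2 * (1 - h) - h) := by ring
  rw [e]
  have m2 : (1 - k ^ 2) * (s / 2 * (1 - h) - h) < 0.99432 * (-0.0567) := by nlinarith
  have m3 : (1 - h) * k < 0.50545 * 0.0753 := by nlinarith
  linarith

theorem bounds_hi {s : ℝ} (h1 : 1.732 < s) (h2 : s < 1.7321) : 0 < Gf s 0.0045 := by
  have hh : 0.49387 < hf s 0.0045 ∧ hf s 0.0045 < 0.49389 := by
    unfold hf
    constructor
    · rw [lt_div_iff₀ (by nlinarith)]; nlinarith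
    · rw [div_lt_iff₀ (by nlinarith)]; nlinarith
  have hr : 0.08896 < √(rad s 0.0045) ∧ √(rad s 0.0045) < 0.089 := by
    unfold rad
    constructor
    · apply Real.lt_sqrt_of_sq_lt; nlinarith
    · rw [Real.sqrt_lt' (by norm_num)]; nlinarith
  have hk : 0.0793 < kf s 0.0045 ∧ kf s 0.0045 < 0.0795 := by
    unfold kf
    constructor
    · rw [lt_div_iff₀ (by nlinarith)]; nlinarith [hr.1]
    · rw [div_lt_iff₀ (by nlinarith)]; nlinarith [hr.2]
  unfold Gf
  set h := hf s 0.0045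
  set k := kf s 0.0045
  obtain ⟨a1, a2⟩ := hh
  obtain ⟨b1, b2⟩ := hk
  have m : -0.0557 < s / 2 * (1 - h) - h := by nlinarith
  have k2 : 0.00628 < k ^ 2 := by nlinarith
  have k3 : k ^ 2 < 1 := by nlinarith
  have e : 1 - 2 * h + k ^ 2 + (1 - h) * k + s / 2 * (1 - h) * (1 - k ^ 2) - h * (1 - k ^ 2) =
      1 - 2 * h + k ^ 2 + (1 - h) * k + (1 - k ^ 2) * (s / 2 * (1 - h) - h) := by ring
  rw [e]
  have m2 : -0.0557 < (1 - k ^ 2) * (s / 2 * (1 - h) - h) := by nlinarith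
  have m3 : 0.5061 * 0.0793 < (1 - h) * k := by nlinarith
  linarith

theorem exists_HPar : Nonempty HPar := by
  obtain ⟨h1, h2⟩ := sqrt3_bounds
  obtain ⟨r, ⟨hr1, hr2⟩, hG⟩ := intermediate_value_Icc (f := Gf (√3)) (by norm_num)
    (Gf_cont (by linarith)) (show (0 : ℝ) ∈ Set.Icc (Gf (√3) 0.004) (Gf (√3) 0.0045) from
      ⟨(bounds_lo h1 h2).le, (bounds_hi h1 h2).le⟩)
  have hsq : √3 ^ 2 = 3 := Real.sq_sqrt (by norm_num)
  set s := √3
  have d1 : 0 < 1 + (s - 1) * r := by nlinarith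
  have d2 : 0 < 1 + s * r := by nlinarith
  have hrad : 0.0825 ^ 2 < rad s r ∧ rad s r < 0.0892 ^ 2 := by
    unfold rad
    have c1 : s * r ≤ 1.7321 * 0.0045 := by nlinarith
    have c2 : 1.732 * 0.004 ≤ s * r := by nlinarith
    have c3 : r ^ 2 ≤ 0.0045 ^ 2 := by nlinarith
    have c4 : 0.000016 ≤ r ^ 2 := by nlinarith
    constructor
    · nlinarith
    · nlinarith
  have hroot : 0.0825 < √(rad s r) ∧ √(rad s r) < 0.0892 :=
    ⟨Real.lt_sqrt_of_sq_lt hrad.1, by rw [Real.sqrt_lt' (by norm_num)]; exact hrad.2⟩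
  have hsr : √(rad s r) ^ 2 = rad s r := Real.sq_sqrt (by nlinarith [hrad.1])
  have hk : kf s r * (1 + s * r) = √(rad s r) - 2 * r := by
    unfold kf; field_simp
  have hh : hf s r * (2 * (1 + (s - 1) * r)) = (1 - r) ^ 2 := by
    unfold hf
    exact div_mul_cancel₀ _ (by linarith)
  refine ⟨⟨s, r, kf s r, hf s r, hsq, ?_, ?_, hG, h1, h2, hr1, hr2, ?_, ?_, ?_, ?_⟩⟩
  · have h3 : (kf s r * (1 + s * r) + 2 * r) ^ 2 = rad s r := by
      have h6 : kf s r * (1 + s * r) + 2 * r = √(rad s r) := by linarith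
      rw [h6, hsr]
    unfold rad at h3
    have h4 : (1 + s * r) * (kf s r ^ 2 + 4 * kf s r * r + r ^ 2 - s * r * (1 - kf s r ^ 2)) = 0 := by
      linear_combination h3
    rcases mul_eq_zero.1 h4 with h5 | h5
    · linarith
    · linarith
  · linarith
  · by_contra hc
    have : kf s r * (1 + s * r) ≤ 0 := mul_nonpos_of_nonpos_of_nonneg (not_lt.1 hc) d2.le
    linarith [hroot.1]
  · by_contra hc
    have : 0.081 * (1 + s * r) ≤ kf s r * (1 + s * r) := mul_le_mul_of_nonneg_right (not_lt.1 hc) d2.le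
    nlinarith [hroot.2]
  · by_contra hc
    have : hf s r * (2 * (1 + (s - 1) * r)) ≤ 0.49 * (2 * (1 + (s - 1) * r)) :=
      mul_le_mul_of_nonneg_right (not_lt.1 hc) (by linarith)
    nlinarith
  · by_contra hc
    have : 0.5 * (2 * (1 + (s - 1) * r)) ≤ hf s r * (2 * (1 + (s - 1) * r)) :=
      mul_le_mul_of_nonneg_right (not_lt.1 hc) (by linarith)
    nlinarith

end Pool.Agent.J6H86.BranchPack
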