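import Pool.Agent.J6H86.BranchPack.Pack

set_option autoImplicit false

/-!
# The two packings, angle sums
-/

namespace Pool.Agent.J6H86.BranchPack

open Real InnerProductGeometry

theorem det3_rot (x y z : E3) : det3 y z x = det3 x y z := by
  unfold det3; ring

theorem forall_K {P : Fin 13 → Fin 13 → Fin 13 → Prop}
    (h : ∀ f ∈ base, P f.1 f.2.1 f.2.2 ∧ P f.2.1 f.2.2 f.1 ∧ P f.2.2 f.1 f.2.1) :
    ∀ a b c, (a, b, c) ∈ K → P a b c := by
  intro a b c hf
  rw [mem_K_iff, allFaces, List.mem_append, List.mem_append, List.mem_map, List.mem_map] at hf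
  rcases hf with (hf | ⟨g, hg, e⟩) | ⟨g, hg, e⟩
  · exact (h _ hf).1
  · obtain ⟨rfl, rfl, rfl⟩ : g.2.1 = a ∧ g.2.2 = b ∧ g.1 = c := by
      simpa only [Prod.mk.injEq] using e
    exact (h _ hg).2.1
  · obtain ⟨rfl, rfl, rfl⟩ : g.2.2 = a ∧ g.1 = b ∧ g.2.1 = c := by
      simpa only [Prod.mk.injEq] using e
    exact (h _ hg).2.2

theorem Pw_sum (p : Par) : ∀ f ∈ base, 0 < Pw p f.1 + Pw p f.2.1 ∧ 0 < Pw p f.2.1 + Pw p f.2.2 ∧
    0 < Pw p f.2.2 + Pw p f.1 := by
  obtain ⟨a, b, e, Z, ha, hb, he, hZ, a0, b0, P0, g0, s0, z0, c0⟩ := p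
  have h1 : 0 < (3 * b - 4 * e) * a / 3 := by positivity
  have h2 : 0 < a * b / 15 := by positivity
  have h3 : 0 < (b + 2 * e) * a / 3 := by positivity
  have h4 : 0 < a * (3 * b - 4 * e + 2 * Z) + (3 * b - 4 * e) * a / 3 := by
    have : a * (3 * b - 4 * e + 2 * Z) + (3 * b - 4 * e) * a / 3 =
      2 * a / 3 * (3 * Z + 2 * (3 * b - 4 * e)) := by ring
    rw [this]; positivity
  have h5 : 0 < (3 * b - 4 * e) * a / 3 + a * (3 * b - 4 * e + 2 * Z) := by linarith
  simp only [base, List.forall_mem_cons]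
  refine ⟨?_, ?_, ?_, ?_, ?_, ?_, ?_, ?_, ?_, ?_, ?_, ?_, ?_, ?_, ?_, by simp⟩ <;>
    refine ⟨?_, ?_, ?_⟩ <;> simp only [Pw, Matrix.cons_val] <;>
    first | exact h4 | exact h5 | (linarith)

/-- The data for the packing. -/
noncomputable def Par.D (p : Par) : LData K where
  X := PX p
  w := Pw p
  unit := PX_unit p
  tangent := by
    refine forall_K (P := fun a b _ => inner ℝ (PX p a) (PX p b) = Pw p a * Pw p b - 1) ?_
    intro f hf
    exact PX_tan p f hf
  wpos := by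
    refine forall_K (P := fun a b _ => 0 < Pw p a + Pw p b) ?_
    intro f hf
    exact Pw_sum p f hf
  oriented := by
    refine forall_K (P := fun a b c => 0 < det3 (PX p a) (PX p b) (PX p c)) ?_
    intro f hf
    have h := PX_det p f hf
    exact ⟨h, by rw [det3_rot]; exact h, by rw [← det3_rot]; exact h⟩
  equator v hv := by
    rw [interior_iff] at hv
    fin_cases v <;> simp [PX] at hv ⊢

end Pool.Agent.J6H86.BranchPack
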