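import Pool.Agent.J6H86.BranchPack.Horo
import Pool.Agent.J6H86.BranchPack.Pack2

set_option autoImplicit false

/-!
# The packing in the disc with horocycles at the boundary: coordinates
-/

namespace Pool.Agent.J6H86.BranchPack

open Real InnerProductGeometry

/-- Half of the diameter of the side circles. -/
noncomputable def HPar.q (p : HPar) : ℝ := (1 - p.k ^ 2) / 2

/-- Real parts of the centres. -/
noncomputable def Hx (p : HPar) : Fin 13 → ℝ :=
  ![0, 2 * p.r, -p.r, -p.r, (1 - p.h) / 2, -(1 - p.h), (1 - p.h) / 2,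
    -p.k, p.k / 2 - p.s / 2 * p.q, p.k / 2 + p.s / 2 * p.q,
    -p.k, p.k / 2 + p.s / 2 * p.q, p.k / 2 - p.s / 2 * p.q]

/-- Imaginary parts of the centres. -/
noncomputable def Hy (p : HPar) : Fin 13 → ℝ :=
  ![0, 0, p.s * p.r, -(p.s * p.r), (1 - p.h) * p.s / 2, 0, -((1 - p.h) * p.s / 2),
    p.q, -(p.s / 2 * p.k) - p.q / 2, p.s / 2 * p.k - p.q / 2,
    -p.q, -(p.s / 2 * p.k) + p.q / 2, p.s / 2 * p.k + p.q / 2]

/-- The radii. -/
noncomputable def Hr (p : HPar) : Fin 13 → ℝ :=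
  ![(2 - p.s) * p.r, p.s * p.r, p.s * p.r, p.s * p.r, p.h, p.h, p.h,
    p.q, p.q, p.q, p.q, p.q, p.q]

theorem Hr_pos (p : HPar) (v : Fin 13) : 0 < Hr p v := by
  have h1 := p.s_lo
  have h2 := p.s_hi
  have h3 := p.r_lo
  have h4 := p.h_lo
  have h5 := p.k_lo
  have h6 := p.k_hi
  have a1 : 0 < (2 - p.s) * p.r := mul_pos (by linarith) (by linarith)
  have a2 : 0 < p.s * p.r := mul_pos (by linarith) (by linarith)
  have a3 : 0 < p.q := by unfold HPar.q; nlinarith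
  have a4 : 0 < p.h := by linarith
  fin_cases v <;> simp only [Hr, Fin.zero_eta, Fin.mk_one, Fin.reduceFinMk, Matrix.cons_val] <;>
    assumption

theorem H_tan (p : HPar) : ∀ f ∈ base,
    ((Hx p f.1 - Hx p f.2.1) ^ 2 + (Hy p f.1 - Hy p f.2.1) ^ 2 = (Hr p f.1 + Hr p f.2.1) ^ 2 ∧
    (Hx p f.2.1 - Hx p f.2.2) ^ 2 + (Hy p f.2.1 - Hy p f.2.2) ^ 2 = (Hr p f.2.1 + Hr p f.2.2) ^ 2 ∧
    (Hx p f.2.2 - Hx p f.1) ^ 2 + (Hy p f.2.2 - Hy p f.1) ^ 2 = (Hr p f.2.2 + Hr p f.1) ^ 2) := by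
  obtain ⟨s, r, k, h, hs, e1, e3, e2, _, _, _, _, _, _, _, _⟩ := p
  simp only [base, List.forall_mem_cons]
  refine ⟨?_, ?_, ?_, ?_, ?_, ?_, ?_, ?_, ?_, ?_, ?_, ?_, ?_, ?_, ?_, by simp⟩
  · refine ⟨?_, ?_, ?_⟩
    · simp only [Hx, Hy, Hr, HPar.q, Matrix.cons_val]
      linear_combination (0) * hs
    · simp only [Hx, Hy, Hr, HPar.q, Matrix.cons_val]
      linear_combination ((-3) * r ^ 2) * hs
    · simp only [Hx, Hy, Hr, HPar.q, Matrix.cons_val]
      linear_combination ((1) * r ^ 2) * hs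
  · refine ⟨?_, ?_, ?_⟩
    · simp only [Hx, Hy, Hr, HPar.q, Matrix.cons_val]
      linear_combination ((-3) * r ^ 2) * hs
    · simp only [Hx, Hy, Hr, HPar.q, Matrix.cons_val]
      linear_combination (-1) * e3 + ((-1) * r ^ 2 + (1 / 4) * h ^ 2 + (-1 / 2) * h + (1 / 4)) * hs
    · simp only [Hx, Hy, Hr, HPar.q, Matrix.cons_val]
      linear_combination (-1) * e3 + ((1) * r * h + (-1) * r + (1 / 4) * h ^ 2 + (-1 / 2) * h +
        (1 / 4)) * hs
  · refine ⟨?_, ?_, ?_⟩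
    · simp only [Hx, Hy, Hr, HPar.q, Matrix.cons_val]
      linear_combination (-1) * e3 + ((-1) * r ^ 2 + (1 / 4) * h ^ 2 + (-1 / 2) * h + (1 / 4)) * hs
    · simp only [Hx, Hy, Hr, HPar.q, Matrix.cons_val]
      linear_combination (1) * e2 + ((1 / 4) * h ^ 2 + (-1 / 2) * h + (1 / 4)) * hs
    · simp only [Hx, Hy, Hr, HPar.q, Matrix.cons_val]
      linear_combination (1) * e1 + ((-1) * r ^ 2) * hs
  · refine ⟨?_, ?_, ?_⟩
    · simp only [Hx, Hy, Hr, HPar.q, Matrix.cons_val]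
      linear_combination (1) * e1 + ((-1) * r ^ 2) * hs
    · simp only [Hx, Hy, Hr, HPar.q, Matrix.cons_val]
      linear_combination (0) * hs
    · simp only [Hx, Hy, Hr, HPar.q, Matrix.cons_val]
      linear_combination (1) * e1 + ((-1) * r ^ 2) * hs
  · refine ⟨?_, ?_, ?_⟩
    · simp only [Hx, Hy, Hr, HPar.q, Matrix.cons_val]
      linear_combination (1) * e1 + ((-1) * r ^ 2) * hs
    · simp only [Hx, Hy, Hr, HPar.q, Matrix.cons_val]
      linear_combination (1) * e2 + ((1 / 4) * h ^ 2 + (-1 / 2) * h + (1 / 4)) * hs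
    · simp only [Hx, Hy, Hr, HPar.q, Matrix.cons_val]
      linear_combination (-1) * e3 + ((-1) * r ^ 2 + (1 / 4) * h ^ 2 + (-1 / 2) * h + (1 / 4)) * hs
  · refine ⟨?_, ?_, ?_⟩
    · simp only [Hx, Hy, Hr, HPar.q, Matrix.cons_val]
      linear_combination ((1) * r ^ 2) * hs
    · simp only [Hx, Hy, Hr, HPar.q, Matrix.cons_val]
      linear_combination (0) * hs
    · simp only [Hx, Hy, Hr, HPar.q, Matrix.cons_val]
      linear_combination ((1) * r ^ 2) * hs
  · refine ⟨?_, ?_, ?_⟩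
    · simp only [Hx, Hy, Hr, HPar.q, Matrix.cons_val]
      linear_combination (0) * hs
    · simp only [Hx, Hy, Hr, HPar.q, Matrix.cons_val]
      linear_combination (-1) * e3 + (0) * hs
    · simp only [Hx, Hy, Hr, HPar.q, Matrix.cons_val]
      linear_combination (-1) * e3 + (0) * hs
  · refine ⟨?_, ?_, ?_⟩
    · simp only [Hx, Hy, Hr, HPar.q, Matrix.cons_val]
      linear_combination (-1) * e3 + ((1) * r * h + (-1) * r + (1 / 4) * h ^ 2 + (-1 / 2) * h +
        (1 / 4)) * hs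
    · simp only [Hx, Hy, Hr, HPar.q, Matrix.cons_val]
      linear_combination (1) * e2 + ((1 / 16) * k ^ 4 + (1 / 8) * k ^ 2 + (-1 / 2) * k * h +
        (1 / 2) * k + (1 / 4) * h ^ 2 + (-1 / 2) * h + (5 / 16)) * hs
    · simp only [Hx, Hy, Hr, HPar.q, Matrix.cons_val]
      linear_combination (1) * e1 + ((1) * r * k + (1 / 16) * k ^ 4 + (1 / 8) * k ^ 2 +
        (1 / 16)) * hs
  · refine ⟨?_, ?_, ?_⟩
    · simp only [Hx, Hy, Hr, HPar.q, Matrix.cons_val]
      linear_combination (1) * e1 + ((1) * r * k + (1 / 16) * k ^ 4 + (1 / 8) * k ^ 2 +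
        (1 / 16)) * hs
    · simp only [Hx, Hy, Hr, HPar.q, Matrix.cons_val]
      linear_combination ((1 / 4) * k ^ 4 + (-1 / 2) * k ^ 2 + (1 / 4)) * hs
    · simp only [Hx, Hy, Hr, HPar.q, Matrix.cons_val]
      linear_combination (1) * e1 + ((1) * r * k + (1 / 16) * k ^ 4 + (1 / 8) * k ^ 2 +
        (1 / 16)) * hs
  · refine ⟨?_, ?_, ?_⟩
    · simp only [Hx, Hy, Hr, HPar.q, Matrix.cons_val]
      linear_combination (1) * e1 + ((1) * r * k + (1 / 16) * k ^ 4 + (1 / 8) * k ^ 2 +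
        (1 / 16)) * hs
    · simp only [Hx, Hy, Hr, HPar.q, Matrix.cons_val]
      linear_combination (1) * e2 + ((1 / 16) * k ^ 4 + (1 / 8) * k ^ 2 + (1 / 16)) * hs
    · simp only [Hx, Hy, Hr, HPar.q, Matrix.cons_val]
      linear_combination (-1) * e3 + (0) * hs
  · refine ⟨?_, ?_, ?_⟩
    · simp only [Hx, Hy, Hr, HPar.q, Matrix.cons_val]
      linear_combination ((1) * r ^ 2) * hs
    · simp only [Hx, Hy, Hr, HPar.q, Matrix.cons_val]
      linear_combination ((-3) * r ^ 2) * hs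
    · simp only [Hx, Hy, Hr, HPar.q, Matrix.cons_val]
      linear_combination (0) * hs
  · refine ⟨?_, ?_, ?_⟩
    · simp only [Hx, Hy, Hr, HPar.q, Matrix.cons_val]
      linear_combination ((-3) * r ^ 2) * hs
    · simp only [Hx, Hy, Hr, HPar.q, Matrix.cons_val]
      linear_combination (-1) * e3 + ((1) * r * h + (-1) * r + (1 / 4) * h ^ 2 + (-1 / 2) * h +
        (1 / 4)) * hs
    · simp only [Hx, Hy, Hr, HPar.q, Matrix.cons_val]
      linear_combination (-1) * e3 + ((-1) * r ^ 2 + (1 / 4) * h ^ 2 + (-1 / 2) * h + (1 / 4)) * hs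
  · refine ⟨?_, ?_, ?_⟩
    · simp only [Hx, Hy, Hr, HPar.q, Matrix.cons_val]
      linear_combination (-1) * e3 + (0) * hs
    · simp only [Hx, Hy, Hr, HPar.q, Matrix.cons_val]
      linear_combination (1) * e2 + ((1 / 16) * k ^ 4 + (1 / 8) * k ^ 2 + (1 / 16)) * hs
    · simp only [Hx, Hy, Hr, HPar.q, Matrix.cons_val]
      linear_combination (1) * e1 + ((1) * r * k + (1 / 16) * k ^ 4 + (1 / 8) * k ^ 2 +
        (1 / 16)) * hs
  · refine ⟨?_, ?_, ?_⟩
    · simp only [Hx, Hy, Hr, HPar.q, Matrix.cons_val]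
      linear_combination (1) * e1 + ((1) * r * k + (1 / 16) * k ^ 4 + (1 / 8) * k ^ 2 +
        (1 / 16)) * hs
    · simp only [Hx, Hy, Hr, HPar.q, Matrix.cons_val]
      linear_combination ((1 / 4) * k ^ 4 + (-1 / 2) * k ^ 2 + (1 / 4)) * hs
    · simp only [Hx, Hy, Hr, HPar.q, Matrix.cons_val]
      linear_combination (1) * e1 + ((1) * r * k + (1 / 16) * k ^ 4 + (1 / 8) * k ^ 2 +
        (1 / 16)) * hs
  · refine ⟨?_, ?_, ?_⟩
    · simp only [Hx, Hy, Hr, HPar.q, Matrix.cons_val]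
      linear_combination (1) * e1 + ((1) * r * k + (1 / 16) * k ^ 4 + (1 / 8) * k ^ 2 +
        (1 / 16)) * hs
    · simp only [Hx, Hy, Hr, HPar.q, Matrix.cons_val]
      linear_combination (1) * e2 + ((1 / 16) * k ^ 4 + (1 / 8) * k ^ 2 + (-1 / 2) * k * h +
        (1 / 2) * k + (1 / 4) * h ^ 2 + (-1 / 2) * h + (5 / 16)) * hs
    · simp only [Hx, Hy, Hr, HPar.q, Matrix.cons_val]
      linear_combination (-1) * e3 + ((1) * r * h + (-1) * r + (1 / 4) * h ^ 2 + (-1 / 2) * h +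
        (1 / 4)) * hs

theorem H_or (p : HPar) : ∀ f ∈ base,
    0 < (Hx p f.2.1 - Hx p f.1) * (Hy p f.2.2 - Hy p f.1) -
      (Hy p f.2.1 - Hy p f.1) * (Hx p f.2.2 - Hx p f.1) := by
  have hq : 0.49 < p.q ∧ p.q ≤ 1 / 2 := by
    unfold HPar.q
    constructor <;> nlinarith [p.k_lo, p.k_hi]
  obtain ⟨q1, q2⟩ := hq
  have t1 : 0 < 2 * p.s * p.r ^ 2 := by
    have h1 : 0 < p.s := by linarith [p.s_lo]
    have h2 : 0 < p.r := by linarith [p.r_lo]
    positivity
  have t2 : 0 < 2 * p.s * p.r * (1 - p.h - p.r) := by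
    have h1 : 0 < p.s := by linarith [p.s_lo]
    have h2 : 0 < p.r := by linarith [p.r_lo]
    have h3 : 0 < 1 - p.h - p.r := by linarith [p.h_hi, p.r_hi]
    positivity
  have t3 : 0 < ((1 - p.h) / 2 - 2 * p.r) * p.q - (1 - p.h) * (p.s / 2) * (p.k + 2 * p.r) := by
    have a1 : 0.24 < (1 - p.h) / 2 - 2 * p.r := by linarith [p.h_hi, p.r_hi]
    have a2 : 0.24 * 0.49 < ((1 - p.h) / 2 - 2 * p.r) * p.q := by nlinarith
    have a3 : (p.s / 2) * (p.k + 2 * p.r) < 0.867 * 0.09 := by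
      have b1 : p.s / 2 < 0.867 := by linarith [p.s_hi]
      have b2 : p.k + 2 * p.r ≤ 0.09 := by linarith [p.k_hi, p.r_hi]
      have b3 : 0 < p.k + 2 * p.r := by linarith [p.k_lo, p.r_lo]
      nlinarith
    have a4 : 0 < (p.s / 2) * (p.k + 2 * p.r) :=
      mul_pos (by linarith [p.s_lo]) (by linarith [p.k_lo, p.r_lo])
    have a5 : (1 - p.h) * ((p.s / 2) * (p.k + 2 * p.r)) < 0.51 * (0.867 * 0.09) := by
      have := p.h_lo
      nlinarith
    nlinarith
  have t4 : 0 < 2 * p.q * (p.k + 2 * p.r) := by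
    have : 0 < p.k + 2 * p.r := by linarith [p.k_lo, p.r_lo]
    have : 0 < p.q := by linarith
    positivity
  obtain ⟨s, r, k, h, hs, _, _, _, _, _, _, _, _, _, _, _⟩ := p
  simp only [HPar.q] at t1 t2 t3 t4
  simp only [base, List.forall_mem_cons]
  refine ⟨?_, ?_, ?_, ?_, ?_, ?_, ?_, ?_, ?_, ?_, ?_, ?_, ?_, ?_, ?_, by simp⟩
  · refine lt_of_lt_of_eq t1 ?_
    simp only [Hx, Hy, HPar.q, Matrix.cons_val]
    linear_combination (0) * hs
  · refine lt_of_lt_of_eq t2 ?_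
    simp only [Hx, Hy, HPar.q, Matrix.cons_val]
    linear_combination (0) * hs
  · refine lt_of_lt_of_eq t3 ?_
    simp only [Hx, Hy, HPar.q, Matrix.cons_val]
    linear_combination (0) * hs
  · refine lt_of_lt_of_eq t4 ?_
    simp only [Hx, Hy, HPar.q, Matrix.cons_val]
    linear_combination (0) * hs
  · refine lt_of_lt_of_eq t3 ?_
    simp only [Hx, Hy, HPar.q, Matrix.cons_val]
    linear_combination (0) * hs
  · refine lt_of_lt_of_eq t1 ?_
    simp only [Hx, Hy, HPar.q, Matrix.cons_val]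
    linear_combination (0) * hs
  · refine lt_of_lt_of_eq t2 ?_
    simp only [Hx, Hy, HPar.q, Matrix.cons_val]
    linear_combination (0) * hs
  · refine lt_of_lt_of_eq t3 ?_
    simp only [Hx, Hy, HPar.q, Matrix.cons_val]
    linear_combination ((-1 / 4) * r * k ^ 2 + (1 / 4) * r + (-1 / 8) * k ^ 2 * h +
      (1 / 8) * k ^ 2 + (1 / 8) * h + (-1 / 8)) * hs
  · refine lt_of_lt_of_eq t4 ?_
    simp only [Hx, Hy, HPar.q, Matrix.cons_val]
    linear_combination ((1 / 2) * r * k ^ 2 + (-1 / 2) * r + (1 / 4) * k ^ 3 + (-1 / 4) * k) * hs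
  · refine lt_of_lt_of_eq t3 ?_
    simp only [Hx, Hy, HPar.q, Matrix.cons_val]
    linear_combination ((-1 / 4) * r * k ^ 2 + (1 / 4) * r) * hs
  · refine lt_of_lt_of_eq t1 ?_
    simp only [Hx, Hy, HPar.q, Matrix.cons_val]
    linear_combination (0) * hs
  · refine lt_of_lt_of_eq t2 ?_
    simp only [Hx, Hy, HPar.q, Matrix.cons_val]
    linear_combination (0) * hs
  · refine lt_of_lt_of_eq t3 ?_
    simp only [Hx, Hy, HPar.q, Matrix.cons_val]
    linear_combination ((-1 / 4) * r * k ^ 2 + (1 / 4) * r) * hs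
  · refine lt_of_lt_of_eq t4 ?_
    simp only [Hx, Hy, HPar.q, Matrix.cons_val]
    linear_combination ((1 / 2) * r * k ^ 2 + (-1 / 2) * r + (1 / 4) * k ^ 3 + (-1 / 4) * k) * hs
  · refine lt_of_lt_of_eq t3 ?_
    simp only [Hx, Hy, HPar.q, Matrix.cons_val]
    linear_combination ((-1 / 4) * r * k ^ 2 + (1 / 4) * r + (-1 / 8) * k ^ 2 * h +
      (1 / 8) * k ^ 2 + (1 / 8) * h + (-1 / 8)) * hs

/-- Distance from the origin: squares. -/
theorem H_bd (p : HPar) (v : Fin 13) (hv : ¬ v.val < 4) :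
    Hx p v ^ 2 + Hy p v ^ 2 = (1 - Hr p v) ^ 2 ∧ 0 ≤ 1 - Hr p v := by
  have hq : p.q ≤ 1 / 2 := by
    unfold HPar.q
    nlinarith [p.k_lo, p.k_hi]
  have hh := p.h_hi
  constructor
  · obtain ⟨s, r, k, h, hs, _, _, _, _, _, _, _, _, _, _, _⟩ := p
    fin_cases v
    · exact absurd (by decide) hv
    · exact absurd (by decide) hv
    · exact absurd (by decide) hv
    · exact absurd (by decide) hv
    · simp only [Hx, Hy, Hr, HPar.q, Fin.reduceFinMk, Matrix.cons_val]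
      linear_combination ((1 / 4) * h ^ 2 + (-1 / 2) * h + (1 / 4)) * hs
    · simp only [Hx, Hy, Hr, HPar.q, Fin.reduceFinMk, Matrix.cons_val]
      linear_combination (0) * hs
    · simp only [Hx, Hy, Hr, HPar.q, Fin.reduceFinMk, Matrix.cons_val]
      linear_combination ((1 / 4) * h ^ 2 + (-1 / 2) * h + (1 / 4)) * hs
    · simp only [Hx, Hy, Hr, HPar.q, Fin.reduceFinMk, Matrix.cons_val]
      linear_combination (0) * hs
    · simp only [Hx, Hy, Hr, HPar.q, Fin.reduceFinMk, Matrix.cons_val]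
      linear_combination ((1 / 16) * k ^ 4 + (1 / 8) * k ^ 2 + (1 / 16)) * hs
    · simp only [Hx, Hy, Hr, HPar.q, Fin.reduceFinMk, Matrix.cons_val]
      linear_combination ((1 / 16) * k ^ 4 + (1 / 8) * k ^ 2 + (1 / 16)) * hs
    · simp only [Hx, Hy, Hr, HPar.q, Fin.reduceFinMk, Matrix.cons_val]
      linear_combination (0) * hs
    · simp only [Hx, Hy, Hr, HPar.q, Fin.reduceFinMk, Matrix.cons_val]
      linear_combination ((1 / 16) * k ^ 4 + (1 / 8) * k ^ 2 + (1 / 16)) * hs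
    · simp only [Hx, Hy, Hr, HPar.q, Fin.reduceFinMk, Matrix.cons_val]
      linear_combination ((1 / 16) * k ^ 4 + (1 / 8) * k ^ 2 + (1 / 16)) * hs
  · fin_cases v
    · exact absurd (by decide) hv
    · exact absurd (by decide) hv
    · exact absurd (by decide) hv
    · exact absurd (by decide) hv
    all_goals
      simp only [Hr, Fin.reduceFinMk, Matrix.cons_val]
      linarith

theorem H_int (p : HPar) (v : Fin 13) (hv : v.val < 4) :
    Hx p v ^ 2 + Hy p v ^ 2 < (1 - Hr p v) ^ 2 ∧ 0 ≤ 1 - Hr p v := by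
  have h1 := p.s_lo
  have h2 := p.s_hi
  have h3 := p.r_lo
  have h4 := p.r_hi
  have h5 : p.s * p.r ≤ 0.01 := by nlinarith
  have h6 : 0 ≤ p.s * p.r := by nlinarith
  have hr2 : p.r ^ 2 ≤ 0.0001 := by nlinarith
  have h7 := p.hs
  have h8 : (p.s * p.r) ^ 2 = 3 * p.r ^ 2 := by rw [mul_pow, h7]
  obtain ⟨n, hn⟩ := v
  simp only at hv
  interval_cases n
  · simp only [Hx, Hy, Hr, Fin.zero_eta, Matrix.cons_val]
    constructor <;> nlinarith
  · simp only [Hx, Hy, Hr, Fin.mk_one, Matrix.cons_val]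
    constructor <;> nlinarith
  · simp only [Hx, Hy, Hr, Fin.reduceFinMk, Matrix.cons_val]
    constructor <;> nlinarith
  · simp only [Hx, Hy, Hr, Fin.reduceFinMk, Matrix.cons_val]
    constructor <;> nlinarith

end Pool.Agent.J6H86.BranchPack
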