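import Pool.Agent.J6H86.BranchPack.Horo2

set_option autoImplicit false

/-!
# The packing in the disc with horocycles at the boundary, conclusion
-/

namespace Pool.Agent.J6H86.BranchPack

open Real InnerProductGeometry

/-- The centres. -/
noncomputable def HC (p : HPar) (v : Fin 13) : ℂ := ⟨Hx p v, Hy p v⟩

theorem HC_sq (p : HPar) (v : Fin 13) : ‖HC p v‖ ^ 2 = Hx p v ^ 2 + Hy p v ^ 2 := by
  rw [Complex.sq_norm, Complex.normSq_apply, HC]
  ring

theorem HC_dist (p : HPar) (a b : Fin 13) :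
    dist (HC p a) (HC p b) ^ 2 = (Hx p a - Hx p b) ^ 2 + (Hy p a - Hy p b) ^ 2 := by
  rw [dist_eq_norm, Complex.sq_norm, Complex.normSq_apply, HC, HC]
  simp only [Complex.sub_re, Complex.sub_im]
  ring

theorem HC_tan (p : HPar) {a b : Fin 13}
    (h : (Hx p a - Hx p b) ^ 2 + (Hy p a - Hy p b) ^ 2 = (Hr p a + Hr p b) ^ 2) :
    dist (HC p a) (HC p b) = Hr p a + Hr p b := by
  have h1 := Hr_pos p a
  have h2 := Hr_pos p b
  rw [← HC_dist] at h
  exact (pow_left_inj₀ dist_nonneg (by linarith) (by norm_num)).1 h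

theorem HC_or (p : HPar) {a b c : Fin 13}
    (h : 0 < (Hx p b - Hx p a) * (Hy p c - Hy p a) - (Hy p b - Hy p a) * (Hx p c - Hx p a)) :
    0 < ((starRingEnd ℂ) (HC p b - HC p a) * (HC p c - HC p a)).im := by
  refine lt_of_lt_of_eq h ?_
  simp only [HC, Complex.mul_im, Complex.conj_re, Complex.conj_im, Complex.sub_re, Complex.sub_im]
  ring

theorem HC_bd (p : HPar) {v : Fin 13} (hv : ¬ v.val < 4) : ‖HC p v‖ + Hr p v = 1 := by
  obtain ⟨h1, h2⟩ := H_bd p v hv
  rw [← HC_sq] at h1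
  have := (pow_left_inj₀ (norm_nonneg _) h2 (by norm_num)).1 h1
  linarith

theorem HC_int (p : HPar) {v : Fin 13} (hv : v.val < 4) : ‖HC p v‖ + Hr p v < 1 := by
  obtain ⟨h1, h2⟩ := H_int p v hv
  rw [← HC_sq] at h1
  have := lt_of_pow_lt_pow_left₀ 2 h2 h1
  linarith

/-- The packing. -/
noncomputable def HPar.P (p : HPar) : DiscPacking K where
  center := HC p
  radius := Hr p
  radius_pos := Hr_pos p
  inside v := by
    by_cases hv : v.val < 4
    · exact (HC_int p hv).le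
    · exact (HC_bd p hv).le
  interior_inside v hv := HC_int p (interior_iff.1 hv)
  tangent := by
    refine forall_K (P := fun a b _ => dist (HC p a) (HC p b) = Hr p a + Hr p b) ?_
    intro f hf
    obtain ⟨h1, h2, h3⟩ := H_tan p f hf
    exact ⟨HC_tan p h1, HC_tan p h2, HC_tan p h3⟩
  oriented := by
    refine forall_K (P := fun a b c =>
      0 < ((starRingEnd ℂ) (HC p b - HC p a) * (HC p c - HC p a)).im) ?_
    intro f hf
    have h := H_or p f hf
    refine ⟨HC_or p h, HC_or p ?_, HC_or p ?_⟩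
    · refine lt_of_lt_of_eq h ?_
      ring
    · refine lt_of_lt_of_eq h ?_
      ring

theorem HP_sum (p : HPar) (v : Fin 13) (hv : v = 1 ∨ v = 2 ∨ v = 3) :
    p.P.angleSum v = 4 * π := by
  have i1 := p.s_lo
  have i2 := p.s_hi
  have i3 := p.r_lo
  have i4 := p.r_hi
  have i5 := p.k_lo
  have i6 := p.k_hi
  have i7 := p.h_lo
  have i8 := p.h_hi
  have q1 : 0.49 < p.q := by
    unfold HPar.q
    nlinarith [p.k_lo, p.k_hi]
  have q2 : p.q ≤ 1 / 2 := by
    unfold HPar.q
    nlinarith [p.k_lo, p.k_hi]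
  have h5 : p.s * p.r ≤ 0.01 := by nlinarith
  have h6 : 0 < p.s * p.r := by
    have : 0 < p.s := by linarith
    have : 0 < p.r := by linarith
    positivity
  have c1 : 2 * ((2 - p.s) * p.r * (p.s * p.r)) <
      (p.s * p.r + (2 - p.s) * p.r) * (p.s * p.r + p.s * p.r) := by
    have e : (p.s * p.r + (2 - p.s) * p.r) * (p.s * p.r + p.s * p.r) -
        2 * ((2 - p.s) * p.r * (p.s * p.r)) = 2 * (p.s * p.r) ^ 2 := by ring
    have : 0 < (p.s * p.r) ^ 2 := by positivity
    linarith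
  have c2 : 3 * ((p.s * p.r + p.h) * (p.s * p.r + p.q)) ≤ 4 * (p.h * p.q) := by
    set x := p.s * p.r
    nlinarith [mul_pos (show 0 < p.h - 0.49 by linarith) (show 0 < p.q - 0.49 by linarith),
      mul_nonneg h6.le (show 0 ≤ 0.01 - x by linarith)]
  have c3 : 3 * ((p.s * p.r + p.q) * (p.s * p.r + p.q)) ≤ 4 * (p.q * p.q) := by
    set x := p.s * p.r
    nlinarith [mul_pos (show 0 < p.q - 0.49 by linarith) (show 0 < p.q - 0.49 by linarith),
      mul_nonneg h6.le (show 0 ≤ 0.01 - x by linarith)]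
  rcases hv with rfl | rfl | rfl
  · exact disc_branch p.P (v := 1) (p1 := 3) (p2 := 6) (p3 := 7) (p4 := 10) (p5 := 4) (p6 := 2)
      (by decide) rfl (by decide +kernel) (p.s * p.r) p.h p.q ((2 - p.s) * p.r)
      ⟨rfl, rfl, rfl, rfl, rfl, rfl, rfl, rfl⟩ c1 c2 c3
  · exact disc_branch p.P (v := 2) (p1 := 1) (p2 := 4) (p3 := 8) (p4 := 11) (p5 := 5) (p6 := 3)
      (by decide) rfl (by decide +kernel) (p.s * p.r) p.h p.q ((2 - p.s) * p.r)
      ⟨rfl, rfl, rfl, rfl, rfl, rfl, rfl, rfl⟩ c1 c2 c3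
  · exact disc_branch p.P (v := 3) (p1 := 2) (p2 := 5) (p3 := 9) (p4 := 12) (p5 := 6) (p6 := 1)
      (by decide) rfl (by decide +kernel) (p.s * p.r) p.h p.q ((2 - p.s) * p.r)
      ⟨rfl, rfl, rfl, rfl, rfl, rfl, rfl, rfl⟩ c1 c2 c3

theorem count_B (v : Fin 13) : B.count v = if v = 1 ∨ v = 2 ∨ v = 3 then 1 else 0 := by
  revert v
  decide +kernel

theorem K_branch : IsBranchStructure K B := by
  obtain ⟨p⟩ := exists_HPar
  refine ⟨?_, p.P, ?_, ?_⟩
  · intro v hv
    rw [interior_iff]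
    revert v
    decide +kernel
  · intro v hv
    rw [interior_iff] at hv
    exact HC_bd p hv
  · intro v hv
    rw [interior_iff] at hv
    rw [count_B]
    by_cases h0 : v = 0
    · rw [h0, disc_sum0, if_neg (by decide)]
      push_cast; ring
    · have h : v = 1 ∨ v = 2 ∨ v = 3 := by
        have : v.val ≠ 0 := fun h => h0 (Fin.ext h)
        rcases (by omega : v.val = 1 ∨ v.val = 2 ∨ v.val = 3) with h | h | h
        · exact Or.inl (Fin.ext h)
        · exact Or.inr (Or.inl (Fin.ext h))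
        · exact Or.inr (Or.inr (Fin.ext h))
      rw [HP_sum p v h, if_pos h]
      push_cast; ring

end Pool.Agent.J6H86.BranchPack
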