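import Pool.Agent.J6H86.BranchPack.Lorentz

set_option autoImplicit false

/-!
# Angle sums for the disc with thirteen vertices
-/

namespace Pool.Agent.J6H86.BranchPack

open Real InnerProductGeometry

theorem sum_link_int {v : Fin 13} (hv : v.val < 4) (f : Fin 13 × Fin 13 → ℝ) :
    ∑ q ∈ link K v, f q = (((petals v).zip ((petals v).rotate 1)).map f).sum := by
  rw [link_int hv, cyclePairs, List.sum_toFinset]
  refine List.Nodup.of_map Prod.fst ?_
  rw [List.map_fst_zip (by simp)]
  exact petals_nodup v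

theorem sum_link_bd {v : Fin 13} (hv : ¬ v.val < 4) (f : Fin 13 × Fin 13 → ℝ) :
    ∑ q ∈ link K v, f q = (((petals v).zip (petals v).tail).map f).sum := by
  rw [link_bd hv, pathPairs, List.sum_toFinset]
  refine List.Nodup.of_map Prod.snd ?_
  rw [List.map_snd_zip (by simp)]
  exact (petals_nodup v).sublist (List.tail_sublist _)

theorem petal_adj : ∀ v : Fin 13, ∀ a ∈ petals v, ∃ b, isFace v a b = true ∨ isFace v b a = true := by
  decide +kernel

section

variable (D : LData K)

theorem ang_range {v a b : Fin 13} (h : isFace v a b = true) :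
    0 < D.half.ang v a b ∧ D.half.ang v a b < π := by
  obtain ⟨h1, h2⟩ := D.face_arg K_complex (mem_K.2 h)
  rw [h1]
  exact arg_pos_of h2

theorem ang_arccos {v a b : Fin 13} (h : isFace v a b = true) :
    D.half.ang v a b = arccos (D.cs v a b) := by
  obtain ⟨h1, h2, h3, h4, h5⟩ := D.face_data K_complex (mem_K.2 h)
  exact D.ang_eq h1 h2 h3 h4 h5

theorem t_ne {v a : Fin 13} (ha : a ∈ petals v) : D.t v a ≠ 0 := by
  obtain ⟨b, hb⟩ := petal_adj v a ha
  have : inner ℝ (D.X v) (D.X a) = D.w v * D.w a - 1 ∧ 0 < D.w v + D.w a := by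
    rcases hb with hb | hb
    · have := D.face_data K_complex (mem_K.2 hb)
      exact ⟨this.1, this.2.2.2.1⟩
    · have := D.face_data K_complex (mem_K.2 hb)
      exact ⟨this.2.1, this.2.2.2.2⟩
  have hn := D.norm_t this.1 this.2
  intro h0
  rw [h0, norm_zero] at hn
  have : 0 < (D.w v + D.w a) / (D.s v * D.s a) :=
    div_pos this.2 (mul_pos (D.s_pos v) (D.s_pos a))
  linarith

theorem int_mult {v : Fin 13} (hv : v.val < 4) :
    ∃ k : ℤ, ∑ q ∈ link K v, D.half.ang v q.1 q.2 = 2 * π * k :=
  D.cycle K_complex v (petals v) (petals_nodup v) (link_int hv) (fun _ ha => t_ne D ha)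

theorem eq_of_range {S : ℝ} {k : ℤ} (h : S = 2 * π * k) (n : ℤ) (h1 : 2 * π * (n - 1) < S)
    (h2 : S < 2 * π * (n + 1)) : S = 2 * π * n := by
  have hpi := Real.pi_pos
  rw [h] at h1 h2 ⊢
  have a1 : ((n : ℝ) - 1) < k := lt_of_mul_lt_mul_left h1 (by positivity)
  have a2 : (k : ℝ) < n + 1 := lt_of_mul_lt_mul_left h2 (by positivity)
  have b1 : n - 1 < k := by exact_mod_cast a1
  have b2 : k < n + 1 := by exact_mod_cast a2
  have : k = n := by omega
  rw [this]

theorem sum0 : ∑ q ∈ link K 0, D.half.ang 0 q.1 q.2 = 2 * π := by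
  obtain ⟨k, hk⟩ := int_mult D (v := 0) (by decide)
  have hs := sum_link_int (v := 0) (by decide) (fun q => D.half.ang 0 q.1 q.2)
  have e : (petals 0).zip ((petals 0).rotate 1) = [(1, 2), (2, 3), (3, 1)] := by decide +kernel
  rw [e] at hs
  simp only [List.map_cons, List.map_nil, List.sum_cons, List.sum_nil, add_zero] at hs
  have r1 := ang_range D (v := 0) (a := 1) (b := 2) (by decide +kernel)
  have r2 := ang_range D (v := 0) (a := 2) (b := 3) (by decide +kernel)
  have r3 := ang_range D (v := 0) (a := 3) (b := 1) (by decide +kernel)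
  have := eq_of_range hk 1 (by rw [hs]; push_cast; linarith) (by rw [hs]; push_cast; linarith)
  rw [this]
  push_cast
  ring

/-- The sum at a branch vertex. -/
theorem sum_branch {v p1 p2 p3 p4 p5 p6 : Fin 13} (hv : v.val < 4)
    (e : petals v = [0, p1, p2, p3, p4, p5, p6])
    (hlo : 2 * π < D.half.ang v 0 p1 + D.half.ang v p1 p2 + D.half.ang v p2 p3 +
      D.half.ang v p3 p4 + D.half.ang v p4 p5 + D.half.ang v p5 p6 + D.half.ang v p6 0)
    (hhi : D.half.ang v 0 p1 + D.half.ang v p1 p2 + D.half.ang v p2 p3 +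
      D.half.ang v p3 p4 + D.half.ang v p4 p5 + D.half.ang v p5 p6 + D.half.ang v p6 0 < 6 * π) :
    ∑ q ∈ link K v, D.half.ang v q.1 q.2 = 4 * π := by
  obtain ⟨k, hk⟩ := int_mult D hv
  have hs := sum_link_int hv (fun q => D.half.ang v q.1 q.2)
  rw [e] at hs
  simp only [List.rotate_cons_succ, List.rotate_zero, List.zip_cons_cons, List.cons_append,
    List.nil_append, List.zip_nil_right, List.map_cons, List.map_nil, List.sum_cons, List.sum_nil,
    add_zero] at hs
  have := eq_of_range hk 2 (by rw [hs]; push_cast; linarith) (by rw [hs]; push_cast; linarith)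
  rw [this]
  push_cast
  ring

theorem K_equator {v : Fin 13} (hv : ¬ v.val < 4) : D.X v 2 = 0 :=
  D.equator v (by rw [interior_iff]; exact hv)

theorem bd_mult {v x y : Fin 13} {l : List (Fin 13)} (hv : ¬ v.val < 4) (hx : ¬ x.val < 4)
    (hy : ¬ y.val < 4) (e : petals v = x :: (l ++ [y]))
    (hneg : inner ℝ (D.X x) (D.X y) * (1 + D.w v ^ 2) <
      inner ℝ (D.X v) (D.X x) * inner ℝ (D.X v) (D.X y)) :
    ∃ k : ℤ, ∑ q ∈ link K v, D.half.ang v q.1 q.2 = π + 2 * π * k := by
  refine D.path K_complex v x y l (by rw [← e]; exact petals_nodup v) (by rw [← e]; exact link_bd hv)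
    (fun a ha => t_ne D (by rw [e]; exact ha)) ?_ hneg
  unfold det3
  rw [K_equator D hv, K_equator D hx, K_equator D hy]
  ring

theorem eq_of_range' {S : ℝ} {k : ℤ} (h : S = π + 2 * π * k) (h1 : 0 < S)
    (h2 : S < 3 * π) : S = π := by
  have hpi := Real.pi_pos
  have h' : S - π = 2 * π * k := by linarith
  have := eq_of_range h' 0 (by push_cast; linarith) (by push_cast; linarith)
  push_cast at this
  linarith

theorem sum_bd3 {v x z y : Fin 13} (hv : ¬ v.val < 4) (hx : ¬ x.val < 4)
    (hy : ¬ y.val < 4) (e : petals v = [x, z, y])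
    (h1 : isFace v x z = true) (h2 : isFace v z y = true)
    (hneg : inner ℝ (D.X x) (D.X y) * (1 + D.w v ^ 2) <
      inner ℝ (D.X v) (D.X x) * inner ℝ (D.X v) (D.X y)) :
    ∑ q ∈ link K v, D.half.ang v q.1 q.2 = π := by
  obtain ⟨k, hk⟩ := bd_mult D hv hx hy (l := [z]) (by rw [e]; rfl) hneg
  have hs := sum_link_bd hv (fun q => D.half.ang v q.1 q.2)
  rw [e] at hs
  simp only [List.tail_cons, List.zip_cons_cons,
    List.zip_nil_right, List.map_cons, List.map_nil, List.sum_cons, List.sum_nil,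
    add_zero] at hs
  have r1 := ang_range D h1
  have r2 := ang_range D h2
  exact eq_of_range' hk (by rw [hs]; linarith) (by rw [hs]; linarith)

theorem sum_bd4 {v x z z' y : Fin 13} (hv : ¬ v.val < 4) (hx : ¬ x.val < 4)
    (hy : ¬ y.val < 4) (e : petals v = [x, z, z', y])
    (h1 : isFace v x z = true) (h2 : isFace v z z' = true) (h3 : isFace v z' y = true)
    (hneg : inner ℝ (D.X x) (D.X y) * (1 + D.w v ^ 2) <
      inner ℝ (D.X v) (D.X x) * inner ℝ (D.X v) (D.X y)) :
    ∑ q ∈ link K v, D.half.ang v q.1 q.2 = π := by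
  obtain ⟨k, hk⟩ := bd_mult D hv hx hy (l := [z, z']) (by rw [e]; rfl) hneg
  have hs := sum_link_bd hv (fun q => D.half.ang v q.1 q.2)
  rw [e] at hs
  simp only [List.tail_cons, List.zip_cons_cons,
    List.zip_nil_right, List.map_cons, List.map_nil, List.sum_cons, List.sum_nil,
    add_zero] at hs
  have r1 := ang_range D h1
  have r2 := ang_range D h2
  have r3 := ang_range D h3
  exact eq_of_range' hk (by rw [hs]; linarith) (by rw [hs]; linarith)

end

end Pool.Agent.J6H86.BranchPack
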