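import Pool.Agent.J6H86.BranchPack.Sphere

set_option autoImplicit false

/-!
# Packings on the sphere from unit space-like vectors
-/

namespace Pool.Agent.J6H86.BranchPack

open Real InnerProductGeometry

theorem gram (u a b c d : E3) : det3 u a b * det3 u c d =
    inner ℝ u u * (inner ℝ a c * inner ℝ b d - inner ℝ a d * inner ℝ b c)
    - inner ℝ u c * (inner ℝ a u * inner ℝ b d - inner ℝ a d * inner ℝ b u)
    + inner ℝ u d * (inner ℝ a u * inner ℝ b c - inner ℝ a c * inner ℝ b u) := by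
  simp only [inner_E3, det3]
  ring

theorem pluck (u a b c : E3) :
    inner ℝ a b * det3 u b c + det3 u a b * inner ℝ b c - inner ℝ b b * det3 u a c =
      det3 a b c * inner ℝ u b := by
  simp only [inner_E3, det3]
  ring

/-- The complex number attached to two tangent vectors at `u`. -/
noncomputable def tq (u a b : E3) : ℂ := ⟨inner ℝ a b, det3 u a b⟩

theorem tq_normSq {u a b : E3} (hu : inner ℝ u u = (1 : ℝ)) (ha : inner ℝ u a = (0 : ℝ))
    (hb : inner ℝ u b = (0 : ℝ)) : ‖tq u a b‖ ^ 2 = (‖a‖ * ‖b‖) ^ 2 := by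
  rw [← Complex.normSq_eq_norm_sq, Complex.normSq_apply, mul_pow, ← real_inner_self_eq_norm_sq,
    ← real_inner_self_eq_norm_sq]
  have h := gram u a b a b
  have ha' : inner ℝ a u = (0 : ℝ) := by rw [real_inner_comm]; exact ha
  have hb' : inner ℝ b u = (0 : ℝ) := by rw [real_inner_comm]; exact hb
  rw [hu, ha, hb, ha', hb'] at h
  have hc : inner ℝ b a = (inner ℝ a b : ℝ) := real_inner_comm _ _
  rw [hc] at h
  simp only [tq]
  linarith

theorem tq_norm {u a b : E3} (hu : inner ℝ u u = (1 : ℝ)) (ha : inner ℝ u a = (0 : ℝ))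
    (hb : inner ℝ u b = (0 : ℝ)) : ‖tq u a b‖ = ‖a‖ * ‖b‖ :=
  (sq_eq_sq₀ (norm_nonneg _) (by positivity)).1 (tq_normSq hu ha hb)

theorem tq_mul {u a b c : E3} (hu : inner ℝ u u = (1 : ℝ)) (ha : inner ℝ u a = (0 : ℝ))
    (hb : inner ℝ u b = (0 : ℝ)) (hc : inner ℝ u c = (0 : ℝ)) :
    tq u a b * tq u b c = ((inner ℝ b b : ℝ) : ℂ) * tq u a c := by
  have ha' : inner ℝ a u = (0 : ℝ) := by rw [real_inner_comm]; exact ha
  have hb' : inner ℝ b u = (0 : ℝ) := by rw [real_inner_comm]; exact hb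
  have h1 := gram u a b b c
  have h2 := pluck u a b c
  rw [hu, hb, hc, ha', hb'] at h1
  rw [hb] at h2
  apply Complex.ext
  · simp only [tq, Complex.mul_re, Complex.ofReal_re, Complex.ofReal_im]
    linarith
  · simp only [tq, Complex.mul_im, Complex.ofReal_re, Complex.ofReal_im]
    linarith

theorem tq_self (u a : E3) : (tq u a a).arg = 0 := by
  have h : tq u a a = ((inner ℝ a a : ℝ) : ℂ) := by
    apply Complex.ext
    · simp only [tq, Complex.ofReal_re]
    · simp only [tq, Complex.ofReal_im, det3]; ring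
  rw [h]
  exact Complex.arg_ofReal_of_nonneg real_inner_self_nonneg

theorem inner_toward (u x : E3) (hu : inner ℝ u u = (1 : ℝ)) : inner ℝ u (toward u x) = (0 : ℝ) := by
  unfold toward
  rw [inner_sub_right, inner_smul_right, hu]
  ring

theorem inner_toward_toward (u x y : E3) (hu : inner ℝ u u = (1 : ℝ)) :
    inner ℝ (toward u x) (toward u y) = inner ℝ x y - inner ℝ u x * inner ℝ u y := by
  unfold toward
  rw [inner_sub_right, inner_sub_left, inner_sub_left, inner_smul_right, inner_smul_right,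
    inner_smul_left, inner_smul_left, hu, real_inner_comm u x]
  simp only [conj_trivial]
  ring

theorem det3_toward (u x y : E3) : det3 u (toward u x) (toward u y) = det3 u x y := by
  simp only [toward, det3, inner_E3, PiLp.sub_apply, PiLp.smul_apply, smul_eq_mul]
  ring

variable {V : Type} [Fintype V] [DecidableEq V]

/-- Unit space-like vectors `(X v, w v)` describing the discs of one half of a packing. -/
structure LData (F : Faces V) where
  X : V → E3
  w : V → ℝ
  unit : ∀ v, inner ℝ (X v) (X v) = 1 + w v ^ 2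
  tangent : ∀ a b c, (a, b, c) ∈ F → inner ℝ (X a) (X b) = w a * w b - 1
  wpos : ∀ a b c, (a, b, c) ∈ F → 0 < w a + w b
  oriented : ∀ a b c, (a, b, c) ∈ F → 0 < det3 (X a) (X b) (X c)
  equator : ∀ v, ¬ IsInterior F v → X v 2 = 0

namespace LData

variable {F : Faces V} (D : LData F)

/-- The scaling factor. -/
noncomputable def s (v : V) : ℝ := √(1 + D.w v ^ 2)

theorem s_pos (v : V) : 0 < D.s v := Real.sqrt_pos.2 (by positivity)

theorem s_sq (v : V) : D.s v ^ 2 = 1 + D.w v ^ 2 := Real.sq_sqrt (by positivity)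

theorem cos_sum (a b : V) :
    cos ((π / 2 - arctan (D.w a)) + (π / 2 - arctan (D.w b))) =
      (D.w a * D.w b - 1) / (D.s a * D.s b) := by
  have e : (π / 2 - arctan (D.w a)) + (π / 2 - arctan (D.w b)) =
      π - (arctan (D.w a) + arctan (D.w b)) := by ring
  rw [e, Real.cos_pi_sub, Real.cos_add, Real.cos_arctan, Real.cos_arctan, Real.sin_arctan,
    Real.sin_arctan]
  have ha := D.s_pos a
  have hb := D.s_pos b
  unfold s at *
  field_simp
  ring

/-- The centre of the disc. -/
noncomputable def U (v : V) : E3 := (1 / D.s v) • D.X v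

theorem inner_U (a b : V) : inner ℝ (D.U a) (D.U b) = inner ℝ (D.X a) (D.X b) / (D.s a * D.s b) := by
  unfold U
  rw [inner_smul_left, inner_smul_right]
  have ha := D.s_pos a
  have hb := D.s_pos b
  simp only [conj_trivial]
  field_simp

theorem inner_U_self (v : V) : inner ℝ (D.U v) (D.U v) = (1 : ℝ) := by
  rw [inner_U, D.unit, ← D.s_sq, pow_two]
  have := D.s_pos v
  field_simp

theorem norm_U (v : V) : ‖D.U v‖ = 1 := by
  have h := D.inner_U_self v
  rw [real_inner_self_eq_norm_sq] at h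
  nlinarith [norm_nonneg (D.U v)]

theorem det3_U (a b c : V) :
    det3 (D.U a) (D.U b) (D.U c) = det3 (D.X a) (D.X b) (D.X c) / (D.s a * D.s b * D.s c) := by
  simp only [U, det3, PiLp.smul_apply, smul_eq_mul]
  have ha := D.s_pos a
  have hb := D.s_pos b
  have hc := D.s_pos c
  field_simp

/-- The half packing. -/
noncomputable def half : Half F where
  center := D.U
  radius v := π / 2 - arctan (D.w v)
  unit := D.norm_U
  radius_pos v := by linarith [Real.arctan_lt_pi_div_two (D.w v)]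
  radius_lt v := by linarith [Real.neg_pi_div_two_lt_arctan (D.w v)]
  tangent a b c h := by
    unfold InnerProductGeometry.angle
    rw [D.norm_U, D.norm_U, mul_one, div_one, inner_U, D.tangent a b c h, ← cos_sum,
      Real.arccos_cos]
    · linarith [Real.arctan_lt_pi_div_two (D.w a), Real.arctan_lt_pi_div_two (D.w b)]
    · have h1 : -D.w b ≤ D.w a := by linarith [D.wpos a b c h]
      have h2 := Real.arctan_strictMono.monotone h1
      rw [Real.arctan_neg] at h2
      linarith
  oriented a b c h := by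
    rw [det3_U]
    have ha := D.s_pos a
    have hb := D.s_pos b
    have hc := D.s_pos c
    exact div_pos (D.oriented a b c h) (by positivity)
  equator v h := by
    simp only [U, PiLp.smul_apply, smul_eq_mul, D.equator v h, mul_zero]

/-- The tangent vector at `v` towards `a`. -/
noncomputable def t (v a : V) : E3 := toward (D.U v) (D.U a)

theorem inner_t {v a b : V} (h1 : inner ℝ (D.X v) (D.X a) = D.w v * D.w a - 1)
    (h2 : inner ℝ (D.X v) (D.X b) = D.w v * D.w b - 1)
    (h3 : inner ℝ (D.X a) (D.X b) = D.w a * D.w b - 1) :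
    inner ℝ (D.t v a) (D.t v b) = ((D.w v + D.w a) * (D.w v + D.w b) - 2 * (1 + D.w v ^ 2)) /
      (D.s v ^ 2 * D.s a * D.s b) := by
  unfold t
  rw [inner_toward_toward _ _ _ (D.inner_U_self v), inner_U, inner_U, inner_U, h1, h2, h3]
  have hv := D.s_pos v
  have ha := D.s_pos a
  have hb := D.s_pos b
  have e : (D.w a * D.w b - 1) / (D.s a * D.s b) -
      (D.w v * D.w a - 1) / (D.s v * D.s a) * ((D.w v * D.w b - 1) / (D.s v * D.s b)) =
      (D.s v ^ 2 * (D.w a * D.w b - 1) - (D.w v * D.w a - 1) * (D.w v * D.w b - 1)) /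
        (D.s v ^ 2 * D.s a * D.s b) := by
    field_simp
  rw [e, D.s_sq]
  congr 1
  ring

theorem norm_t {v a : V} (h1 : inner ℝ (D.X v) (D.X a) = D.w v * D.w a - 1)
    (h : 0 < D.w v + D.w a) : ‖D.t v a‖ = (D.w v + D.w a) / (D.s v * D.s a) := by
  have hv := D.s_pos v
  have ha := D.s_pos a
  have hs : ‖D.t v a‖ ^ 2 = ((D.w v + D.w a) / (D.s v * D.s a)) ^ 2 := by
    rw [← real_inner_self_eq_norm_sq]
    unfold t
    rw [inner_toward_toward _ _ _ (D.inner_U_self v), inner_U_self, inner_U, h1, div_pow, mul_pow,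
      D.s_sq v, D.s_sq a, ← pow_two, div_pow, mul_pow, D.s_sq v, D.s_sq a]
    have e1 : (1 + D.w v ^ 2) ≠ 0 := by positivity
    have e2 : (1 + D.w a ^ 2) ≠ 0 := by positivity
    field_simp
    ring
  exact (sq_eq_sq₀ (norm_nonneg _) (by positivity)).1 hs

/-- The cosine of the face angle. -/
noncomputable def cs (v a b : V) : ℝ :=
  1 - 2 * (1 + D.w v ^ 2) / ((D.w v + D.w a) * (D.w v + D.w b))

theorem ang_eq {v a b : V} (h1 : inner ℝ (D.X v) (D.X a) = D.w v * D.w a - 1)
    (h2 : inner ℝ (D.X v) (D.X b) = D.w v * D.w b - 1)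
    (h3 : inner ℝ (D.X a) (D.X b) = D.w a * D.w b - 1)
    (ha : 0 < D.w v + D.w a) (hb : 0 < D.w v + D.w b) :
    D.half.ang v a b = arccos (D.cs v a b) := by
  change angle (D.t v a) (D.t v b) = _
  unfold InnerProductGeometry.angle
  rw [D.inner_t h1 h2 h3, D.norm_t h1 ha, D.norm_t h2 hb]
  congr 1
  have e1 := D.s_pos v
  have e2 := D.s_pos a
  have e3 := D.s_pos b
  unfold cs
  field_simp

theorem face_data (hF : IsOrientedComplex F) {v a b : V} (h : (v, a, b) ∈ F) :
    inner ℝ (D.X v) (D.X a) = D.w v * D.w a - 1 ∧ inner ℝ (D.X v) (D.X b) = D.w v * D.w b - 1 ∧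
    inner ℝ (D.X a) (D.X b) = D.w a * D.w b - 1 ∧ 0 < D.w v + D.w a ∧ 0 < D.w v + D.w b := by
  have h' := hF.rotate _ _ _ h
  have h'' := hF.rotate _ _ _ h'
  refine ⟨D.tangent _ _ _ h, ?_, D.tangent _ _ _ h', D.wpos _ _ _ h, ?_⟩
  · rw [real_inner_comm, D.tangent _ _ _ h'', mul_comm]
  · rw [add_comm]; exact D.wpos _ _ _ h''

theorem face_arg (hF : IsOrientedComplex F) {v a b : V} (h : (v, a, b) ∈ F) :
    D.half.ang v a b = (tq (D.U v) (D.t v a) (D.t v b)).arg ∧
      0 < (tq (D.U v) (D.t v a) (D.t v b)).im := by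
  have hpos : 0 < (tq (D.U v) (D.t v a) (D.t v b)).im := by
    change 0 < det3 (D.U v) (toward (D.U v) (D.U a)) (toward (D.U v) (D.U b))
    rw [det3_toward]
    exact D.half.oriented v a b h
  refine ⟨?_, hpos⟩
  change angle (D.t v a) (D.t v b) = _
  refine angle_eq_arg _ _ _ rfl ?_ hpos
  exact tq_norm (D.inner_U_self v) (inner_toward _ _ (D.inner_U_self v))
    (inner_toward _ _ (D.inner_U_self v))

theorem hmul (v : V) (S : Set V) (hS : ∀ a ∈ S, D.t v a ≠ 0) :
    ∀ a ∈ S, ∀ b ∈ S, ∀ c ∈ S, ∃ r : ℝ, 0 < r ∧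
      tq (D.U v) (D.t v a) (D.t v b) * tq (D.U v) (D.t v b) (D.t v c) =
        (r : ℂ) * tq (D.U v) (D.t v a) (D.t v c) := by
  intro a _ b hb c _
  refine ⟨inner ℝ (D.t v b) (D.t v b), ?_, ?_⟩
  · exact real_inner_self_pos.2 (hS b hb)
  · exact tq_mul (D.inner_U_self v) (inner_toward _ _ (D.inner_U_self v))
      (inner_toward _ _ (D.inner_U_self v)) (inner_toward _ _ (D.inner_U_self v))

theorem hne (v : V) (S : Set V) (hS : ∀ a ∈ S, D.t v a ≠ 0) :
    ∀ a ∈ S, ∀ b ∈ S, tq (D.U v) (D.t v a) (D.t v b) ≠ 0 := by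
  intro a ha b hb h
  have := tq_norm (D.inner_U_self v) (inner_toward (D.U v) (D.U a) (D.inner_U_self v))
    (inner_toward (D.U v) (D.U b) (D.inner_U_self v))
  have h' : ‖tq (D.U v) (D.t v a) (D.t v b)‖ = ‖D.t v a‖ * ‖D.t v b‖ := this
  rw [h, norm_zero] at h'
  have h1 := norm_pos_iff.2 (hS a ha)
  have h2 := norm_pos_iff.2 (hS b hb)
  have := mul_pos h1 h2
  linarith

theorem cycle (hF : IsOrientedComplex F) (v : V) (L : List V) (hL : L.Nodup)
    (hlink : link F v = cyclePairs L) (hS : ∀ a ∈ L, D.t v a ≠ 0) :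
    ∃ k : ℤ, ∑ q ∈ link F v, D.half.ang v q.1 q.2 = 2 * π * k := by
  obtain ⟨k, hk⟩ := cycle_sum {a | a ∈ L} (fun a b => tq (D.U v) (D.t v a) (D.t v b))
    (D.hne v _ hS) (D.hmul v _ hS) (fun a _ => tq_self _ _) L hL (fun a ha => ha)
  refine ⟨k, ?_⟩
  rw [← hk, hlink]
  refine Finset.sum_congr rfl fun q hq => ?_
  rw [← hlink, mem_link] at hq
  exact (D.face_arg hF hq).1

theorem path (hF : IsOrientedComplex F) (v x y : V) (l : List V) (hL : (x :: (l ++ [y])).Nodup)
    (hlink : link F v = pathPairs (x :: (l ++ [y]))) (hS : ∀ a ∈ (x :: (l ++ [y])), D.t v a ≠ 0)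
    (hdet : det3 (D.X v) (D.X x) (D.X y) = 0)
    (hneg : inner ℝ (D.X x) (D.X y) * (1 + D.w v ^ 2) <
      inner ℝ (D.X v) (D.X x) * inner ℝ (D.X v) (D.X y)) :
    ∃ k : ℤ, ∑ q ∈ link F v, D.half.ang v q.1 q.2 = π + 2 * π * k := by
  have harg : (tq (D.U v) (D.t v x) (D.t v y)).arg = π := by
    rw [Complex.arg_eq_pi_iff]
    constructor
    · change inner ℝ (D.t v x) (D.t v y) < (0 : ℝ)
      unfold t
      rw [inner_toward_toward _ _ _ (D.inner_U_self v), inner_U, inner_U, inner_U]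
      have e1 := D.s_pos v
      have e2 := D.s_pos x
      have e3 := D.s_pos y
      have e : inner ℝ (D.X x) (D.X y) / (D.s x * D.s y) -
          inner ℝ (D.X v) (D.X x) / (D.s v * D.s x) * (inner ℝ (D.X v) (D.X y) / (D.s v * D.s y)) =
          (inner ℝ (D.X x) (D.X y) * D.s v ^ 2 - inner ℝ (D.X v) (D.X x) * inner ℝ (D.X v) (D.X y))
            / (D.s v ^ 2 * D.s x * D.s y) := by
        field_simp
      rw [e, D.s_sq]
      exact div_neg_of_neg_of_pos (by linarith) (by positivity)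
    · change det3 (D.U v) (toward (D.U v) (D.U x)) (toward (D.U v) (D.U y)) = 0
      rw [det3_toward, det3_U, hdet, zero_div]
  have hnd : (x :: l).Nodup := by
    have h : (x :: (l ++ [y])) = (x :: l) ++ [y] := rfl
    rw [h] at hL
    exact (List.nodup_append.1 hL).1
  obtain ⟨k, hk⟩ := path_sum {a | a ∈ (x :: (l ++ [y]))}
    (fun a b => tq (D.U v) (D.t v a) (D.t v b))
    (D.hne v _ hS) (D.hmul v _ hS) x y l hnd (by simp) (by simp) (fun a ha => by simp [ha]) harg
  refine ⟨k, ?_⟩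
  rw [← hk, hlink]
  refine Finset.sum_congr rfl fun q hq => ?_
  rw [← hlink, mem_link] at hq
  exact (D.face_arg hF hq).1

end LData

end Pool.Agent.J6H86.BranchPack
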