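import Pool.Agent.J6H86.BranchPack.Pack4

set_option autoImplicit false

/-!
# The two packings are not Möbius equivalent
-/

namespace Pool.Agent.J6H86.BranchPack

open Real InnerProductGeometry

/-- The unit sphere. -/
abbrev S2 := Metric.sphere (0 : E3) 1

theorem mem_disc_iff (D : LData K) (v : Fin 13) (x : S2) :
    x ∈ (D.half.toDouble K_complex).disc (copy K false v) ↔ D.w v ≤ inner ℝ (D.X v) (x : E3) := by
  have hx : ‖(x : E3)‖ = 1 := by simpa using x.2
  have e : (D.half.toDouble K_complex).center (copy K false v) = D.U v :=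
    D.half.copy_center false v
  change angle ((D.half.toDouble K_complex).center (copy K false v)) (x : E3) ≤
    π / 2 - arctan (D.w v) ↔ _
  rw [e]
  have hs := D.s_pos v
  have h1 := Real.arctan_lt_pi_div_two (D.w v)
  have h2 := Real.neg_pi_div_two_lt_arctan (D.w v)
  rw [← Real.strictAntiOn_cos.le_iff_ge
    (show π / 2 - arctan (D.w v) ∈ Set.Icc 0 π from ⟨by linarith, by linarith⟩)
    (show angle (D.U v) (x : E3) ∈ Set.Icc 0 π from ⟨angle_nonneg _ _, angle_le_pi _ _⟩),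
    Real.cos_pi_div_two_sub, Real.sin_arctan, cos_angle, D.norm_U, hx, mul_one, div_one, LData.U,
    inner_smul_left, conj_trivial]
  change D.w v / D.s v ≤ 1 / D.s v * _ ↔ _
  rw [div_le_iff₀ hs]
  have : 1 / D.s v * inner ℝ (D.X v) (x : E3) * D.s v = inner ℝ (D.X v) (x : E3) := by
    field_simp
  rw [this]

/-- The point where two discs touch. -/
noncomputable def tp (D : LData K) (a b : Fin 13) : E3 := (1 / (D.w a + D.w b)) • (D.X a + D.X b)

theorem inner_tp (D : LData K) {a b c : Fin 13} (h : isFace a b c = true) (x : E3) :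
    inner ℝ (tp D a b) x * (D.w a + D.w b) = inner ℝ (D.X a) x + inner ℝ (D.X b) x := by
  obtain ⟨_, _, _, h4, _⟩ := D.face_data K_complex (mem_K.2 h)
  unfold tp
  rw [inner_smul_left, inner_add_left, conj_trivial]
  field_simp

theorem tp_norm (D : LData K) {a b c : Fin 13} (h : isFace a b c = true) : ‖tp D a b‖ = 1 := by
  obtain ⟨h1, _, _, h4, _⟩ := D.face_data K_complex (mem_K.2 h)
  have h5 := inner_tp D h (D.X a)
  have h6 := inner_tp D h (D.X b)
  have h7 := inner_tp D h (tp D a b)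
  rw [real_inner_comm (tp D a b) (D.X a), real_inner_comm (tp D a b) (D.X b)] at h7
  rw [D.unit] at h5 h6
  rw [real_inner_comm (D.X a) (D.X b), h1] at h5
  rw [h1] at h6
  have e1 : inner ℝ (tp D a b) (D.X a) = D.w a := by
    have : inner ℝ (tp D a b) (D.X a) * (D.w a + D.w b) = D.w a * (D.w a + D.w b) := by
      rw [h5]; ring
    exact mul_right_cancel₀ h4.ne' this
  have e2 : inner ℝ (tp D a b) (D.X b) = D.w b := by
    have : inner ℝ (tp D a b) (D.X b) * (D.w a + D.w b) = D.w b * (D.w a + D.w b) := by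
      rw [h6]; ring
    exact mul_right_cancel₀ h4.ne' this
  rw [e1, e2] at h7
  have e3 : inner ℝ (tp D a b) (tp D a b) = (1 : ℝ) := by
    have : inner ℝ (tp D a b) (tp D a b) * (D.w a + D.w b) = 1 * (D.w a + D.w b) := by
      rw [h7]; ring
    exact mul_right_cancel₀ h4.ne' this
  rw [real_inner_self_eq_norm_sq] at e3
  nlinarith [norm_nonneg (tp D a b)]

theorem tp_inner (D : LData K) {a b c : Fin 13} (h : isFace a b c = true) :
    inner ℝ (D.X a) (tp D a b) = D.w a ∧ inner ℝ (D.X b) (tp D a b) = D.w b := by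
  obtain ⟨h1, _, _, h4, _⟩ := D.face_data K_complex (mem_K.2 h)
  have h5 := inner_tp D h (D.X a)
  have h6 := inner_tp D h (D.X b)
  rw [D.unit] at h5 h6
  rw [real_inner_comm (D.X a) (D.X b), h1] at h5
  rw [h1] at h6
  constructor
  · rw [real_inner_comm]
    have : inner ℝ (tp D a b) (D.X a) * (D.w a + D.w b) = D.w a * (D.w a + D.w b) := by
      rw [h5]; ring
    exact mul_right_cancel₀ h4.ne' this
  · rw [real_inner_comm]
    have : inner ℝ (tp D a b) (D.X b) * (D.w a + D.w b) = D.w b * (D.w a + D.w b) := by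
      rw [h6]; ring
    exact mul_right_cancel₀ h4.ne' this

theorem tp_unique (D : LData K) {a b c : Fin 13} (h : isFace a b c = true) {x : E3}
    (hx : ‖x‖ = 1) (h1 : D.w a ≤ inner ℝ (D.X a) x) (h2 : D.w b ≤ inner ℝ (D.X b) x) :
    x = tp D a b := by
  obtain ⟨_, _, _, h4, _⟩ := D.face_data K_complex (mem_K.2 h)
  have h5 := inner_tp D h x
  have h6 : 1 ≤ inner ℝ (tp D a b) x := by
    have : 1 * (D.w a + D.w b) ≤ inner ℝ (tp D a b) x * (D.w a + D.w b) := by
      rw [h5]; linarith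
    exact le_of_mul_le_mul_right this h4
  have h7 : ‖x - tp D a b‖ ^ 2 ≤ 0 := by
    rw [norm_sub_sq_real, hx, tp_norm D h, real_inner_comm]
    linarith
  have h8 : ‖x - tp D a b‖ = 0 := by nlinarith [norm_nonneg (x - tp D a b)]
  exact sub_eq_zero.1 (norm_eq_zero.1 h8)

/-- The touching point as a point of the sphere. -/
noncomputable def tps (D : LData K) {a b c : Fin 13} (h : isFace a b c = true) : S2 :=
  ⟨tp D a b, by simpa using tp_norm D h⟩

theorem image_tp (D D' : LData K) (φ : S2 → S2)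
    (hφ : ∀ v, φ '' (D.half.toDouble K_complex).disc v = (D'.half.toDouble K_complex).disc v)
    {a b c : Fin 13} (h : isFace a b c = true) : φ (tps D h) = tps D' h := by
  obtain ⟨h1, h2⟩ := tp_inner D h
  have m1 : tps D h ∈ (D.half.toDouble K_complex).disc (copy K false a) :=
    (mem_disc_iff D a _).2 h1.ge
  have m2 : tps D h ∈ (D.half.toDouble K_complex).disc (copy K false b) :=
    (mem_disc_iff D b _).2 h2.ge
  have n1 : φ (tps D h) ∈ (D'.half.toDouble K_complex).disc (copy K false a) := by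
    rw [← hφ]; exact ⟨_, m1, rfl⟩
  have n2 : φ (tps D h) ∈ (D'.half.toDouble K_complex).disc (copy K false b) := by
    rw [← hφ]; exact ⟨_, m2, rfl⟩
  rw [mem_disc_iff] at n1 n2
  apply Subtype.ext
  exact tp_unique D' h (by simpa using (φ (tps D h)).2) n1 n2

theorem dist_sq (x y : S2) : dist x y ^ 2 = 2 - 2 * inner ℝ (x : E3) (y : E3) := by
  have hx : ‖(x : E3)‖ = 1 := by simpa using x.2
  have hy : ‖(y : E3)‖ = 1 := by simpa using y.2
  rw [Subtype.dist_eq, dist_eq_norm, norm_sub_sq_real, hx, hy]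
  ring

theorem f7 : isFace 7 10 1 = true := by decide +kernel
theorem f8 : isFace 8 11 2 = true := by decide +kernel
theorem f9 : isFace 9 12 3 = true := by decide +kernel
theorem f10 : isFace 10 4 1 = true := by decide +kernel

theorem tp7 (p : Par) : (tp p.D 7 10) = !₂[1, 0, 0] := by
  have h1 := p.s_pos
  have h2 := p.a_pos
  have h3 := p.ha
  apply ext3 <;> simp [tp, Par.D, PX, Pw]
  field_simp

theorem tp8 (p : Par) : (tp p.D 8 11) = !₂[-1 / 2, p.a / 2, 0] := by
  have h1 := p.s_pos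
  have h2 := p.a_pos
  have h3 := p.ha
  apply ext3 <;> simp [tp, Par.D, PX, Pw] <;> field_simp <;> grind

theorem tp9 (p : Par) : (tp p.D 9 12) = !₂[-1 / 2, -p.a / 2, 0] := by
  have h1 := p.s_pos
  have h2 := p.a_pos
  have h3 := p.ha
  apply ext3 <;> simp [tp, Par.D, PX, Pw] <;> field_simp <;> grind

/-- `2 - 2 ⟨T0, Q⟩` -/
theorem d1 (p : Par) : 2 - 2 * inner ℝ (tp p.D 7 10) (tp p.D 10 4) = 3 / (3 + p.e * p.b) := by
  have h := inner_tp p.D f10 (tp p.D 7 10)
  have h0 : 0 < p.D.w 10 + p.D.w 4 := (p.D.face_data K_complex (mem_K.2 f10)).2.2.2.1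
  have hc := p.c_pos
  have hp : 2 - 2 * inner ℝ (tp p.D 7 10) (tp p.D 10 4) =
      (2 * (p.D.w 10 + p.D.w 4) - 2 * (inner ℝ (p.D.X 10) (tp p.D 7 10) +
        inner ℝ (p.D.X 4) (tp p.D 7 10))) / (p.D.w 10 + p.D.w 4) := by
    rw [← h, real_inner_comm (tp p.D 10 4)]
    field_simp
  rw [hp, div_eq_div_iff h0.ne' hc.ne', tp7, inner_E3, inner_E3]
  obtain ⟨a, b, e, Z, ha, hb, he, hZ, a0, b0, P0, g0, s0, z0, c0⟩ := p
  simp [Par.D, PX, Pw]
  grind

/-- `2 - 2 ⟨T2, Q⟩` -/
theorem d2 (p : Par) : 2 - 2 * inner ℝ (tp p.D 9 12) (tp p.D 10 4) = 3 / 2 := by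
  have h := inner_tp p.D f10 (tp p.D 9 12)
  have h0 : 0 < p.D.w 10 + p.D.w 4 := (p.D.face_data K_complex (mem_K.2 f10)).2.2.2.1
  have hp : 2 - 2 * inner ℝ (tp p.D 9 12) (tp p.D 10 4) =
      (2 * (p.D.w 10 + p.D.w 4) - 2 * (inner ℝ (p.D.X 10) (tp p.D 9 12) +
        inner ℝ (p.D.X 4) (tp p.D 9 12))) / (p.D.w 10 + p.D.w 4) := by
    rw [← h, real_inner_comm (tp p.D 10 4)]
    field_simp
  rw [hp, div_eq_div_iff h0.ne' (by norm_num), tp9, inner_E3, inner_E3]
  obtain ⟨a, b, e, Z, ha, hb, he, hZ, a0, b0, P0, g0, s0, z0, c0⟩ := p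
  simp [Par.D, PX, Pw]
  grind

theorem not_equiv : ¬ MoebiusEquivalent (p1.D.half.toDouble K_complex)
    (p2.D.half.toDouble K_complex) := by
  rintro ⟨φ, ⟨_, hcr⟩, hφ⟩
  have i7 := image_tp p1.D p2.D φ hφ f7
  have i8 := image_tp p1.D p2.D φ hφ f8
  have i9 := image_tp p1.D p2.D φ hφ f9
  have i10 := image_tp p1.D p2.D φ hφ f10
  have h := hcr (tps p1.D f7) (tps p1.D f10) (tps p1.D f8) (tps p1.D f9)
  rw [i7, i8, i9, i10] at h
  have e7 : tps p1.D f7 = tps p2.D f7 := Subtype.ext ((tp7 p1).trans (tp7 p2).symm)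
  have e8 : tps p1.D f8 = tps p2.D f8 := Subtype.ext ((tp8 p1).trans (tp8 p2).symm)
  have e9 : tps p1.D f9 = tps p2.D f9 := Subtype.ext ((tp9 p1).trans (tp9 p2).symm)
  rw [e7, e8, e9] at h
  have n89 : 0 < dist (tps p2.D f8) (tps p2.D f9) := by
    rw [dist_pos]
    intro he
    have := congrArg (fun x : S2 => (x : E3) 1) he
    simp only [tps, tp8, tp9] at this
    have hp : p2.a = √3 := rfl
    simp [hp] at this
    have := sqrt3_pos
    linarith
  have n78 : 0 < dist (tps p2.D f7) (tps p2.D f8) := by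
    rw [dist_pos]
    intro he
    have := congrArg (fun x : S2 => (x : E3) 0) he
    simp only [tps, tp8, tp7] at this
    simp at this
    linarith
  have h' : dist (tps p2.D f7) (tps p2.D f10) * dist (tps p1.D f10) (tps p2.D f9) =
      dist (tps p2.D f7) (tps p1.D f10) * dist (tps p2.D f10) (tps p2.D f9) := by
    have : (dist (tps p2.D f7) (tps p2.D f10) * dist (tps p1.D f10) (tps p2.D f9)) *
        (dist (tps p2.D f8) (tps p2.D f9) * dist (tps p2.D f7) (tps p2.D f8)) =
        (dist (tps p2.D f7) (tps p1.D f10) * dist (tps p2.D f10) (tps p2.D f9)) *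
        (dist (tps p2.D f8) (tps p2.D f9) * dist (tps p2.D f7) (tps p2.D f8)) := by
      linarith
    exact mul_right_cancel₀ (mul_pos n89 n78).ne' this
  have hsq := congrArg (fun t => t ^ 2) h'
  simp only [mul_pow] at hsq
  rw [dist_comm (tps p1.D f10), dist_comm (tps p2.D f10) (tps p2.D f9), dist_sq, dist_sq, dist_sq,
    dist_sq] at hsq
  have a1 : 2 - 2 * inner ℝ ((tps p2.D f7 : S2) : E3) ((tps p2.D f10 : S2) : E3) =
    3 / (3 + p2.e * p2.b) := d1 p2
  have a2 : 2 - 2 * inner ℝ ((tps p2.D f9 : S2) : E3) ((tps p2.D f10 : S2) : E3) = 3 / 2 := d2 p2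
  have a3 : 2 - 2 * inner ℝ ((tps p2.D f7 : S2) : E3) ((tps p1.D f10 : S2) : E3) =
    3 / (3 + p1.e * p1.b) := by rw [← e7]; exact d1 p1
  have a4 : 2 - 2 * inner ℝ ((tps p2.D f9 : S2) : E3) ((tps p1.D f10 : S2) : E3) = 3 / 2 := by
    rw [← e9]; exact d2 p1
  rw [a1, a2, a3, a4] at hsq
  have b1 : p1.e * p1.b = -√5 := by simp [p1]
  have b2 : p2.e * p2.b = √5 := by simp [p2]
  rw [b1, b2] at hsq
  obtain ⟨s1, s2⟩ := sqrt5_bounds
  have c1 : (3 : ℝ) / (3 + √5) = 3 / (3 + -√5) := by linarith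
  rw [div_eq_div_iff (by linarith) (by linarith)] at c1
  linarith

end Pool.Agent.J6H86.BranchPack
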