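import Pool.Agent.J6H86.BranchPack.KSum

set_option autoImplicit false

/-!
# The two packings
-/

namespace Pool.Agent.J6H86.BranchPack

open Real InnerProductGeometry

/-- The numbers that determine a packing: `a = √3`, `b = √5`, a sign `e` and a height `Z`. -/
structure Par where
  a : ℝ
  b : ℝ
  e : ℝ
  Z : ℝ
  ha : a ^ 2 = 3
  hb : b ^ 2 = 5
  he : e ^ 2 = 1
  hZ : Z ^ 2 = 20 - 8 * e * b
  a_pos : 0 < a
  b_pos : 0 < b
  P_pos : 0 < -e * Z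
  g_pos : 0 < 3 * b - 4 * e
  s_pos : 0 < b + 2 * e
  z_pos : 0 < 3 * Z + 2 * (3 * b - 4 * e)
  c_pos : 0 < 3 + e * b

/-- The space part. -/
noncomputable def PX (p : Par) : Fin 13 → E3 :=
  ![!₂[0, 0, 3 * p.Z + 2 * (3 * p.b - 4 * p.e)],
    !₂[2 * p.e * p.a / 3, 0, p.Z], !₂[-p.e * p.a / 3, p.e, p.Z], !₂[-p.e * p.a / 3, -p.e, p.Z],
    !₂[-2 * p.a * p.b / 15, -2 * p.b / 5, 0], !₂[4 * p.a * p.b / 15, 0, 0],
    !₂[-2 * p.a * p.b / 15, 2 * p.b / 5, 0],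
    !₂[(p.b + 2 * p.e) * p.a / 3, p.e, 0], !₂[-p.a * (p.b + 5 * p.e) / 6, (p.b + p.e) / 2, 0],
    !₂[-p.a * (p.b - p.e) / 6, -(p.b + 3 * p.e) / 2, 0],
    !₂[(p.b + 2 * p.e) * p.a / 3, -p.e, 0], !₂[-p.a * (p.b - p.e) / 6, (p.b + 3 * p.e) / 2, 0],
    !₂[-p.a * (p.b + 5 * p.e) / 6, -(p.b + p.e) / 2, 0]]

/-- The weights (cotangents of the radii). -/
noncomputable def Pw (p : Par) : Fin 13 → ℝ :=
  ![p.a * ((3 * p.b - 4 * p.e) + 2 * p.Z),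
    (3 * p.b - 4 * p.e) * p.a / 3, (3 * p.b - 4 * p.e) * p.a / 3, (3 * p.b - 4 * p.e) * p.a / 3,
    p.a * p.b / 15, p.a * p.b / 15, p.a * p.b / 15,
    (p.b + 2 * p.e) * p.a / 3, (p.b + 2 * p.e) * p.a / 3, (p.b + 2 * p.e) * p.a / 3,
    (p.b + 2 * p.e) * p.a / 3, (p.b + 2 * p.e) * p.a / 3, (p.b + 2 * p.e) * p.a / 3]

theorem PX_unit (p : Par) (v : Fin 13) : inner ℝ (PX p v) (PX p v) = 1 + Pw p v ^ 2 := by
  obtain ⟨a, b, e, Z, ha, hb, he, hZ⟩ := p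
  rw [inner_E3]
  fin_cases v <;> simp [PX, Pw] <;> grind

theorem PX_tan (p : Par) : ∀ f ∈ base, inner ℝ (PX p f.1) (PX p f.2.1) = Pw p f.1 * Pw p f.2.1 - 1 ∧
    inner ℝ (PX p f.2.1) (PX p f.2.2) = Pw p f.2.1 * Pw p f.2.2 - 1 ∧
    inner ℝ (PX p f.2.2) (PX p f.1) = Pw p f.2.2 * Pw p f.1 - 1 := by
  obtain ⟨a, b, e, Z, ha, hb, he, hZ, _, _, _, _, _, _, _⟩ := p
  simp only [inner_E3, base, List.forall_mem_cons]
  refine ⟨?_, ?_, ?_, ?_, ?_, ?_, ?_, ?_, ?_, ?_, ?_, ?_, ?_, ?_, ?_, by simp⟩ <;>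
    refine ⟨?_, ?_, ?_⟩ <;> simp [PX, Pw] <;> grind

theorem PX_det (p : Par) : ∀ f ∈ base, 0 < det3 (PX p f.1) (PX p f.2.1) (PX p f.2.2) := by
  obtain ⟨a, b, e, Z, ha, hb, he, hZ, a0, b0, P0, g0, s0, z0, c0⟩ := p
  have h1 : 0 < 2 * a / 3 * (3 * Z + 2 * (3 * b - 4 * e)) := by positivity
  have h2 : 0 < 8 / 15 * a * b * (-e * Z) := by positivity
  have h3 : 0 < (-e * Z) * (3 + e * b) * (2 * a * b / 15) := by positivity
  have h4 : 0 < 2 * (-e * Z) * (b + 2 * e) * a / 3 := by positivity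
  simp only [det3, base, List.forall_mem_cons]
  refine ⟨?_, ?_, ?_, ?_, ?_, ?_, ?_, ?_, ?_, ?_, ?_, ?_, ?_, ?_, ?_, by simp⟩
  · refine lt_of_lt_of_eq h1 ?_
    simp [PX]; grind
  · refine lt_of_lt_of_eq h2 ?_
    simp [PX]; grind
  · refine lt_of_lt_of_eq h3 ?_
    simp [PX]; grind
  · refine lt_of_lt_of_eq h4 ?_
    simp [PX]; grind
  · refine lt_of_lt_of_eq h3 ?_
    simp [PX]; grind
  · refine lt_of_lt_of_eq h1 ?_
    simp [PX]; grind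
  · refine lt_of_lt_of_eq h2 ?_
    simp [PX]; grind
  · refine lt_of_lt_of_eq h3 ?_
    simp [PX]; grind
  · refine lt_of_lt_of_eq h4 ?_
    simp [PX]; grind
  · refine lt_of_lt_of_eq h3 ?_
    simp [PX]; grind
  · refine lt_of_lt_of_eq h1 ?_
    simp [PX]; grind
  · refine lt_of_lt_of_eq h2 ?_
    simp [PX]; grind
  · refine lt_of_lt_of_eq h3 ?_
    simp [PX]; grind
  · refine lt_of_lt_of_eq h4 ?_
    simp [PX]; grind
  · refine lt_of_lt_of_eq h3 ?_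
    simp [PX]; grind

end Pool.Agent.J6H86.BranchPack
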