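import Pool.Agent.J6H86.BranchPack.Pack2

set_option autoImplicit false

/-!
# The two packings, branch sets
-/

namespace Pool.Agent.J6H86.BranchPack

open Real InnerProductGeometry

theorem eb_bound (p : Par) : -(2.24 : ℝ) < p.e * p.b := by
  have h : (p.e * p.b) ^ 2 = 5 := by rw [mul_pow, p.he, p.hb]; ring
  nlinarith [sq_nonneg (p.e * p.b + 2.24)]

theorem neg_aux (p : Par) : ∀ t ∈ ([(7, 10, 6), (8, 11, 4), (9, 12, 5), (10, 4, 7), (11, 5, 8),
    (12, 6, 9)] : List (Fin 13 × Fin 13 × Fin 13)),
    inner ℝ (PX p t.2.1) (PX p t.2.2) * (1 + Pw p t.1 ^ 2) <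
      inner ℝ (PX p t.1) (PX p t.2.1) * inner ℝ (PX p t.1) (PX p t.2.2) := by
  have hu := eb_bound p
  obtain ⟨a, b, e, Z, ha, hb, he, hZ, a0, b0, P0, g0, s0, z0, c0⟩ := p
  simp only at hu
  have key : 0 < (300 + 132 * (e * b)) / 45 := by
    apply div_pos _ (by norm_num); linarith
  simp only [inner_E3, List.forall_mem_cons]
  refine ⟨?_, ?_, ?_, ?_, ?_, ?_, by simp⟩ <;> rw [← sub_pos] <;>
    refine lt_of_lt_of_eq key ?_ <;> simp [PX, Pw] <;> grind

theorem neg_aux' (p : Par) : ∀ t ∈ ([(4, 8, 10), (5, 9, 11), (6, 7, 12)] :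
    List (Fin 13 × Fin 13 × Fin 13)),
    inner ℝ (PX p t.2.1) (PX p t.2.2) * (1 + Pw p t.1 ^ 2) <
      inner ℝ (PX p t.1) (PX p t.2.1) * inner ℝ (PX p t.1) (PX p t.2.2) := by
  have hu := eb_bound p
  obtain ⟨a, b, e, Z, ha, hb, he, hZ, a0, b0, P0, g0, s0, z0, c0⟩ := p
  simp only at hu
  have key : 0 < (840 + 360 * (e * b)) / 225 := by
    apply div_pos _ (by norm_num); linarith
  simp only [inner_E3, List.forall_mem_cons]
  refine ⟨?_, ?_, ?_, by simp⟩ <;> rw [← sub_pos] <;>
    refine lt_of_lt_of_eq key ?_ <;> simp [PX, Pw] <;> grind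

theorem sum_bd_all (p : Par) (v : Fin 13) (hv : ¬ v.val < 4) :
    ∑ q ∈ link K v, p.D.half.ang v q.1 q.2 = π := by
  have h1 := neg_aux p
  have h2 := neg_aux' p
  simp only [List.forall_mem_cons] at h1 h2
  obtain ⟨n7, n8, n9, n10, n11, n12, _⟩ := h1
  obtain ⟨n4, n5, n6, _⟩ := h2
  fin_cases v
  · exact absurd (by decide) hv
  · exact absurd (by decide) hv
  · exact absurd (by decide) hv
  · exact absurd (by decide) hv
  · exact sum_bd4 p.D (v := 4) (x := 8) (z := 2) (z' := 1) (y := 10) (by decide) (by decide)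
      (by decide) rfl (by decide +kernel) (by decide +kernel) (by decide +kernel) n4
  · exact sum_bd4 p.D (v := 5) (x := 9) (z := 3) (z' := 2) (y := 11) (by decide) (by decide)
      (by decide) rfl (by decide +kernel) (by decide +kernel) (by decide +kernel) n5
  · exact sum_bd4 p.D (v := 6) (x := 7) (z := 1) (z' := 3) (y := 12) (by decide) (by decide)
      (by decide) rfl (by decide +kernel) (by decide +kernel) (by decide +kernel) n6
  · exact sum_bd3 p.D (v := 7) (x := 10) (z := 1) (y := 6) (by decide) (by decide)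
      (by decide) rfl (by decide +kernel) (by decide +kernel) n7
  · exact sum_bd3 p.D (v := 8) (x := 11) (z := 2) (y := 4) (by decide) (by decide)
      (by decide) rfl (by decide +kernel) (by decide +kernel) n8
  · exact sum_bd3 p.D (v := 9) (x := 12) (z := 3) (y := 5) (by decide) (by decide)
      (by decide) rfl (by decide +kernel) (by decide +kernel) n9
  · exact sum_bd3 p.D (v := 10) (x := 4) (z := 1) (y := 7) (by decide) (by decide)
      (by decide) rfl (by decide +kernel) (by decide +kernel) n10
  · exact sum_bd3 p.D (v := 11) (x := 5) (z := 2) (y := 8) (by decide) (by decide)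
      (by decide) rfl (by decide +kernel) (by decide +kernel) n11
  · exact sum_bd3 p.D (v := 12) (x := 6) (z := 3) (y := 9) (by decide) (by decide)
      (by decide) rfl (by decide +kernel) (by decide +kernel) n12

theorem count_double {v : Fin 13} (e : Bool) :
    (doubleBranch K B).count (copy K e v) = if v = 1 ∨ v = 2 ∨ v = 3 then 1 else 0 := by
  unfold doubleBranch
  rw [Multiset.count_add]
  have hB : ∀ v : Fin 13, B.count v = if v = 1 ∨ v = 2 ∨ v = 3 then 1 else 0 := by decide +kernel
  have hBi : ∀ w ∈ B, IsInterior K w := by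
    intro w hw
    rw [interior_iff]
    revert w
    decide +kernel
  by_cases hv : IsInterior K v
  · have hz : ∀ e' : Bool, e ≠ e' → (B.map (copy K e')).count (copy K e v) = 0 := by
      intro e' hne
      rw [Multiset.count_eq_zero]
      intro hm
      rw [Multiset.mem_map] at hm
      obtain ⟨w, _, hw⟩ := hm
      rcases (copy_eq hw).2 with h | h
      · exact hne h.symm
      · rw [(copy_eq hw).1] at h
        exact h hv
    cases e
    · rw [hz true (by simp), Multiset.count_map_eq_count' _ _ (copy_inj false), hB, add_zero]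
    · rw [hz false (by simp), Multiset.count_map_eq_count' _ _ (copy_inj true), hB, zero_add]
  · have hnot : ¬ (v = 1 ∨ v = 2 ∨ v = 3) := by
      intro h
      apply hv
      rw [interior_iff]
      rcases h with rfl | rfl | rfl <;> decide
    have hz : ∀ e' : Bool, (B.map (copy K e')).count (copy K e v) = 0 := by
      intro e'
      rw [Multiset.count_eq_zero]
      intro hm
      rw [Multiset.mem_map] at hm
      obtain ⟨w, hw, he⟩ := hm
      have := (copy_eq he).1
      subst this
      exact hv (hBi _ hw)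
    rw [hz, hz, if_neg hnot]

theorem hasBranchSet (p : Par)
    (hb : ∀ v : Fin 13, v = 1 ∨ v = 2 ∨ v = 3 → ∑ q ∈ link K v, p.D.half.ang v q.1 q.2 = 4 * π) :
    (p.D.half.toDouble K_complex).HasBranchSet (doubleBranch K B) := by
  intro q
  rw [exists_copy q, count_double]
  set v := q.1.1 with hv
  set e := q.1.2 with he
  by_cases h4 : v.val < 4
  · rw [p.D.half.sum_int K_complex (interior_iff.2 h4)]
    by_cases h0 : v = 0
    · rw [h0, sum0, if_neg (by decide)]
      push_cast; ring
    · have h : v = 1 ∨ v = 2 ∨ v = 3 := by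
        have : v.val ≠ 0 := fun h => h0 (Fin.ext h)
        rcases (by omega : v.val = 1 ∨ v.val = 2 ∨ v.val = 3) with h | h | h
        · exact Or.inl (Fin.ext h)
        · exact Or.inr (Or.inl (Fin.ext h))
        · exact Or.inr (Or.inr (Fin.ext h))
      rw [hb v h, if_pos h]
      push_cast; ring
  · rw [p.D.half.sum_bd K_complex (by rw [interior_iff]; exact h4), sum_bd_all p v h4, if_neg]
    · push_cast; ring
    · rintro (h | h | h) <;> rw [h] at h4 <;> exact h4 (by decide)

end Pool.Agent.J6H86.BranchPack
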