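import Pool.Agent.J6H86.BranchPack.Double

set_option autoImplicit false

/-!
# Mirror symmetric packings on the sphere
-/

namespace Pool.Agent.J6H86.BranchPack

open Real InnerProductGeometry

theorem inner_E3 (x y : E3) : inner ℝ x y = x 0 * y 0 + x 1 * y 1 + x 2 * y 2 := by
  simp [PiLp.inner_apply, Fin.sum_univ_three, mul_comm]

theorem norm_sq_E3 (x : E3) : ‖x‖ ^ 2 = x 0 * x 0 + x 1 * x 1 + x 2 * x 2 := by
  rw [← real_inner_self_eq_norm_sq, inner_E3]

/-- Reflection in the equator. -/
noncomputable def mir (x : E3) : E3 := !₂[x 0, x 1, -x 2]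

@[simp] theorem mir0 (x : E3) : mir x 0 = x 0 := rfl
@[simp] theorem mir1 (x : E3) : mir x 1 = x 1 := rfl
@[simp] theorem mir2 (x : E3) : mir x 2 = -x 2 := rfl

theorem ext3 {x y : E3} (h0 : x 0 = y 0) (h1 : x 1 = y 1) (h2 : x 2 = y 2) : x = y := by
  ext i
  fin_cases i
  · exact h0
  · exact h1
  · exact h2

theorem inner_mir (x y : E3) : inner ℝ (mir x) (mir y) = inner ℝ x y := by
  simp [inner_E3]

theorem norm_mir (x : E3) : ‖mir x‖ = ‖x‖ := by
  have h : ‖mir x‖ ^ 2 = ‖x‖ ^ 2 := by rw [norm_sq_E3, norm_sq_E3]; simp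
  exact (sq_eq_sq₀ (norm_nonneg _) (norm_nonneg _)).1 h

theorem angle_mir (x y : E3) : angle (mir x) (mir y) = angle x y := by
  unfold InnerProductGeometry.angle
  rw [inner_mir, norm_mir, norm_mir]

theorem toward_mir (x y : E3) : toward (mir x) (mir y) = mir (toward x y) := by
  unfold toward
  rw [inner_mir]
  apply ext3 <;> simp
  ring

theorem det3_mir (x y z : E3) : det3 (mir x) (mir z) (mir y) = det3 x y z := by
  unfold det3
  simp
  ring

/-- `mir` or the identity. -/
noncomputable def mirIf (e : Bool) (x : E3) : E3 := if e then mir x else x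

theorem angle_mirIf (e : Bool) (x y : E3) : angle (mirIf e x) (mirIf e y) = angle x y := by
  cases e
  · rfl
  · exact angle_mir x y

theorem toward_mirIf (e : Bool) (x y : E3) :
    toward (mirIf e x) (mirIf e y) = mirIf e (toward x y) := by
  cases e
  · rfl
  · exact toward_mir x y

variable {V : Type} [Fintype V] [DecidableEq V]

/-- One half of a mirror symmetric packing. -/
structure Half (F : Faces V) where
  center : V → E3
  radius : V → ℝ
  unit : ∀ v, ‖center v‖ = 1
  radius_pos : ∀ v, 0 < radius v
  radius_lt : ∀ v, radius v < π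
  tangent : ∀ a b c, (a, b, c) ∈ F → angle (center a) (center b) = radius a + radius b
  oriented : ∀ a b c, (a, b, c) ∈ F → 0 < det3 (center a) (center b) (center c)
  equator : ∀ v, ¬ IsInterior F v → center v 2 = 0

theorem mir_of_eq {x : E3} (h : x 2 = 0) : mir x = x := by
  apply ext3 <;> simp [h]

theorem Half.copy_center {F : Faces V} (H : Half F) (e : Bool) (v : V) :
    mirIf (copy F e v).1.2 (H.center (copy F e v).1.1) = mirIf e (H.center v) := by
  rw [copy_val]
  by_cases h : IsInterior F v
  · simp [h]
  · simp only [h, decide_false, Bool.and_false]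
    cases e
    · rfl
    · exact (mir_of_eq (H.equator v h)).symm

/-- The doubled packing. -/
noncomputable def Half.toDouble {F : Faces V} (hF : IsOrientedComplex F) (H : Half F) :
    SpherePacking (double F) where
  center p := mirIf p.1.2 (H.center p.1.1)
  radius p := H.radius p.1.1
  unit p := by
    cases h : p.1.2
    · exact H.unit _
    · exact (norm_mir _).trans (H.unit _)
  radius_pos p := H.radius_pos _
  radius_lt p := H.radius_lt _
  tangent p q r h := by
    rcases mem_double.1 h with ⟨a, b, c, h', e⟩ | ⟨a, b, c, h', e⟩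
    · simp only [Prod.mk.injEq] at e
      obtain ⟨rfl, rfl, rfl⟩ := e
      rw [H.copy_center, H.copy_center, angle_mirIf]
      exact H.tangent a b c h'
    · simp only [Prod.mk.injEq] at e
      obtain ⟨rfl, rfl, rfl⟩ := e
      rw [H.copy_center, H.copy_center, angle_mirIf, angle_comm,
        H.tangent c a b (hF.rotate _ _ _ (hF.rotate _ _ _ h'))]
      exact add_comm _ _
  oriented p q r h := by
    rcases mem_double.1 h with ⟨a, b, c, hF, e⟩ | ⟨a, b, c, hF, e⟩
    · simp only [Prod.mk.injEq] at e
      obtain ⟨rfl, rfl, rfl⟩ := e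
      rw [H.copy_center, H.copy_center, H.copy_center]
      exact H.oriented a b c hF
    · simp only [Prod.mk.injEq] at e
      obtain ⟨rfl, rfl, rfl⟩ := e
      rw [H.copy_center, H.copy_center, H.copy_center]
      change 0 < det3 (mir _) (mir _) (mir _)
      rw [det3_mir]
      exact H.oriented a b c hF

/-- The face angle at `v` between `a` and `b`. -/
noncomputable def Half.ang {F : Faces V} (H : Half F) (v a b : V) : ℝ :=
  angle (toward (H.center v) (H.center a)) (toward (H.center v) (H.center b))

theorem Half.sum_int {F : Faces V} (hF : IsOrientedComplex F) (H : Half F) {v : V}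
    (hv : IsInterior F v) (e : Bool) :
    (H.toDouble hF).angleSum (copy F e v) = ∑ q ∈ link F v, H.ang v q.1 q.2 := by
  unfold SpherePacking.angleSum
  refine BranchPack.sum_int hv e _ (H.ang v) ?_ ?_
  · intro a b
    change angle (toward (mirIf _ _) (mirIf _ _)) (toward (mirIf _ _) (mirIf _ _)) = _
    rw [H.copy_center, H.copy_center, H.copy_center, toward_mirIf, toward_mirIf, angle_mirIf]
    rfl
  · intro a b
    exact angle_comm _ _

theorem Half.sum_bd {F : Faces V} (hF : IsOrientedComplex F) (H : Half F) {v : V}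
    (hv : ¬ IsInterior F v) (e : Bool) :
    (H.toDouble hF).angleSum (copy F e v) = 2 * ∑ q ∈ link F v, H.ang v q.1 q.2 := by
  unfold SpherePacking.angleSum
  refine BranchPack.sum_bd hF hv e _ (H.ang v) ?_ ?_
  · intro e' a b
    rw [copy_bd hv e e']
    change angle (toward (mirIf _ _) (mirIf _ _)) (toward (mirIf _ _) (mirIf _ _)) = _
    rw [H.copy_center, H.copy_center, H.copy_center, toward_mirIf, toward_mirIf, angle_mirIf]
    rfl
  · intro a b
    exact angle_comm _ _

end Pool.Agent.J6H86.BranchPack
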